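import Pool.Agent.H312R.ZA.Defs
import Pool.Agent.H102R2.Z5.Brick

/-! Tasks AP1, AP2 (helper102). -/

open Polynomial Pool.Agent.H337R2

namespace Pool.Agent.H312R.ZA

noncomputable section

lemma Psi_eq (z : ℝ) : Psi z = Pool.Agent.H102R2.Z5.Psi z := rfl

lemma GG_eq (z : ℝ) : GG z = Pool.Agent.H102R2.Z5.G2 z := by
  unfold GG Pool.Agent.H102R2.Z5.G2; ring

theorem P1_logsum : ∃ C : ℝ, 0 < C ∧ ∀ k N A u : ℕ, 1 ≤ k → k ≤ 86 → 1 ≤ u →
    |∑ j ∈ (Finset.range N).filter (fun j => A + k * j ≠ u), Real.log |(u : ℝ) ^ 2 - ((A : ℝ) + k * j) ^ 2|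
        - (ff u ((A : ℝ) + k * N) - ff u A) / k| ≤ C * Real.log ((u : ℝ) + A + k * N + 2) := by
  refine ⟨60, by norm_num, ?_⟩
  intro k N A u hk hk86 hu
  set X : ℝ := (u : ℝ) + A + k * N + 2 with hX
  have hu1 : (1:ℝ) ≤ u := by exact_mod_cast hu
  have hA0 : (0:ℝ) ≤ A := Nat.cast_nonneg _
  have hk1 : (1:ℝ) ≤ k := by exact_mod_cast hk
  have hk2 : (k:ℝ) ≤ 86 := by exact_mod_cast hk86
  have hkN : (0:ℝ) ≤ (k : ℝ) * N := by positivity
  have hX3 : 3 ≤ X := by rw [hX]; linarith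
  have hlX : 1 ≤ Real.log X := by
    rw [Real.le_log_iff_exp_le (by linarith)]
    have := Real.exp_one_lt_d9
    linarith
  -- W
  have hW : Real.log (30 * X) ≤ 5 * Real.log X := by
    rw [Real.log_mul (by norm_num) (by linarith)]
    have : Real.log 30 ≤ 4 := by
      rw [Real.log_le_iff_le_exp (by norm_num)]
      have h1 : (2.7 : ℝ) ≤ Real.exp 1 := by have := Real.exp_one_gt_d9; linarith
      have h2 : Real.exp 4 = Real.exp 1 ^ 4 := by rw [← Real.exp_nat_mul]; norm_num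
      rw [h2]
      have : (2.7:ℝ) ^ 4 ≤ Real.exp 1 ^ 4 := pow_le_pow_left₀ (by norm_num) h1 4
      norm_num at this ⊢
      linarith
    linarith
  have b1 := Pool.Agent.H102R2.Z5.brick ((u : ℤ) - A) k hk N (30 * X) (by
    have : |(((u : ℤ) - A : ℤ) : ℝ)| ≤ u + A := by
      push_cast
      rw [abs_le]; constructor <;> linarith
    rw [hX] at hX3 ⊢
    linarith)
  have b2 := Pool.Agent.H102R2.Z5.brick (-((u : ℤ) + A)) k hk N (30 * X) (by
    have : |((-((u : ℤ) + A) : ℤ) : ℝ)| ≤ u + A := by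
      push_cast
      rw [abs_le]; constructor <;> linarith
    rw [hX] at hX3 ⊢
    linarith)
  -- splitting the sum
  have hsplit : ∀ j ∈ Finset.range N, (if A + k * j ≠ u then Real.log |(u : ℝ) ^ 2 - ((A : ℝ) + k * j) ^ 2| else 0) =
      Real.log ((((u : ℤ) - A : ℤ) : ℝ) - k * j) + Real.log (((-((u : ℤ) + A) : ℤ) : ℝ) - k * j) -
        (if A + k * j ≠ u then 0 else Real.log ((u : ℝ) + (A + k * j))) := by
    intro j _
    by_cases h : A + k * j = u
    · rw [if_neg (by simpa using h), if_neg (by simpa using h)]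
      have h' : (A : ℝ) + k * j = u := by exact_mod_cast h
      have e1 : (((u : ℤ) - A : ℤ) : ℝ) - k * j = 0 := by push_cast; linarith
      have e2 : ((-((u : ℤ) + A) : ℤ) : ℝ) - k * j = -((u : ℝ) + (A + k * j)) := by push_cast; ring
      rw [e1, Real.log_zero, e2, Real.log_neg_eq_log]; ring
    · rw [if_pos (by simpa using h), if_pos (by simpa using h)]
      have h' : (u : ℝ) - (A + k * j) ≠ 0 := by
        intro h0
        apply h
        have : (A : ℝ) + k * j = u := by linarith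
        exact_mod_cast this
      have h'' : (u : ℝ) + (A + k * j) ≠ 0 := by positivity
      have e0 : (u : ℝ) ^ 2 - ((A : ℝ) + k * j) ^ 2 = (u - (A + k * j)) * (u + (A + k * j)) := by ring
      rw [Real.log_abs, e0, Real.log_mul h' h'']
      have e1 : (((u : ℤ) - A : ℤ) : ℝ) - k * j = (u : ℝ) - (A + k * j) := by push_cast; ring
      have e2 : ((-((u : ℤ) + A) : ℤ) : ℝ) - k * j = -((u : ℝ) + (A + k * j)) := by push_cast; ring
      rw [e1, e2, Real.log_neg_eq_log]; ring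
  rw [Finset.sum_filter, Finset.sum_congr rfl hsplit, Finset.sum_sub_distrib, Finset.sum_add_distrib]
  -- the exceptional term
  have hexc : |∑ j ∈ Finset.range N, (if A + k * j ≠ u then 0 else Real.log ((u : ℝ) + (A + k * j)))| ≤
      Real.log X := by
    by_cases hex : ∃ j0 ∈ Finset.range N, A + k * j0 = u
    · obtain ⟨j0, hj0, h0⟩ := hex
      rw [Finset.sum_eq_single j0]
      · rw [if_neg (by simpa using h0)]
        have h' : (A : ℝ) + k * j0 = u := by exact_mod_cast h0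
        have hjN : (j0 : ℝ) ≤ N := by
          rw [Finset.mem_range] at hj0; exact_mod_cast hj0.le
        have h3 : (k : ℝ) * j0 ≤ k * N := mul_le_mul_of_nonneg_left hjN (by linarith)
        have h4 : 0 ≤ Real.log ((u : ℝ) + (A + k * j0)) := Real.log_nonneg (by linarith)
        rw [abs_of_nonneg h4]
        exact Real.log_le_log (by linarith) (by rw [hX]; linarith)
      · intro j _ hne
        rw [if_pos]
        intro h
        apply hne
        have : k * j = k * j0 := by omega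
        exact Nat.eq_of_mul_eq_mul_left (by omega) this
      · intro h; exact absurd hj0 h
    · push Not at hex
      rw [Finset.sum_eq_zero]
      · rw [abs_zero]; linarith
      · intro j hj
        rw [if_pos (hex j hj)]
  have e3 : (ff u ((A : ℝ) + k * N) - ff u A) / k =
      (Pool.Agent.H102R2.Z5.Psi (((u : ℤ) - A : ℤ) : ℝ) -
        Pool.Agent.H102R2.Z5.Psi ((((u : ℤ) - A : ℤ) : ℝ) - k * N)) / k +
      (Pool.Agent.H102R2.Z5.Psi ((-((u : ℤ) + A) : ℤ) : ℝ) -
        Pool.Agent.H102R2.Z5.Psi (((-((u : ℤ) + A) : ℤ) : ℝ) - k * N)) / k := by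
    have e1 : ((-((u : ℤ) + A) : ℤ) : ℝ) = -((u : ℝ) + A) := by push_cast; ring
    have e2 : ((-((u : ℤ) + A) : ℤ) : ℝ) - k * N = -((u : ℝ) + (A + k * N)) := by push_cast; ring
    have e4 : (((u : ℤ) - A : ℤ) : ℝ) = (u : ℝ) - A := by push_cast; ring
    have e5 : (((u : ℤ) - A : ℤ) : ℝ) - k * N = (u : ℝ) - (A + k * N) := by push_cast; ring
    rw [e2, e1, e5, e4, Pool.Agent.H102R2.Z5.Psi_neg, Pool.Agent.H102R2.Z5.Psi_neg]
    unfold ff
    rw [Psi_eq, Psi_eq, Psi_eq, Psi_eq]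
    ring
  rw [e3]
  rw [abs_le] at b1 b2 hexc ⊢
  constructor <;> linarith [b1.1, b1.2, b2.1, b2.2, hexc.1, hexc.2]

theorem P2_psisum : ∃ C : ℝ, 0 < C ∧ ∀ (k N : ℕ) (a : ℝ), 1 ≤ k → k ≤ 86 →
    |∑ j ∈ Finset.range N, Psi (a + k * j) - (GG (a + k * N) - GG a) / k| ≤
      C * ((N : ℝ) + 1) * Real.log (|a| + k * N + 2) := by
  refine ⟨90, by norm_num, ?_⟩
  intro k N a hk hk86
  have hk1 : (1:ℝ) ≤ k := by exact_mod_cast hk
  have hk2 : (k:ℝ) ≤ 86 := by exact_mod_cast hk86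
  have hkN : (0:ℝ) ≤ (k : ℝ) * N := by positivity
  have ha := abs_nonneg a
  have h := Pool.Agent.H102R2.Z5.outer a k (by linarith) N (|a| + k * N + 2) (by linarith) (by linarith)
  rw [GG_eq, GG_eq]
  refine h.trans ?_
  have hlog2 : 0.6931471803 < Real.log 2 := Real.log_two_gt_d9
  have hlog : Real.log 2 ≤ Real.log (|a| + k * N + 2) := Real.log_le_log (by norm_num) (by linarith)
  set L := Real.log (|a| + k * N + 2)
  have hN : (0:ℝ) ≤ N := Nat.cast_nonneg _
  have h1 : (k : ℝ) * L + 2 ≤ 90 * L := by nlinarith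
  calc (N : ℝ) * (k * L + 2) ≤ N * (90 * L) := mul_le_mul_of_nonneg_left h1 hN
    _ ≤ 90 * ((N : ℝ) + 1) * L := by nlinarith

end

end Pool.Agent.H312R.ZA
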