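import Pool.Agent.H312R.ZA.Defs

/-! P3, P4: scaling of the functions `ff` and `GG`. -/

open Polynomial Pool.Agent.H337R2

namespace Pool.Agent.H312R.ZA

noncomputable section

theorem AP3_Psi_scale {r : ℝ} (hr : 0 < r) (z : ℝ) :
    Psi (r * z) = r * Psi z + r * z * Real.log r := by
  unfold Psi
  rcases eq_or_ne z 0 with rfl | hz
  · simp
  · rw [Real.log_mul hr.ne' hz]; ring

theorem P3_ff_scale {r : ℝ} (hr : 0 < r) (v b : ℝ) :
    ff (r * v) (r * b) = r * ff v b + 2 * b * r * Real.log r := by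
  unfold ff
  rw [← mul_add, ← mul_sub, AP3_Psi_scale hr, AP3_Psi_scale hr]
  ring

theorem P4_GG_scale {r : ℝ} (hr : 0 < r) (z : ℝ) :
    GG (r * z) = r ^ 2 * GG z + r ^ 2 * z ^ 2 / 2 * Real.log r := by
  unfold GG
  rcases eq_or_ne z 0 with rfl | hz
  · simp
  · rw [Real.log_mul hr.ne' hz]; ring

end

end Pool.Agent.H312R.ZA
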