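import Pool.Agent.H312R.ZA.E1pre
import Pool.Agent.H312R.ZA.AP3
import Pool.Agent.H312R.ZA.AP12

/-! E1: the energy of the saturated nodes. -/

open Polynomial Pool.Agent.H337R2 Pool.Agent.H336R2.Z5 Filter Topology

namespace Pool.Agent.H312R.ZA

theorem E1_sat : ∃ C : ℝ, 0 < C ∧ ∀ n : ℕ, 2 ≤ n →
    ∑ i ∈ Finset.range (11 * n), (n * phi ((nd n i : ℝ) / n) +
      ∑ j ∈ (Finset.range (11 * n)).erase i, Real.log |xu n (nd n i) - xu n (nd n j)|) ≤
    eS * (n : ℝ) ^ 2 + 242 * (n : ℝ) ^ 2 * Real.log n + C * n * Real.log n :=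
  E1_of P1_logsum P2_psisum (fun hr v b => P3_ff_scale hr v b) (fun hr z => P4_GG_scale hr z)

end Pool.Agent.H312R.ZA
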