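import Pool.Agent.H312R.ZA.Defs

/-! Task AE2: energy of the unsaturated nodes (lower bound). -/

open Polynomial Pool.Agent.H337R2 Pool.Agent.H336R2.Z5 Filter Topology

namespace Pool.Agent.H312R.ZA

noncomputable section

/-- left ends, right ends, steps and sizes of the cells -/
def E2_a : Fin 5 → ℕ := ![31, 37, 49, 67, 109]
def E2_b : Fin 5 → ℕ := ![37, 49, 67, 109, 281]
def E2_k : Fin 5 → ℕ := ![2, 4, 9, 21, 86]
def E2_N : Fin 5 → ℕ := ![3, 3, 2, 2, 2]

lemma E2_facts (c : Fin 5) : E2_a c + E2_k c * E2_N c = E2_b c ∧ 1 ≤ E2_k c ∧ E2_k c ≤ 86 ∧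
    E2_b c ≤ 281 ∧ E2_N c ≤ 3 ∧ E2_a c ≤ 109 ∧ E2_k c * E2_N c ≤ 172 ∧ 31 ≤ E2_a c ∧ 1 ≤ E2_N c := by
  fin_cases c <;> decide

lemma E2_cl (c : Fin 5) : (cl c).1 = (E2_a c : ℝ) ∧ (cl c).2.1 = (E2_b c : ℝ) ∧
    (cl c).2.2 = (E2_k c : ℝ) := by
  fin_cases c <;> simp [cl, E2_a, E2_b, E2_k]

lemma E2_cell {n A B s k a : ℕ} (F : ℕ → ℝ) (hs : B - A = s * n)
    (h : ∀ i, A ≤ i → i < B → nd n i = a * n + k * (i - A)) :
    ∑ i ∈ Finset.Ico A B, F (nd n i) = ∑ j ∈ Finset.range (s * n), F (a * n + k * j) := by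
  rw [Finset.sum_Ico_eq_sum_range, hs]
  refine Finset.sum_congr rfl fun j hj => ?_
  rw [Finset.mem_range] at hj
  rw [h (A + j) (by omega) (by omega), Nat.add_sub_cancel_left]

lemma E2_nd_cells {n : ℕ} (F : ℕ → ℝ) :
    ∑ i ∈ Finset.Ico (11 * n) (23 * n), F (nd n i) =
      ∑ c : Fin 5, ∑ j ∈ Finset.range (E2_N c * n), F (E2_a c * n + E2_k c * j) := by
  rw [← Finset.sum_Ico_consecutive _ (show 11 * n ≤ 14 * n by omega) (show 14 * n ≤ 23 * n by omega),
    ← Finset.sum_Ico_consecutive _ (show 14 * n ≤ 17 * n by omega) (show 17 * n ≤ 23 * n by omega),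
    ← Finset.sum_Ico_consecutive _ (show 17 * n ≤ 19 * n by omega) (show 19 * n ≤ 23 * n by omega),
    ← Finset.sum_Ico_consecutive _ (show 19 * n ≤ 21 * n by omega) (show 21 * n ≤ 23 * n by omega),
    Fin.sum_univ_five]
  rw [E2_cell (s := 3) (k := 2) (a := 31) F (by omega) (fun i h1 h2 => by unfold nd; split_ifs <;> omega),
    E2_cell (s := 3) (k := 4) (a := 37) F (by omega) (fun i h1 h2 => by unfold nd; split_ifs <;> omega),
    E2_cell (s := 2) (k := 9) (a := 49) F (by omega) (fun i h1 h2 => by unfold nd; split_ifs <;> omega),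
    E2_cell (s := 2) (k := 21) (a := 67) F (by omega) (fun i h1 h2 => by unfold nd; split_ifs <;> omega),
    E2_cell (s := 2) (k := 86) (a := 109) F (by omega) (fun i h1 h2 => by unfold nd; split_ifs <;> omega)]
  simp only [E2_N, E2_a, E2_k, Matrix.cons_val_zero, Matrix.cons_val_one, Matrix.cons_val]
  ring

lemma E2_nd_lt {n i j : ℕ} (hi : 11 * n ≤ i) (hij : i < j) : nd n i < nd n j := by
  unfold nd
  split_ifs <;> omega

lemma E2_nd_ne {n i j : ℕ} (hi : 11 * n ≤ i) (hj : 11 * n ≤ j) (hij : i ≠ j) : nd n i ≠ nd n j := by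
  rcases lt_or_gt_of_ne hij with h | h
  · exact (E2_nd_lt hi h).ne
  · exact (E2_nd_lt hj h).ne'

lemma E2_nd_le {n i : ℕ} (hi : 11 * n ≤ i) (hi2 : i < 23 * n) : nd n i ≤ 281 * n := by
  unfold nd
  split_ifs <;> omega

lemma E2_nd_pos {n i : ℕ} (hn : 1 ≤ n) (hi : 11 * n ≤ i) : 1 ≤ nd n i := by
  unfold nd
  split_ifs <;> omega

lemma E2_log {n : ℕ} (hn : 2 ≤ n) {z : ℝ} (hz0 : 0 < z) (hz : z ≤ 1024 * n) :
    Real.log z ≤ 11 * Real.log n := by
  have hn0 : (0:ℝ) < n := by exact_mod_cast (by omega : 0 < n)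
  have h1 : Real.log z ≤ Real.log (1024 * n) := Real.log_le_log hz0 hz
  have h2 : Real.log (1024 * n) = 10 * Real.log 2 + Real.log n := by
    rw [Real.log_mul (by norm_num) hn0.ne', show (1024:ℝ) = 2 ^ 10 by norm_num, Real.log_pow]
    norm_num
  have h3 : Real.log 2 ≤ Real.log n := Real.log_le_log (by norm_num) (by exact_mod_cast hn)
  linarith

lemma E2_log_pos {n : ℕ} (hn : 2 ≤ n) : 0 ≤ Real.log n :=
  Real.log_nonneg (by exact_mod_cast (by omega : 1 ≤ n))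

/-- logarithm of a difference of nodes -/
lemma E2_xu {n u v : ℕ} (huv : v ≠ u) :
    Real.log |xu n u - xu n v| = Real.log |(u : ℝ) ^ 2 - (v : ℝ) ^ 2| - Real.log 4 := by
  have h1 : xu n u - xu n v = ((u : ℝ) ^ 2 - (v : ℝ) ^ 2) / 4 := by
    unfold xu
    ring
  have h2 : (u : ℝ) ^ 2 - (v : ℝ) ^ 2 ≠ 0 := by
    intro h
    have h3 : (u : ℝ) ^ 2 = (v : ℝ) ^ 2 := by linarith
    have h4 : u ^ 2 = v ^ 2 := by exact_mod_cast h3
    exact huv (Nat.pow_left_injective (n := 2) (by norm_num) h4).symm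
  rw [h1, abs_div, Real.log_div (abs_ne_zero.2 h2) (by norm_num)]
  norm_num

/-- upper bound for a single term -/
lemma E2_term {n u v : ℕ} (hn : 2 ≤ n) (hu : u ≤ 281 * n) (hv : v ≤ 281 * n) :
    Real.log |xu n u - xu n v| ≤ 22 * Real.log n := by
  have hl := E2_log_pos hn
  have h1 : xu n u - xu n v = ((u : ℝ) ^ 2 - (v : ℝ) ^ 2) / 4 := by
    unfold xu
    ring
  rcases eq_or_ne (xu n u - xu n v) 0 with h0 | h0
  · rw [h0, abs_zero, Real.log_zero]
    positivity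
  · have hn0 : (0:ℝ) < n := by exact_mod_cast (by omega : 0 < n)
    have hu' : (u : ℝ) ≤ 281 * n := by exact_mod_cast hu
    have hv' : (v : ℝ) ≤ 281 * n := by exact_mod_cast hv
    have hu0 : (0 : ℝ) ≤ u := Nat.cast_nonneg u
    have hv0 : (0 : ℝ) ≤ v := Nat.cast_nonneg v
    have h2 : |xu n u - xu n v| ≤ (1024 * n) ^ 2 := by
      rw [h1, abs_le]
      constructor <;> nlinarith
    have h3 : Real.log |xu n u - xu n v| ≤ Real.log ((1024 * n) ^ 2) :=
      Real.log_le_log (abs_pos.2 h0) h2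
    rw [Real.log_pow] at h3
    have h4 := E2_log hn (z := 1024 * n) (by positivity) le_rfl
    push_cast at h3
    linarith

/-- the potential of all unsaturated cells -/
def E2_M (n : ℕ) (u : ℝ) : ℝ :=
  ∑ c : Fin 5, (ff u ((E2_b c : ℝ) * n) - ff u ((E2_a c : ℝ) * n)) / E2_k c

/-- statement of `P1_logsum` -/
def E2_P1st : Prop := ∃ C : ℝ, 0 < C ∧ ∀ k N A u : ℕ, 1 ≤ k → k ≤ 86 → 1 ≤ u →
    |∑ j ∈ (Finset.range N).filter (fun j => A + k * j ≠ u), Real.log |(u : ℝ) ^ 2 - ((A : ℝ) + k * j) ^ 2|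
        - (ff u ((A : ℝ) + k * N) - ff u A) / k| ≤ C * Real.log ((u : ℝ) + A + k * N + 2)

/-- statement of `P2_psisum` -/
def E2_P2st : Prop := ∃ C : ℝ, 0 < C ∧ ∀ (k N : ℕ) (a : ℝ), 1 ≤ k → k ≤ 86 →
    |∑ j ∈ Finset.range N, Psi (a + k * j) - (GG (a + k * N) - GG a) / k| ≤
      C * ((N : ℝ) + 1) * Real.log (|a| + k * N + 2)

lemma E2_sum_le {ι : Type} (s : Finset ι) (f : ι → ℝ) (c : ℝ) (N : ℝ) (hc : 0 ≤ c)
    (hN : (s.card : ℝ) ≤ N) (h : ∀ i ∈ s, f i ≤ c) : ∑ i ∈ s, f i ≤ N * c := by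
  calc ∑ i ∈ s, f i ≤ s.card • c := Finset.sum_le_card_nsmul s f c h
    _ = s.card * c := nsmul_eq_mul _ _
    _ ≤ N * c := mul_le_mul_of_nonneg_right hN hc

/-- inner sums -/
lemma E2_inner {C1 : ℝ} (hC1 : 0 < C1)
    (h : ∀ k N A u : ℕ, 1 ≤ k → k ≤ 86 → 1 ≤ u →
    |∑ j ∈ (Finset.range N).filter (fun j => A + k * j ≠ u), Real.log |(u : ℝ) ^ 2 - ((A : ℝ) + k * j) ^ 2|
        - (ff u ((A : ℝ) + k * N) - ff u A) / k| ≤ C1 * Real.log ((u : ℝ) + A + k * N + 2))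
    {n : ℕ} (hn : 2 ≤ n) {i : ℕ} (hi : 11 * n ≤ i) (hi2 : i < 23 * n) :
    E2_M n (nd n i) - 55 * C1 * Real.log n - 12 * n * Real.log 4 ≤
      ∑ j ∈ (Finset.Ico (11 * n) (23 * n)).erase i, Real.log |xu n (nd n i) - xu n (nd n j)| := by
  set u := nd n i with hu
  have hu1 : 1 ≤ u := E2_nd_pos (by omega) hi
  have hu2 : u ≤ 281 * n := E2_nd_le hi hi2
  have h1 : (Finset.Ico (11 * n) (23 * n)).erase i =
      (Finset.Ico (11 * n) (23 * n)).filter (fun j => nd n j ≠ u) := by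
    ext j
    rw [Finset.mem_erase, Finset.mem_filter]
    constructor
    · rintro ⟨h2, h3⟩
      exact ⟨h3, E2_nd_ne (Finset.mem_Ico.1 h3).1 hi h2⟩
    · rintro ⟨h2, h3⟩
      exact ⟨fun h4 => h3 (by rw [h4]), h2⟩
  rw [h1, Finset.sum_filter,
    E2_nd_cells (fun v => if v ≠ u then Real.log |xu n u - xu n v| else 0)]
  have h2 : ∀ c : Fin 5, (ff u ((E2_b c : ℝ) * n) - ff u ((E2_a c : ℝ) * n)) / E2_k c -
      11 * C1 * Real.log n - E2_N c * n * Real.log 4 ≤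
      ∑ j ∈ Finset.range (E2_N c * n), (if E2_a c * n + E2_k c * j ≠ u then
        Real.log |xu n u - xu n ((E2_a c * n + E2_k c * j : ℕ) : ℝ)| else 0) := by
    intro c
    obtain ⟨f1, f2, f3, f4, f5, f6, f7, f8, f9⟩ := E2_facts c
    have h3 := h (E2_k c) (E2_N c * n) (E2_a c * n) u f2 f3 hu1
    have hb : ((E2_a c * n : ℕ) : ℝ) + E2_k c * ((E2_N c * n : ℕ) : ℝ) = (E2_b c : ℝ) * n := by
      rw [← f1]
      push_cast
      ring
    rw [hb] at h3
    have hlog : Real.log ((u : ℝ) + ((E2_a c * n : ℕ) : ℝ) + E2_k c * ((E2_N c * n : ℕ) : ℝ) + 2) ≤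
        11 * Real.log n := by
      refine E2_log hn (by positivity) ?_
      have h4 : u + E2_a c * n + E2_k c * (E2_N c * n) + 2 ≤ 1024 * n := by
        have h5 : E2_a c * n ≤ 109 * n := Nat.mul_le_mul_right n f6
        have h6 : E2_k c * (E2_N c * n) ≤ 172 * n := by
          rw [← mul_assoc]
          exact Nat.mul_le_mul_right n f7
        omega
      exact_mod_cast h4
    have h5 := (abs_le.1 h3).1
    have h6 : C1 * Real.log ((u : ℝ) + ((E2_a c * n : ℕ) : ℝ) + E2_k c * ((E2_N c * n : ℕ) : ℝ) + 2) ≤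
        11 * C1 * Real.log n := by
      calc _ ≤ C1 * (11 * Real.log n) := mul_le_mul_of_nonneg_left hlog hC1.le
        _ = _ := by ring
    rw [← Finset.sum_filter]
    have h7 : ∑ j ∈ (Finset.range (E2_N c * n)).filter (fun j => E2_a c * n + E2_k c * j ≠ u),
        Real.log |xu n u - xu n ((E2_a c * n + E2_k c * j : ℕ) : ℝ)| =
        ∑ j ∈ (Finset.range (E2_N c * n)).filter (fun j => E2_a c * n + E2_k c * j ≠ u),
          Real.log |(u : ℝ) ^ 2 - (((E2_a c * n : ℕ) : ℝ) + E2_k c * j) ^ 2| -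
        ((Finset.range (E2_N c * n)).filter (fun j => E2_a c * n + E2_k c * j ≠ u)).card *
          Real.log 4 := by
      rw [← nsmul_eq_mul, ← Finset.sum_const, ← Finset.sum_sub_distrib]
      refine Finset.sum_congr rfl fun j hj => ?_
      rw [E2_xu (Finset.mem_filter.1 hj).2]
      push_cast
      rfl
    have h8 : (((Finset.range (E2_N c * n)).filter
        (fun j => E2_a c * n + E2_k c * j ≠ u)).card : ℝ) * Real.log 4 ≤
        E2_N c * n * Real.log 4 := by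
      refine mul_le_mul_of_nonneg_right ?_ (Real.log_nonneg (by norm_num))
      have : ((Finset.range (E2_N c * n)).filter (fun j => E2_a c * n + E2_k c * j ≠ u)).card ≤
          E2_N c * n := (Finset.card_filter_le _ _).trans (by rw [Finset.card_range])
      exact_mod_cast this
    have hff : ff (u : ℝ) ((E2_a c * n : ℕ) : ℝ) = ff u ((E2_a c : ℝ) * n) := by
      rw [Nat.cast_mul]
    rw [hff] at h5
    rw [h7]
    linarith
  have h3 := Finset.sum_le_sum fun c (_ : c ∈ Finset.univ) => h2 c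
  refine le_trans (le_of_eq ?_) h3
  rw [Finset.sum_sub_distrib, Finset.sum_sub_distrib]
  unfold E2_M
  simp only [Fin.sum_univ_five]
  simp only [E2_N, Matrix.cons_val_zero, Matrix.cons_val_one, Matrix.cons_val]
  push_cast
  ring

/-- outer sums of `ff` -/
lemma E2_outer {C2 : ℝ} (hC2 : 0 < C2)
    (h : ∀ (k N : ℕ) (a : ℝ), 1 ≤ k → k ≤ 86 →
    |∑ j ∈ Finset.range N, Psi (a + k * j) - (GG (a + k * N) - GG a) / k| ≤
      C2 * ((N : ℝ) + 1) * Real.log (|a| + k * N + 2))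
    {n : ℕ} (hn : 2 ≤ n) (c : Fin 5) (b : ℝ) (hb0 : 0 ≤ b) (hb : b ≤ 281 * n) :
    |∑ j ∈ Finset.range (E2_N c * n), ff ((E2_a c * n + E2_k c * j : ℕ) : ℝ) b -
      IF (E2_a c * n) (E2_b c * n) b / E2_k c| ≤ 88 * C2 * (n * Real.log n) := by
  obtain ⟨f1, f2, f3, f4, f5, f6, f7, f8, f9⟩ := E2_facts c
  have hn0 : (0:ℝ) < n := by exact_mod_cast (by omega : 0 < n)
  have hl := E2_log_pos hn
  have ha : ((E2_a c : ℝ)) ≤ 109 := by exact_mod_cast f6
  have ha0 : (0 : ℝ) ≤ (E2_a c : ℝ) := Nat.cast_nonneg _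
  have hkN : (E2_k c : ℝ) * (E2_N c : ℝ) ≤ 172 := by exact_mod_cast f7
  have hN3 : (E2_N c : ℝ) ≤ 3 := by exact_mod_cast f5
  have hn2 : (2 : ℝ) ≤ n := by exact_mod_cast hn
  have hbb : (E2_b c : ℝ) * n = (E2_a c : ℝ) * n + E2_k c * ((E2_N c * n : ℕ) : ℝ) := by
    rw [← f1]
    push_cast
    ring
  have key : ∀ a : ℝ, |a| ≤ 562 * n → C2 * (((E2_N c * n : ℕ) : ℝ) + 1) *
      Real.log (|a| + E2_k c * ((E2_N c * n : ℕ) : ℝ) + 2) ≤ 44 * C2 * (n * Real.log n) := by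
    intro a ha'
    have h1 : Real.log (|a| + E2_k c * ((E2_N c * n : ℕ) : ℝ) + 2) ≤ 11 * Real.log n := by
      refine E2_log hn (by positivity) ?_
      push_cast
      nlinarith
    have h2 : ((E2_N c * n : ℕ) : ℝ) + 1 ≤ 4 * n := by
      push_cast
      nlinarith
    calc _ ≤ C2 * (((E2_N c * n : ℕ) : ℝ) + 1) * (11 * Real.log n) :=
          mul_le_mul_of_nonneg_left h1 (by positivity)
      _ ≤ C2 * (4 * n) * (11 * Real.log n) := by gcongr
      _ = _ := by ring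
  have e1 := (h (E2_k c) (E2_N c * n) ((E2_a c : ℝ) * n + b) f2 f3).trans (key _ (by
    rw [abs_le]
    constructor <;> nlinarith))
  have e2 := (h (E2_k c) (E2_N c * n) ((E2_a c : ℝ) * n - b) f2 f3).trans (key _ (by
    rw [abs_le]
    constructor <;> nlinarith))
  have e3 : ∑ j ∈ Finset.range (E2_N c * n), ff ((E2_a c * n + E2_k c * j : ℕ) : ℝ) b =
      ∑ j ∈ Finset.range (E2_N c * n), Psi ((E2_a c : ℝ) * n + b + E2_k c * j) -
      ∑ j ∈ Finset.range (E2_N c * n), Psi ((E2_a c : ℝ) * n - b + E2_k c * j) := by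
    rw [← Finset.sum_sub_distrib]
    refine Finset.sum_congr rfl fun j _ => ?_
    unfold ff
    push_cast
    congr 2 <;> ring
  have e4 : IF (E2_a c * n) (E2_b c * n) b / E2_k c =
      (GG ((E2_a c : ℝ) * n + b + E2_k c * ((E2_N c * n : ℕ) : ℝ)) - GG ((E2_a c : ℝ) * n + b)) / E2_k c -
      (GG ((E2_a c : ℝ) * n - b + E2_k c * ((E2_N c * n : ℕ) : ℝ)) - GG ((E2_a c : ℝ) * n - b)) / E2_k c := by
    unfold IF
    rw [hbb, show (E2_a c : ℝ) * n + E2_k c * ((E2_N c * n : ℕ) : ℝ) + b =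
      (E2_a c : ℝ) * n + b + E2_k c * ((E2_N c * n : ℕ) : ℝ) by ring,
      show (E2_a c : ℝ) * n + E2_k c * ((E2_N c * n : ℕ) : ℝ) - b =
      (E2_a c : ℝ) * n - b + E2_k c * ((E2_N c * n : ℕ) : ℝ) by ring]
    ring
  rw [e3, e4]
  rw [abs_le] at e1 e2 ⊢
  constructor <;> linarith [e1.1, e1.2, e2.1, e2.2]

lemma E2_GG_scale {r : ℝ} (hr : 0 < r) (z : ℝ) :
    GG (r * z) = r ^ 2 * GG z + r ^ 2 * z ^ 2 / 2 * Real.log r := by
  unfold GG
  rcases eq_or_ne z 0 with h | h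
  · subst h
    simp
  · rw [Real.log_mul hr.ne' h]
    ring

lemma E2_IF_scale {r : ℝ} (hr : 0 < r) (a b c : ℝ) :
    IF (a * r) (b * r) (c * r) = r ^ 2 * IF a b c + 2 * c * (b - a) * (r ^ 2 * Real.log r) := by
  unfold IF
  rw [show b * r + c * r = r * (b + c) by ring, show a * r + c * r = r * (a + c) by ring,
    show b * r - c * r = r * (b - c) by ring, show a * r - c * r = r * (a - c) by ring,
    E2_GG_scale hr, E2_GG_scale hr, E2_GG_scale hr, E2_GG_scale hr]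
  ring

/-- the sum of the potentials over all unsaturated nodes -/
lemma E2_total {C2 : ℝ} (hC2 : 0 < C2)
    (h : ∀ (k N : ℕ) (a : ℝ), 1 ≤ k → k ≤ 86 →
    |∑ j ∈ Finset.range N, Psi (a + k * j) - (GG (a + k * N) - GG a) / k| ≤
      C2 * ((N : ℝ) + 1) * Real.log (|a| + k * N + 2))
    {n : ℕ} (hn : 2 ≤ n) :
    eN * (n : ℝ) ^ 2 + 144 * Real.log 4 * (n : ℝ) ^ 2 + 288 * (n : ℝ) ^ 2 * Real.log n -
      4400 * C2 * (n * Real.log n) ≤ ∑ i ∈ Finset.Ico (11 * n) (23 * n), E2_M n (nd n i) := by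
  have hn0 : (0:ℝ) < n := by exact_mod_cast (by omega : 0 < n)
  have hl := E2_log_pos hn
  rw [E2_nd_cells (fun v => E2_M n v)]
  have h1 : ∀ c' c : Fin 5,
      (n : ℝ) ^ 2 * en (cl c').1 (cl c').2.1 (cl c').2.2 (cl c).1 (cl c).2.1 (cl c).2.2 +
        (E2_N c' * E2_N c) * (Real.log 4 * (n : ℝ) ^ 2) +
        2 * (E2_N c' * E2_N c) * ((n : ℝ) ^ 2 * Real.log n) - 176 * C2 * (n * Real.log n) ≤
      ∑ j ∈ Finset.range (E2_N c' * n), (ff ((E2_a c' * n + E2_k c' * j : ℕ) : ℝ) ((E2_b c : ℝ) * n) -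
        ff ((E2_a c' * n + E2_k c' * j : ℕ) : ℝ) ((E2_a c : ℝ) * n)) / E2_k c := by
    intro c' c
    obtain ⟨f1, f2, f3, f4, f5, f6, f7, f8, f9⟩ := E2_facts c
    obtain ⟨g1, g2, g3, g4, g5, g6, g7, g8, g9⟩ := E2_facts c'
    obtain ⟨l1, l2, l3⟩ := E2_cl c
    obtain ⟨m1, m2, m3⟩ := E2_cl c'
    have hk : (1 : ℝ) ≤ E2_k c := by exact_mod_cast f2
    have hk' : (1 : ℝ) ≤ E2_k c' := by exact_mod_cast g2
    have hb : (E2_b c : ℝ) * n ≤ 281 * n := by
      have : (E2_b c : ℝ) ≤ 281 := by exact_mod_cast f4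
      gcongr
    have ha : (E2_a c : ℝ) * n ≤ 281 * n := by
      have : (E2_a c : ℝ) ≤ 281 := by exact_mod_cast (by omega : E2_a c ≤ 281)
      gcongr
    have o1 := E2_outer hC2 h hn c' ((E2_b c : ℝ) * n) (by positivity) hb
    have o2 := E2_outer hC2 h hn c' ((E2_a c : ℝ) * n) (by positivity) ha
    rw [E2_IF_scale hn0] at o1 o2
    have hNc : (E2_b c : ℝ) - E2_a c = E2_k c * E2_N c := by
      rw [← f1]
      push_cast
      ring
    have hNc' : (E2_b c' : ℝ) - E2_a c' = E2_k c' * E2_N c' := by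
      rw [← g1]
      push_cast
      ring
    rw [hNc'] at o1 o2
    have e1 : en (cl c').1 (cl c').2.1 (cl c').2.2 (cl c).1 (cl c).2.1 (cl c).2.2 =
        ((IF (E2_a c') (E2_b c') (E2_b c) - IF (E2_a c') (E2_b c') (E2_a c)) / E2_k c') / E2_k c -
          Real.log 4 * (E2_N c' * E2_N c) := by
      unfold en
      rw [l1, l2, l3, m1, m2, m3, hNc, hNc']
      field_simp
    rw [← Finset.sum_div, Finset.sum_sub_distrib, e1]
    have h2 := (abs_le.1 o1).1
    have h3 := (abs_le.1 o2).2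
    set S1 := ∑ j ∈ Finset.range (E2_N c' * n), ff ((E2_a c' * n + E2_k c' * j : ℕ) : ℝ) ((E2_b c : ℝ) * n)
    set S2 := ∑ j ∈ Finset.range (E2_N c' * n), ff ((E2_a c' * n + E2_k c' * j : ℕ) : ℝ) ((E2_a c : ℝ) * n)
    have h4 : ((n : ℝ) ^ 2 * (IF (E2_a c') (E2_b c') (E2_b c) - IF (E2_a c') (E2_b c') (E2_a c)) / E2_k c' +
        2 * (E2_k c * E2_N c) * E2_N c' * ((n : ℝ) ^ 2 * Real.log n)) - 176 * C2 * (n * Real.log n) ≤
        S1 - S2 := by
      have e2 : ((n : ℝ) ^ 2 * (IF (E2_a c') (E2_b c') (E2_b c) - IF (E2_a c') (E2_b c') (E2_a c)) / E2_k c' +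
        2 * (E2_k c * E2_N c) * E2_N c' * ((n : ℝ) ^ 2 * Real.log n)) =
        ((n : ℝ) ^ 2 * IF (E2_a c') (E2_b c') (E2_b c) +
          2 * (E2_b c) * (E2_k c' * E2_N c') * ((n : ℝ) ^ 2 * Real.log n)) / E2_k c' -
        ((n : ℝ) ^ 2 * IF (E2_a c') (E2_b c') (E2_a c) +
          2 * (E2_a c) * (E2_k c' * E2_N c') * ((n : ℝ) ^ 2 * Real.log n)) / E2_k c' := by
        rw [← hNc]
        field_simp
        ring
      rw [e2]
      linarith
    have hcn : 0 ≤ 176 * C2 * (n * Real.log n) := by positivity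
    rw [le_div_iff₀ (by linarith)]
    refine le_trans ?_ h4
    have e3 : ((n : ℝ) ^ 2 * (((IF (E2_a c') (E2_b c') (E2_b c) -
        IF (E2_a c') (E2_b c') (E2_a c)) / E2_k c') / E2_k c -
          Real.log 4 * (E2_N c' * E2_N c)) + (E2_N c' * E2_N c) * (Real.log 4 * (n : ℝ) ^ 2) +
        2 * (E2_N c' * E2_N c) * ((n : ℝ) ^ 2 * Real.log n) - 176 * C2 * (n * Real.log n)) * E2_k c =
        ((n : ℝ) ^ 2 * (IF (E2_a c') (E2_b c') (E2_b c) - IF (E2_a c') (E2_b c') (E2_a c)) / E2_k c' +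
        2 * (E2_k c * E2_N c) * E2_N c' * ((n : ℝ) ^ 2 * Real.log n)) -
        176 * C2 * (n * Real.log n) * E2_k c := by
      field_simp
      ring
    rw [e3]
    nlinarith
  have h5 : ∀ c' : Fin 5, ∑ j ∈ Finset.range (E2_N c' * n), E2_M n ((E2_a c' * n + E2_k c' * j : ℕ) : ℝ) =
      ∑ c : Fin 5, ∑ j ∈ Finset.range (E2_N c' * n),
        (ff ((E2_a c' * n + E2_k c' * j : ℕ) : ℝ) ((E2_b c : ℝ) * n) -
        ff ((E2_a c' * n + E2_k c' * j : ℕ) : ℝ) ((E2_a c : ℝ) * n)) / E2_k c := by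
    intro c'
    unfold E2_M
    rw [Finset.sum_comm]
  rw [Finset.sum_congr rfl fun c' _ => h5 c']
  have h6 := Finset.sum_le_sum fun c' (_ : c' ∈ Finset.univ) =>
    Finset.sum_le_sum fun c (_ : c ∈ (Finset.univ : Finset (Fin 5))) => h1 c' c
  refine le_trans (le_of_eq ?_) h6
  simp only [Finset.sum_sub_distrib, Finset.sum_add_distrib, ← Finset.mul_sum, ← Finset.sum_mul]
  unfold eN
  have hN : ∑ c : Fin 5, (E2_N c : ℝ) = 12 := by
    simp only [Fin.sum_univ_five, E2_N, Matrix.cons_val_zero, Matrix.cons_val_one, Matrix.cons_val]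
    norm_num
  rw [hN]
  simp only [Finset.sum_const, Finset.card_univ, Fintype.card_fin, nsmul_eq_mul]
  push_cast
  ring

theorem E2_non_of (hP1 : E2_P1st) (hP2 : E2_P2st) : ∃ C : ℝ, 0 < C ∧ ∀ n : ℕ, 2 ≤ n →
    eN * (n : ℝ) ^ 2 + 288 * (n : ℝ) ^ 2 * Real.log n - C * n * Real.log n ≤
    ∑ i ∈ Finset.Ico (11 * n) (mN n), ∑ j ∈ (Finset.Ico (11 * n) (mN n)).erase i,
      Real.log |xu n (nd n i) - xu n (nd n j)| := by
  obtain ⟨C1, hC1, h1⟩ := hP1
  obtain ⟨C2, hC2, h2⟩ := hP2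
  refine ⟨660 * C1 + 4400 * C2 + 12144, by positivity, fun n hn => ?_⟩
  have hn0 : (0:ℝ) < n := by exact_mod_cast (by omega : 0 < n)
  have hl := E2_log_pos hn
  set L : ℕ → ℕ → ℝ := fun i j => if j ≠ i then Real.log |xu n (nd n i) - xu n (nd n j)| else 0
    with hL
  have hLe : ∀ (s : Finset ℕ) (i : ℕ), ∑ j ∈ s.erase i, Real.log |xu n (nd n i) - xu n (nd n j)| =
      ∑ j ∈ s, L i j := by
    intro s i
    rw [hL, ← Finset.sum_filter]
    congr 1
    ext j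
    rw [Finset.mem_erase, Finset.mem_filter]
    tauto
  have hLb : ∀ i ∈ Finset.Ico (11 * n) (23 * n), ∀ j ∈ Finset.Ico (11 * n) (23 * n),
      L i j ≤ 22 * Real.log n := by
    intro i hi j hj
    rw [Finset.mem_Ico] at hi hj
    rw [hL]
    by_cases hij : j ≠ i
    · simp only [if_pos hij]
      exact E2_term hn (E2_nd_le hi.1 hi.2) (E2_nd_le hj.1 hj.2)
    · simp only [if_neg hij]
      positivity
  have hm : 11 * n ≤ mN n := by unfold mN; omega
  have hm2 : mN n ≤ 23 * n := by unfold mN; omega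
  -- the full sum
  have hfull : eN * (n : ℝ) ^ 2 + 288 * (n : ℝ) ^ 2 * Real.log n -
      (660 * C1 + 4400 * C2) * (n * Real.log n) ≤
      ∑ i ∈ Finset.Ico (11 * n) (23 * n), ∑ j ∈ Finset.Ico (11 * n) (23 * n), L i j := by
    have h3 : ∑ i ∈ Finset.Ico (11 * n) (23 * n),
        (E2_M n (nd n i) - 55 * C1 * Real.log n - 12 * n * Real.log 4) ≤
        ∑ i ∈ Finset.Ico (11 * n) (23 * n), ∑ j ∈ Finset.Ico (11 * n) (23 * n), L i j := by
      refine Finset.sum_le_sum fun i hi => ?_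
      rw [Finset.mem_Ico] at hi
      rw [← hLe]
      exact E2_inner hC1 h1 hn hi.1 hi.2
    refine le_trans ?_ h3
    rw [Finset.sum_sub_distrib, Finset.sum_sub_distrib, Finset.sum_const, Finset.sum_const,
      Nat.card_Ico, nsmul_eq_mul, nsmul_eq_mul, show 23 * n - 11 * n = 12 * n by omega]
    have h4 := E2_total hC2 h2 hn
    push_cast
    nlinarith
  -- the missing nodes
  have hsplit : ∑ i ∈ Finset.Ico (11 * n) (23 * n), ∑ j ∈ Finset.Ico (11 * n) (23 * n), L i j ≤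
      (∑ i ∈ Finset.Ico (11 * n) (mN n), ∑ j ∈ Finset.Ico (11 * n) (mN n), L i j) +
        12144 * (n * Real.log n) := by
    rw [← Finset.sum_Ico_consecutive _ hm hm2]
    have h5 : ∀ i ∈ Finset.Ico (11 * n) (mN n), ∑ j ∈ Finset.Ico (11 * n) (23 * n), L i j ≤
        ∑ j ∈ Finset.Ico (11 * n) (mN n), L i j + 506 * Real.log n := by
      intro i hi
      rw [← Finset.sum_Ico_consecutive _ hm hm2]
      have h6 : ∑ j ∈ Finset.Ico (mN n) (23 * n), L i j ≤ 23 * (22 * Real.log n) := by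
        refine E2_sum_le _ _ _ _ (by positivity) ?_ fun j hj => hLb i ?_ j ?_
        · rw [Nat.card_Ico]
          have : 23 * n - mN n ≤ 23 := by unfold mN; omega
          exact_mod_cast this
        · rw [Finset.mem_Ico] at hi ⊢
          omega
        · rw [Finset.mem_Ico] at hj ⊢
          omega
      linarith
    have h7 : ∑ i ∈ Finset.Ico (mN n) (23 * n), ∑ j ∈ Finset.Ico (11 * n) (23 * n), L i j ≤
        23 * (12 * n * (22 * Real.log n)) := by
      refine E2_sum_le _ _ _ _ (by positivity) ?_ fun i hi => ?_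
      · rw [Nat.card_Ico]
        have : 23 * n - mN n ≤ 23 := by unfold mN; omega
        exact_mod_cast this
      · refine E2_sum_le _ _ _ _ (by positivity) ?_ fun j hj => hLb i ?_ j hj
        · rw [Nat.card_Ico, show 23 * n - 11 * n = 12 * n by omega]
          push_cast
          rfl
        · rw [Finset.mem_Ico] at hi ⊢
          omega
    have h8 := Finset.sum_le_sum h5
    rw [Finset.sum_add_distrib] at h8
    have h9 : ∑ i ∈ Finset.Ico (11 * n) (mN n), 506 * Real.log n ≤ 12 * n * (506 * Real.log n) := by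
      refine E2_sum_le _ _ _ _ (by positivity) ?_ fun i _ => le_rfl
      rw [Nat.card_Ico]
      have : mN n - 11 * n ≤ 12 * n := by omega
      exact_mod_cast this
    linarith
  rw [Finset.sum_congr rfl fun i _ => hLe (Finset.Ico (11 * n) (mN n)) i]
  linarith

end

end Pool.Agent.H312R.ZA
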