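import Pool.Agent.H312R.ZA.Defs
import Pool.Agent.H312R.ZA.AE2
import Pool.Agent.H312R.ZA.AP12

/-! Energy of the saturated nodes (upper bound). -/

open Polynomial Pool.Agent.H337R2 Pool.Agent.H336R2.Z5 Filter Topology

namespace Pool.Agent.H312R.ZA

noncomputable section

namespace E1x

lemma odd_split (F : ℕ → ℝ) (a N : ℕ) : ∑ j ∈ Finset.range N, F (a + 1 + 2 * j) =
    ∑ j ∈ Finset.range (2 * N), F (a + j) - ∑ j ∈ Finset.range N, F (a + 2 * j) := by
  induction N with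
  | zero => simp
  | succ N ih =>
    rw [Finset.sum_range_succ, ih, show 2 * (N + 1) = 2 * N + 1 + 1 by ring, Finset.sum_range_succ,
      Finset.sum_range_succ, Finset.sum_range_succ, show a + 1 + 2 * N = a + (2 * N + 1) by ring]
    ring

lemma cells (n : ℕ) (F : ℕ → ℝ) : ∑ i ∈ Finset.range (11 * n), F (nd n i) =
    ∑ j ∈ Finset.range (8 * n), F (16 * n + 1 * j) - ∑ j ∈ Finset.range (4 * n), F (16 * n + 2 * j) +
      ∑ j ∈ Finset.range (7 * n), F (24 * n + 1 * j) := by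
  rw [show 11 * n = 4 * n + 7 * n by ring, Finset.sum_range_add]
  congr 1
  · have h1 := odd_split F (16 * n) (4 * n)
    rw [show 2 * (4 * n) = 8 * n by ring] at h1
    simp only [one_mul]
    rw [← h1]
    refine Finset.sum_congr rfl fun i hi => ?_
    rw [Finset.mem_range] at hi
    unfold nd
    rw [if_pos hi]
  · refine Finset.sum_congr rfl fun i hi => ?_
    rw [Finset.mem_range] at hi
    congr 1
    unfold nd
    split_ifs <;> omega

lemma nd_inj {n i j : ℕ} (hi : i < 11 * n) (hj : j < 11 * n) (h : nd n i = nd n j) : i = j := by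
  unfold nd at h
  split_ifs at h <;> omega

lemma nd_bd {n i : ℕ} (hi : i < 11 * n) : 16 * n < nd n i ∧ nd n i ≤ 31 * n := by
  unfold nd
  split_ifs <;> omega

lemma one_cell {C1 : ℝ} (hC1 : 0 < C1)
    (h : ∀ k N A u : ℕ, 1 ≤ k → k ≤ 86 → 1 ≤ u →
    |∑ j ∈ (Finset.range N).filter (fun j => A + k * j ≠ u), Real.log |(u : ℝ) ^ 2 - ((A : ℝ) + k * j) ^ 2|
        - (ff u ((A : ℝ) + k * N) - ff u A) / k| ≤ C1 * Real.log ((u : ℝ) + A + k * N + 2))
    {n : ℕ} (hn : 2 ≤ n) {u : ℕ} (hu1 : 1 ≤ u) (hu2 : u ≤ 31 * n) (a k N : ℕ) (hk : 1 ≤ k) (hk2 : k ≤ 2)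
    (ha : a ≤ 24) (hkN : k * N ≤ 8) :
    |∑ j ∈ Finset.range (N * n), (if a * n + k * j ≠ u then
        Real.log |xu n u - xu n ((a * n + k * j : ℕ) : ℝ)| else 0) -
      ((ff u (((a + k * N : ℕ) : ℝ) * n) - ff u ((a : ℝ) * n)) / k - N * n * Real.log 4)| ≤
      (11 * C1 + 2) * Real.log n := by
  have hl := E2_log_pos hn
  have h3 := h k (N * n) (a * n) u hk (by omega) hu1
  have hb : ((a * n : ℕ) : ℝ) + k * ((N * n : ℕ) : ℝ) = ((a + k * N : ℕ) : ℝ) * n := by
    push_cast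
    ring
  rw [hb] at h3
  have hlog : Real.log ((u : ℝ) + ((a * n : ℕ) : ℝ) + k * ((N * n : ℕ) : ℝ) + 2) ≤ 11 * Real.log n := by
    refine E2_log hn (by positivity) ?_
    have h4 : u + a * n + k * (N * n) + 2 ≤ 1024 * n := by
      have h5 : a * n ≤ 24 * n := Nat.mul_le_mul_right n ha
      have h6 : k * (N * n) ≤ 8 * n := by
        rw [← mul_assoc]
        exact Nat.mul_le_mul_right n hkN
      omega
    exact_mod_cast h4
  have h6 : C1 * Real.log ((u : ℝ) + ((a * n : ℕ) : ℝ) + k * ((N * n : ℕ) : ℝ) + 2) ≤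
      11 * C1 * Real.log n := by
    calc _ ≤ C1 * (11 * Real.log n) := mul_le_mul_of_nonneg_left hlog hC1.le
      _ = _ := by ring
  rw [← Finset.sum_filter]
  have h7 : ∑ j ∈ (Finset.range (N * n)).filter (fun j => a * n + k * j ≠ u),
      Real.log |xu n u - xu n ((a * n + k * j : ℕ) : ℝ)| =
      ∑ j ∈ (Finset.range (N * n)).filter (fun j => a * n + k * j ≠ u),
        Real.log |(u : ℝ) ^ 2 - (((a * n : ℕ) : ℝ) + k * j) ^ 2| -
      ((Finset.range (N * n)).filter (fun j => a * n + k * j ≠ u)).card * Real.log 4 := by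
    rw [← nsmul_eq_mul, ← Finset.sum_const, ← Finset.sum_sub_distrib]
    refine Finset.sum_congr rfl fun j hj => ?_
    rw [E2_xu (Finset.mem_filter.1 hj).2]
    push_cast
    rfl
  have h4 : 0 ≤ Real.log 4 := Real.log_nonneg (by norm_num)
  have h4' : Real.log 4 ≤ 2 * Real.log n := by
    have : Real.log 4 = 2 * Real.log 2 := by
      rw [show (4 : ℝ) = 2 ^ 2 by norm_num, Real.log_pow]; norm_num
    rw [this]
    have := Real.log_le_log (show (0 : ℝ) < 2 by norm_num) (show (2 : ℝ) ≤ n by exact_mod_cast hn)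
    linarith
  have hc1 : ((((Finset.range (N * n)).filter (fun j => a * n + k * j ≠ u)).card : ℕ) : ℝ) ≤ N * n := by
    have : ((Finset.range (N * n)).filter (fun j => a * n + k * j ≠ u)).card ≤
        N * n := (Finset.card_filter_le _ _).trans (by rw [Finset.card_range])
    exact_mod_cast this
  have hc2 : (N : ℝ) * n ≤ ((((Finset.range (N * n)).filter (fun j => a * n + k * j ≠ u)).card : ℕ) : ℝ) + 1 := by
    have e1 := Finset.card_filter_add_card_filter_not (s := Finset.range (N * n)) (fun j => a * n + k * j ≠ u)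
    have e2 : ((Finset.range (N * n)).filter (fun j => ¬ (a * n + k * j ≠ u))).card ≤ 1 := by
      rw [Finset.card_le_one]
      intro x hx y hy
      rw [Finset.mem_filter, not_not] at hx hy
      have e3 : k * x = k * y := by omega
      exact Nat.eq_of_mul_eq_mul_left (by omega) e3
    rw [Finset.card_range] at e1
    have e4 : N * n ≤ ((Finset.range (N * n)).filter (fun j => a * n + k * j ≠ u)).card + 1 := by omega
    exact_mod_cast e4
  have hff : ff (u : ℝ) ((a * n : ℕ) : ℝ) = ff u ((a : ℝ) * n) := by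
    rw [Nat.cast_mul]
  rw [hff] at h3
  rw [h7]
  set K : ℝ := ((((Finset.range (N * n)).filter (fun j => a * n + k * j ≠ u)).card : ℕ) : ℝ)
  have h8 := abs_le.1 (h3.trans h6)
  have g1 : K * Real.log 4 ≤ N * n * Real.log 4 := mul_le_mul_of_nonneg_right hc1 h4
  have g2 : N * n * Real.log 4 ≤ K * Real.log 4 + Real.log 4 := by
    have := mul_le_mul_of_nonneg_right hc2 h4
    linarith
  rw [abs_le]
  constructor <;> linarith [h8.1, h8.2]

lemma inner {C1 : ℝ} (hC1 : 0 < C1)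
    (h : ∀ k N A u : ℕ, 1 ≤ k → k ≤ 86 → 1 ≤ u →
    |∑ j ∈ (Finset.range N).filter (fun j => A + k * j ≠ u), Real.log |(u : ℝ) ^ 2 - ((A : ℝ) + k * j) ^ 2|
        - (ff u ((A : ℝ) + k * N) - ff u A) / k| ≤ C1 * Real.log ((u : ℝ) + A + k * N + 2))
    {n : ℕ} (hn : 2 ≤ n) {i : ℕ} (hi : i < 11 * n) :
    |∑ j ∈ (Finset.range (11 * n)).erase i, Real.log |xu n (nd n i) - xu n (nd n j)| -
      ((ff (nd n i) ((24 : ℝ) * n) - ff (nd n i) ((16 : ℝ) * n)) / 2 +
        (ff (nd n i) ((31 : ℝ) * n) - ff (nd n i) ((24 : ℝ) * n)) - 11 * n * Real.log 4)| ≤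
      3 * ((11 * C1 + 2) * Real.log n) := by
  set u := nd n i with hu
  have hub := nd_bd hi
  have h1 : (Finset.range (11 * n)).erase i = (Finset.range (11 * n)).filter (fun j => nd n j ≠ u) := by
    ext j
    rw [Finset.mem_erase, Finset.mem_filter, Finset.mem_range]
    constructor
    · rintro ⟨h2, h3⟩
      exact ⟨h3, fun h => h2 (nd_inj h3 hi h)⟩
    · rintro ⟨h2, h3⟩
      exact ⟨fun h4 => h3 (by rw [h4]), h2⟩
  rw [h1, Finset.sum_filter, cells n (fun v => if v ≠ u then Real.log |xu n u - xu n v| else 0)]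
  have k1 := one_cell hC1 h hn (u := u) (by omega) (by omega) 16 1 8 (by norm_num) (by norm_num) (by norm_num) (by norm_num)
  have k2 := one_cell hC1 h hn (u := u) (by omega) (by omega) 16 2 4 (by norm_num) (by norm_num) (by norm_num) (by norm_num)
  have k3 := one_cell hC1 h hn (u := u) (by omega) (by omega) 24 1 7 (by norm_num) (by norm_num) (by norm_num) (by norm_num)
  norm_num only [] at k1 k2 k3
  rw [abs_le] at k1 k2 k3 ⊢
  push_cast at k1 k2 k3 ⊢
  constructor <;> linarith [k1.1, k1.2, k2.1, k2.2, k3.1, k3.2]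

lemma outer1 {C2 : ℝ} (hC2 : 0 < C2)
    (h : ∀ (k N : ℕ) (a : ℝ), 1 ≤ k → k ≤ 86 →
    |∑ j ∈ Finset.range N, Psi (a + k * j) - (GG (a + k * N) - GG a) / k| ≤
      C2 * ((N : ℝ) + 1) * Real.log (|a| + k * N + 2))
    {n : ℕ} (hn : 2 ≤ n) (a k N : ℕ) (hk : 1 ≤ k) (hk2 : k ≤ 2) (ha : a ≤ 24) (hN8 : N ≤ 8) (hkN : k * N ≤ 8)
    (b : ℝ) (hb0 : 0 ≤ b) (hb : b ≤ 31) :
    |∑ j ∈ Finset.range (N * n), ff ((a * n + k * j : ℕ) : ℝ) (b * n) -
      ((n : ℝ) ^ 2 * IF a ((a + k * N : ℕ) : ℝ) b / k + 2 * b * N * ((n : ℝ) ^ 2 * Real.log n))| ≤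
      198 * C2 * (n * Real.log n) := by
  have hn0 : (0:ℝ) < n := by exact_mod_cast (by omega : 0 < n)
  have hl := E2_log_pos hn
  have ha' : (a : ℝ) ≤ 24 := by exact_mod_cast ha
  have ha0 : (0 : ℝ) ≤ (a : ℝ) := Nat.cast_nonneg _
  have hkN' : (k : ℝ) * (N : ℝ) ≤ 8 := by exact_mod_cast hkN
  have hN3 : (N : ℝ) ≤ 8 := by exact_mod_cast hN8
  have hn2 : (2 : ℝ) ≤ n := by exact_mod_cast hn
  have hk0 : (0 : ℝ) < k := by exact_mod_cast (by omega : 0 < k)
  have key : ∀ z : ℝ, |z| ≤ 55 * n → C2 * (((N * n : ℕ) : ℝ) + 1) *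
      Real.log (|z| + k * ((N * n : ℕ) : ℝ) + 2) ≤ 99 * C2 * (n * Real.log n) := by
    intro z hz
    have h1 : Real.log (|z| + k * ((N * n : ℕ) : ℝ) + 2) ≤ 11 * Real.log n := by
      refine E2_log hn (by positivity) ?_
      push_cast
      nlinarith
    have h2 : ((N * n : ℕ) : ℝ) + 1 ≤ 9 * n := by
      push_cast
      nlinarith
    calc _ ≤ C2 * (((N * n : ℕ) : ℝ) + 1) * (11 * Real.log n) :=
          mul_le_mul_of_nonneg_left h1 (by positivity)
      _ ≤ C2 * (9 * n) * (11 * Real.log n) := by gcongr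
      _ = _ := by ring
  have e1 := (h k (N * n) ((a : ℝ) * n + b * n) hk (by omega)).trans (key _ (by
    rw [abs_le]
    constructor <;> nlinarith))
  have e2 := (h k (N * n) ((a : ℝ) * n - b * n) hk (by omega)).trans (key _ (by
    rw [abs_le]
    constructor <;> nlinarith))
  have e3 : ∑ j ∈ Finset.range (N * n), ff ((a * n + k * j : ℕ) : ℝ) (b * n) =
      ∑ j ∈ Finset.range (N * n), Psi ((a : ℝ) * n + b * n + k * j) -
      ∑ j ∈ Finset.range (N * n), Psi ((a : ℝ) * n - b * n + k * j) := by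
    rw [← Finset.sum_sub_distrib]
    refine Finset.sum_congr rfl fun j _ => ?_
    unfold ff
    push_cast
    congr 2 <;> ring
  have e5 : IF (a * n) (((a + k * N : ℕ) : ℝ) * n) (b * n) / k =
      (n : ℝ) ^ 2 * IF a ((a + k * N : ℕ) : ℝ) b / k + 2 * b * N * ((n : ℝ) ^ 2 * Real.log n) := by
    rw [E2_IF_scale hn0]
    push_cast
    field_simp
    ring
  have e4 : IF (a * n) (((a + k * N : ℕ) : ℝ) * n) (b * n) / k =
      (GG ((a : ℝ) * n + b * n + k * ((N * n : ℕ) : ℝ)) - GG ((a : ℝ) * n + b * n)) / k -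
      (GG ((a : ℝ) * n - b * n + k * ((N * n : ℕ) : ℝ)) - GG ((a : ℝ) * n - b * n)) / k := by
    unfold IF
    push_cast
    rw [show ((a : ℝ) + k * N) * n + b * n = (a : ℝ) * n + b * n + k * (N * n) by ring,
      show ((a : ℝ) + k * N) * n - b * n = (a : ℝ) * n - b * n + k * (N * n) by ring]
    ring
  rw [← e5, e3, e4]
  rw [abs_le] at e1 e2 ⊢
  constructor <;> linarith [e1.1, e1.2, e2.1, e2.2]

def J (b : ℝ) : ℝ := IF 16 24 b / 2 + IF 24 31 b

lemma outer {C2 : ℝ} (hC2 : 0 < C2)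
    (h : ∀ (k N : ℕ) (a : ℝ), 1 ≤ k → k ≤ 86 →
    |∑ j ∈ Finset.range N, Psi (a + k * j) - (GG (a + k * N) - GG a) / k| ≤
      C2 * ((N : ℝ) + 1) * Real.log (|a| + k * N + 2))
    {n : ℕ} (hn : 2 ≤ n) (b : ℝ) (hb0 : 0 ≤ b) (hb : b ≤ 31) :
    |∑ i ∈ Finset.range (11 * n), ff (nd n i) (b * n) -
      ((n : ℝ) ^ 2 * J b + 22 * b * ((n : ℝ) ^ 2 * Real.log n))| ≤ 594 * C2 * (n * Real.log n) := by
  rw [cells n (fun v => ff v (b * n))]
  have k1 := outer1 hC2 h hn 16 1 8 (by norm_num) (by norm_num) (by norm_num) (by norm_num) (by norm_num) b hb0 hb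
  have k2 := outer1 hC2 h hn 16 2 4 (by norm_num) (by norm_num) (by norm_num) (by norm_num) (by norm_num) b hb0 hb
  have k3 := outer1 hC2 h hn 24 1 7 (by norm_num) (by norm_num) (by norm_num) (by norm_num) (by norm_num) b hb0 hb
  norm_num only [] at k1 k2 k3
  unfold J
  rw [abs_le] at k1 k2 k3 ⊢
  push_cast at k1 k2 k3 ⊢
  constructor <;> linarith [k1.1, k1.2, k2.1, k2.2, k3.1, k3.2]

lemma eS_eq : eS = 11 * (36 * Real.log 36 - 36 + 32 * Real.log 32 - 32 + 28 * Real.log 28 - 28)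
    - J 18 - J 16 - J 14 + (J 24 - J 16) / 2 + (J 31 - J 24) - 121 * Real.log 4 := by
  unfold eS iphi en J
  ring

lemma phi_scale {n : ℕ} (hn : 2 ≤ n) (u : ℕ) : (n : ℝ) * phi ((u : ℝ) / n) =
    n * (36 * Real.log 36 - 36 + 32 * Real.log 32 - 32 + 28 * Real.log 28 - 28) -
      ff u (18 * n) - ff u (16 * n) - ff u (14 * n) + 96 * n * Real.log n := by
  have hn0 : (0:ℝ) < n := by exact_mod_cast (by omega : 0 < n)
  have hs : ∀ b : ℝ, ff (u : ℝ) (b * n) = n * ff ((u : ℝ) / n) b + 2 * b * n * Real.log n := by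
    intro b
    have hP : ∀ z : ℝ, Psi (n * z) = n * Psi z + n * z * Real.log n := by
      intro z
      unfold Psi
      rcases eq_or_ne z 0 with rfl | hz
      · simp
      · rw [Real.log_mul hn0.ne' hz]
        ring
    unfold ff
    rw [show (u : ℝ) + b * n = n * (u / n + b) by field_simp, show (u : ℝ) - b * n = n * (u / n - b) by field_simp,
      hP, hP]
    ring
  rw [hs, hs, hs]
  unfold phi
  ring

end E1x

open E1x in
theorem E1_sat' : ∃ C : ℝ, 0 < C ∧ ∀ n : ℕ, 2 ≤ n →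
    ∑ i ∈ Finset.range (11 * n), (n * phi ((nd n i : ℝ) / n) +
      ∑ j ∈ (Finset.range (11 * n)).erase i, Real.log |xu n (nd n i) - xu n (nd n j)|) ≤
    eS * (n : ℝ) ^ 2 + 242 * (n : ℝ) ^ 2 * Real.log n + C * n * Real.log n := by
  obtain ⟨C1, hC1, h1⟩ := P1_logsum
  obtain ⟨C2, hC2, h2⟩ := P2_psisum
  refine ⟨33 * (11 * C1 + 2) + 6 * (594 * C2), by positivity, fun n hn => ?_⟩
  have hn0 : (0:ℝ) < n := by exact_mod_cast (by omega : 0 < n)
  have hl := E2_log_pos hn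
  have hin : ∀ i ∈ Finset.range (11 * n), n * phi ((nd n i : ℝ) / n) +
      ∑ j ∈ (Finset.range (11 * n)).erase i, Real.log |xu n (nd n i) - xu n (nd n j)| ≤
      (n * (36 * Real.log 36 - 36 + 32 * Real.log 32 - 32 + 28 * Real.log 28 - 28) + 96 * n * Real.log n
        - 11 * n * Real.log 4 + 3 * ((11 * C1 + 2) * Real.log n)) -
      ff (nd n i) (18 * n) - 3 / 2 * ff (nd n i) (16 * n) - ff (nd n i) (14 * n) -
        1 / 2 * ff (nd n i) (24 * n) + ff (nd n i) (31 * n) := by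
    intro i hi
    have h3 := (abs_le.1 (inner hC1 h1 hn (Finset.mem_range.1 hi))).2
    rw [phi_scale hn]
    linarith
  refine (Finset.sum_le_sum hin).trans ?_
  rw [Finset.sum_add_distrib, Finset.sum_sub_distrib, Finset.sum_sub_distrib, Finset.sum_sub_distrib,
    Finset.sum_sub_distrib, ← Finset.mul_sum, ← Finset.mul_sum, Finset.sum_const, Finset.card_range, nsmul_eq_mul]
  have o18 := abs_le.1 (outer hC2 h2 hn 18 (by norm_num) (by norm_num))
  have o16 := abs_le.1 (outer hC2 h2 hn 16 (by norm_num) (by norm_num))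
  have o14 := abs_le.1 (outer hC2 h2 hn 14 (by norm_num) (by norm_num))
  have o24 := abs_le.1 (outer hC2 h2 hn 24 (by norm_num) (by norm_num))
  have o31 := abs_le.1 (outer hC2 h2 hn 31 (by norm_num) (by norm_num))
  rw [eS_eq]
  have hcn : 0 ≤ C2 * (n * Real.log n) := by positivity
  push_cast
  have e1 : (11 * (36 * Real.log 36 - 36 + 32 * Real.log 32 - 32 + 28 * Real.log 28 - 28)
    - J 18 - J 16 - J 14 + (J 24 - J 16) / 2 + (J 31 - J 24) - 121 * Real.log 4) * (n : ℝ) ^ 2 +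
      242 * (n : ℝ) ^ 2 * Real.log n + (33 * (11 * C1 + 2) + 6 * (594 * C2)) * n * Real.log n =
    11 * n * (n * (36 * Real.log 36 - 36 + 32 * Real.log 32 - 32 + 28 * Real.log 28 - 28) + 96 * n * Real.log n
        - 11 * n * Real.log 4 + 3 * ((11 * C1 + 2) * Real.log n)) -
      ((n : ℝ) ^ 2 * J 18 + 22 * 18 * ((n : ℝ) ^ 2 * Real.log n)) -
      3 / 2 * ((n : ℝ) ^ 2 * J 16 + 22 * 16 * ((n : ℝ) ^ 2 * Real.log n)) -
      ((n : ℝ) ^ 2 * J 14 + 22 * 14 * ((n : ℝ) ^ 2 * Real.log n)) -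
      1 / 2 * ((n : ℝ) ^ 2 * J 24 + 22 * 24 * ((n : ℝ) ^ 2 * Real.log n)) +
      ((n : ℝ) ^ 2 * J 31 + 22 * 31 * ((n : ℝ) ^ 2 * Real.log n)) + 3564 * (C2 * (n * Real.log n)) := by ring
  rw [e1]
  linarith [o18.1, o16.1, o14.1, o24.1, o31.2]

end

end Pool.Agent.H312R.ZA
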