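import Pool.Agent.H312R.ZA.Defs

/-! Task AE3: the cross energies cancel. -/

open Polynomial Pool.Agent.H337R2 Pool.Agent.H336R2.Z5 Filter Topology

namespace Pool.Agent.H312R.ZA

noncomputable section

namespace AE3

theorem nd_mono {n : ℕ} (hn : 1 ≤ n) : StrictMono (nd n) := by
  refine strictMono_nat_of_lt_succ fun i => ?_
  unfold nd
  split_ifs <;> omega

theorem xu_ne {n : ℕ} (hn : 1 ≤ n) {i j : ℕ} (hij : i ≠ j) :
    xu n (nd n i) - xu n (nd n j) ≠ 0 := by
  intro h
  have h1 : ((nd n i : ℕ) : ℝ) ^ 2 = ((nd n j : ℕ) : ℝ) ^ 2 := by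
    unfold xu at h
    linarith
  have h2 : ((nd n i : ℕ) : ℝ) = ((nd n j : ℕ) : ℝ) :=
    (pow_left_inj₀ (Nat.cast_nonneg _) (Nat.cast_nonneg _) two_ne_zero).1 h1
  exact hij ((nd_mono hn).injective (by exact_mod_cast h2))

end AE3

/-- the cross energies cancel -/
theorem E3_cross {n : ℕ} (hn : 2 ≤ n) :
    ∑ i ∈ Finset.range (11 * n), Real.log (LL n (mN n) i) -
      ∑ i ∈ Finset.Ico (11 * n) (mN n), Real.log (LL n (mN n) i) =
    ∑ i ∈ Finset.range (11 * n), ∑ j ∈ (Finset.range (11 * n)).erase i, Real.log |xu n (nd n i) - xu n (nd n j)| -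
      ∑ i ∈ Finset.Ico (11 * n) (mN n), ∑ j ∈ (Finset.Ico (11 * n) (mN n)).erase i,
        Real.log |xu n (nd n i) - xu n (nd n j)| := by
  have hm : 11 * n ≤ mN n := by unfold mN; omega
  set a : ℕ → ℕ → ℝ := fun i j => Real.log |xu n (nd n i) - xu n (nd n j)| with ha
  have hsym : ∀ i j, a i j = a j i := fun i j => by
    simp only [ha]
    rw [abs_sub_comm]
  have hdisj : Disjoint (Finset.range (11 * n)) (Finset.Ico (11 * n) (mN n)) := by
    rw [Finset.disjoint_left]
    intro i h1 h2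
    rw [Finset.mem_range] at h1
    rw [Finset.mem_Ico] at h2
    omega
  have hun : Finset.range (mN n) = Finset.range (11 * n) ∪ Finset.Ico (11 * n) (mN n) := by
    ext i
    simp only [Finset.mem_range, Finset.mem_union, Finset.mem_Ico]
    omega
  have hlog : ∀ i, Real.log (LL n (mN n) i) = ∑ j ∈ (Finset.range (mN n)).erase i, a i j := by
    intro i
    unfold LL
    rw [Real.log_prod]
    intro j hj
    have : i ≠ j := fun h => (Finset.mem_erase.1 hj).1 h.symm
    exact abs_ne_zero.2 (AE3.xu_ne (by omega) this)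
  have h1 : ∀ i ∈ Finset.range (11 * n), Real.log (LL n (mN n) i) =
      ∑ j ∈ (Finset.range (11 * n)).erase i, a i j + ∑ j ∈ Finset.Ico (11 * n) (mN n), a i j := by
    intro i hi
    have hi' : i ∉ Finset.Ico (11 * n) (mN n) := Finset.disjoint_left.1 hdisj hi
    rw [hlog, hun, Finset.erase_union_distrib, Finset.erase_eq_of_notMem hi', Finset.sum_union]
    exact hdisj.mono_left (Finset.erase_subset _ _)
  have h2 : ∀ i ∈ Finset.Ico (11 * n) (mN n), Real.log (LL n (mN n) i) =
      ∑ j ∈ Finset.range (11 * n), a i j + ∑ j ∈ (Finset.Ico (11 * n) (mN n)).erase i, a i j := by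
    intro i hi
    have hi' : i ∉ Finset.range (11 * n) := Finset.disjoint_right.1 hdisj hi
    rw [hlog, hun, Finset.erase_union_distrib, Finset.erase_eq_of_notMem hi', Finset.sum_union]
    exact hdisj.mono_right (Finset.erase_subset _ _)
  rw [Finset.sum_congr rfl h1, Finset.sum_congr rfl h2, Finset.sum_add_distrib,
    Finset.sum_add_distrib]
  have h3 : ∑ i ∈ Finset.range (11 * n), ∑ j ∈ Finset.Ico (11 * n) (mN n), a i j =
      ∑ i ∈ Finset.Ico (11 * n) (mN n), ∑ j ∈ Finset.range (11 * n), a i j := by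
    rw [Finset.sum_comm]
    exact Finset.sum_congr rfl fun i _ => Finset.sum_congr rfl fun j _ => hsym _ _
  rw [h3]
  ring

end

end Pool.Agent.H312R.ZA
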