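import Pool.Agent.H312R.ZA.Defs
import Pool.Agent.H102R2.Z5.Fek

/-! Task AL1 (helper102). -/

open Polynomial Pool.Agent.H337R2

namespace Pool.Agent.H312R.ZA

noncomputable section

theorem L1_lagrange (N : ℚ[X] →ₗ[ℚ] ℚ) (m : ℕ) (x : ℕ → ℚ) (hx : Set.InjOn x (Finset.range m)) :
    |(Matrix.of fun i j : Fin m => N (lag m x i * lag m x j)).det| =
      |(Matrix.of fun i j : Fin m => N (X ^ (i.1 + j.1))).det| *
        ∏ i ∈ Finset.range m, ∏ j ∈ (Finset.range m).erase i, |x i - x j| := by
  have hinj : Function.Injective (fun i : Fin m => x i) := by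
    intro i j h
    have := hx (by simp) (by simp) h
    exact Fin.ext this
  have hlag : ∀ i : Fin m, lag m x i = Pool.Agent.H102R2.Z5.PL (fun i : Fin m => x i) i := by
    intro i
    unfold lag Pool.Agent.H102R2.Z5.PL
    symm
    refine Finset.prod_bij (fun (a : Fin m) _ => (a : ℕ)) ?_ ?_ ?_ ?_
    · intro a ha
      simp only [Finset.mem_erase, Finset.mem_univ, and_true] at ha
      simp only [Finset.mem_erase, Finset.mem_range]
      exact ⟨fun h => ha (Fin.ext h), a.2⟩
    · intro a _ b _ h
      exact Fin.ext h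
    · intro b hb
      simp only [Finset.mem_erase, Finset.mem_range] at hb
      refine ⟨⟨b, hb.2⟩, ?_, rfl⟩
      simp only [Finset.mem_erase, Finset.mem_univ, and_true]
      intro h
      exact hb.1 (by rw [← h])
    · intro a _
      rfl
  have h1 := Pool.Agent.H102R2.Z5.fekete_det_eq m N (fun i : Fin m => x i) hinj
  have h2 : (Matrix.of fun i j : Fin m => N (lag m x i * lag m x j)) =
      Matrix.of fun k l : Fin m => N (Pool.Agent.H102R2.Z5.PL (fun i : Fin m => x i) k *
        Pool.Agent.H102R2.Z5.PL (fun i : Fin m => x i) l) := by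
    ext i j
    rw [Matrix.of_apply, Matrix.of_apply, hlag i, hlag j]
  rw [h2, h1, abs_mul, mul_comm]
  congr 1
  rw [abs_of_nonneg (sq_nonneg _)]
  rw [← Pool.Agent.H102R2.Z5.prod_erase_eq_sq (fun i : Fin m => x i), Finset.abs_prod,
    Finset.prod_range]
  apply Finset.prod_congr rfl
  intro i _
  rw [Finset.abs_prod]
  refine Finset.prod_bij (fun (a : Fin m) _ => (a : ℕ)) ?_ ?_ ?_ ?_
  · intro a ha
    simp only [Finset.mem_erase, Finset.mem_univ, and_true] at ha
    simp only [Finset.mem_erase, Finset.mem_range]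
    exact ⟨fun h => ha (Fin.ext h), a.2⟩
  · intro a _ b _ h
    exact Fin.ext h
  · intro b hb
    simp only [Finset.mem_erase, Finset.mem_range] at hb
    refine ⟨⟨b, hb.2⟩, ?_, rfl⟩
    simp only [Finset.mem_erase, Finset.mem_univ, and_true]
    intro h
    exact hb.1 (by rw [← h])
  · intro a _
    rfl

end

end Pool.Agent.H312R.ZA
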