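import Pool.Agent.H312R.ZA.AL1
import Pool.Agent.H336R2.HD.A3

/-!
# AL2: bound of the Hankel determinant in the Lagrange basis (helper497)
-/

open Polynomial Pool.Agent.H337R2 Pool.Agent.H336R2.Z5 Filter Topology

namespace Pool.Agent.H312R.ZA

noncomputable section

lemma L2_natDegree_lag (m : ℕ) (x : ℕ → ℚ) {i : ℕ} (hi : i < m) : (lag m x i).natDegree = m - 1 := by
  unfold lag
  rw [Polynomial.natDegree_prod_of_monic _ _ (fun j _ => monic_X_sub_C _)]
  simp [Finset.card_erase_of_mem (Finset.mem_range.mpr hi)]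

lemma L2_entry (N : ℚ[X] →ₗ[ℚ] ℚ) (m : ℕ) (w y : ℕ → ℝ)
    (hN : ∀ Q : ℚ[X], Q.natDegree ≤ 2 * m - 2 → HasSum (fun s => w s * aeval (y s) Q) ((N Q : ℚ) : ℝ))
    (x : ℕ → ℚ) (B : ℕ → ℝ)
    (hB : ∀ i < m, ∀ T : Finset ℕ, ∑ s ∈ T, |w s| * (aeval (y s) (lag m x i)) ^ 2 ≤ B i)
    (i j : ℕ) (hi : i < m) (hj : j < m) :
    ((N (lag m x i * lag m x j) : ℚ) : ℝ) ^ 2 ≤ B i * B j := by
  have hd : (lag m x i * lag m x j).natDegree ≤ 2 * m - 2 := by
    refine Polynomial.natDegree_mul_le.trans ?_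
    rw [L2_natDegree_lag m x hi, L2_natDegree_lag m x hj]
    omega
  have hs := hN _ hd
  have Bi0 : 0 ≤ B i := by simpa using hB i hi ∅
  have key : ∀ T : Finset ℕ, (∑ s ∈ T, w s * aeval (y s) (lag m x i * lag m x j)) ^ 2 ≤ B i * B j := by
    intro T
    have cs := Finset.sum_sq_le_sum_mul_sum_of_sq_le_mul T
      (r := fun s => w s * aeval (y s) (lag m x i * lag m x j))
      (f := fun s => |w s| * (aeval (y s) (lag m x i)) ^ 2)
      (g := fun s => |w s| * (aeval (y s) (lag m x j)) ^ 2)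
      (fun s _ => by positivity) (fun s _ => by positivity)
      (fun s _ => le_of_eq (by
        rw [map_mul]
        have : |w s| * |w s| = w s * w s := abs_mul_abs_self _
        linear_combination (-(aeval (y s) (lag m x i)) ^ 2 * (aeval (y s) (lag m x j)) ^ 2) * this))
    refine cs.trans ?_
    exact mul_le_mul (hB i hi T) (hB j hj T) (Finset.sum_nonneg fun s _ => by positivity) Bi0
  have ht : Tendsto (fun T : Finset ℕ => (∑ s ∈ T, w s * aeval (y s) (lag m x i * lag m x j)) ^ 2) atTop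
      (𝓝 (((N (lag m x i * lag m x j) : ℚ) : ℝ) ^ 2)) := by
    have h1 : Tendsto (fun T : Finset ℕ => ∑ s ∈ T, w s * aeval (y s) (lag m x i * lag m x j)) atTop
      (𝓝 ((N (lag m x i * lag m x j) : ℚ) : ℝ)) := hs
    exact h1.pow 2
  exact le_of_tendsto' ht key

theorem L2_det_le (N : ℚ[X] →ₗ[ℚ] ℚ) (m : ℕ) (w y : ℕ → ℝ)
    (hN : ∀ Q : ℚ[X], Q.natDegree ≤ 2 * m - 2 → HasSum (fun s => w s * aeval (y s) Q) ((N Q : ℚ) : ℝ))
    (x : ℕ → ℚ) (hx : Set.InjOn x (Finset.range m)) (B : ℕ → ℝ)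
    (hB : ∀ i < m, ∀ T : Finset ℕ, ∑ s ∈ T, |w s| * (aeval (y s) (lag m x i)) ^ 2 ≤ B i) :
    |(((Matrix.of fun i j : Fin m => N (X ^ (i.1 + j.1))).det : ℚ) : ℝ)| *
        ∏ i ∈ Finset.range m, ∏ j ∈ (Finset.range m).erase i, |((x i - x j : ℚ) : ℝ)| ≤
      (m.factorial : ℝ) * ∏ i ∈ Finset.range m, B i := by
  have L1 := L1_lagrange N m x hx
  have L1' : |(((Matrix.of fun i j : Fin m => N (lag m x i * lag m x j)).det : ℚ) : ℝ)| =
      |(((Matrix.of fun i j : Fin m => N (X ^ (i.1 + j.1))).det : ℚ) : ℝ)| *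
        ∏ i ∈ Finset.range m, ∏ j ∈ (Finset.range m).erase i, |((x i - x j : ℚ) : ℝ)| := by
    have := congrArg (fun q : ℚ => (q : ℝ)) L1
    simp only [Rat.cast_mul, Rat.cast_abs, Rat.cast_prod] at this
    exact this
  rw [← L1']
  have hdet : (((Matrix.of fun i j : Fin m => N (lag m x i * lag m x j)).det : ℚ) : ℝ) =
      (Matrix.of fun i j : Fin m => ((N (lag m x i * lag m x j) : ℚ) : ℝ)).det := by
    have := RingHom.map_det (Rat.castHom ℝ) (Matrix.of fun i j : Fin m => N (lag m x i * lag m x j))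
    rw [Rat.coe_castHom] at this
    rw [this]
    rfl
  rw [hdet]
  have B0 : ∀ i < m, 0 ≤ B i := fun i hi => by simpa using hB i hi ∅
  have hA := Pool.Agent.H336R2.HD.A4_abs_det m
    (Matrix.of fun i j : Fin m => ((N (lag m x i * lag m x j) : ℚ) : ℝ)) (fun i => max (B i) 0)
    (fun i => le_max_right _ _) (fun i j => by
      rw [sq_abs, Matrix.of_apply, max_eq_left (B0 i i.2), max_eq_left (B0 j j.2)]
      exact L2_entry N m w y hN x B hB i j i.2 j.2)
  refine hA.trans (le_of_eq ?_)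
  congr 1
  refine Finset.prod_congr rfl fun i hi => ?_
  exact max_eq_left (B0 i (Finset.mem_range.mp hi))

end

end Pool.Agent.H312R.ZA
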