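import Pool.Agent.H312R.ZA.Defs

/-!
# The nodes (task AN of the archimedean part of `ζ(5)`)
-/

open Polynomial Pool.Agent.H337R2 Pool.Agent.H336R2.Z5

namespace Pool.Agent.H312R.ZA

noncomputable section

theorem N1_mono {n : ℕ} (hn : 1 ≤ n) : StrictMono (nd n) := by
  refine strictMono_nat_of_lt_succ fun i => ?_
  unfold nd
  split_ifs <;> omega

theorem N2_lower {n : ℕ} (hn : 1 ≤ n) (i : ℕ) : 16 * n < nd n i := by
  unfold nd
  split_ifs <;> omega

theorem N3_upper {n : ℕ} (hn : 2 ≤ n) {i : ℕ} (hi : i < mN n) : nd n i < 281 * n := by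
  unfold mN at hi
  unfold nd
  split_ifs <;> omega

theorem N4_cover {n : ℕ} (hn : 2 ≤ n) (s : ℕ) (hs : us n s < 31 * n) (hw : Wt n s ≠ 0) :
    ∃ i < 11 * n, nd n i = us n s := by
  unfold us at hs ⊢
  by_cases hlt : 16 * n + 1 + s < 24 * n
  · -- then `s` is even
    have he : Even s := by
      by_contra hne
      apply hw
      unfold Wt
      rw [if_neg hne, if_neg (by omega), zero_mul]
    obtain ⟨a, ha⟩ := he
    refine ⟨a, by omega, ?_⟩
    unfold nd
    rw [if_pos (by omega)]
    omega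
  · refine ⟨s + 1 - 4 * n, by omega, ?_⟩
    unfold nd
    rw [if_neg (by omega), if_pos (by omega)]
    omega

theorem N5_xr (n s : ℕ) : xr n (tau n s) = xu n (us n s) := by
  unfold xr tau xu us
  push_cast
  ring

end

end Pool.Agent.H312R.ZA
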