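import Pool.Agent.H312R.ZA.Defs
import Pool.Agent.H312R.ZA.AN

/-! Task AM1: bound for the summation points which are not nodes. -/

open Polynomial Pool.Agent.H337R2 Pool.Agent.H336R2.Z5 Filter Topology

namespace Pool.Agent.H312R.ZA

noncomputable section

namespace AM1

/-- statement of `W2_weight` -/
def SW2 : Prop := ∃ (C : ℝ) (K : ℕ), 0 < C ∧ ∀ n : ℕ, 1 ≤ n → ∀ s : ℕ, us n s ≤ 700 * n →
    |Wt n s| ≤ C * (n : ℝ) ^ K * Real.exp (n * phi ((us n s : ℝ) / n))

/-- statement of `W3_far` -/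
def SW3 : Prop := ∃ (C : ℝ) (K : ℕ), 0 < C ∧ ∀ n : ℕ, 2 ≤ n → ∀ s : ℕ, 700 * n < us n s →
    |Wt n s| * PiM n (mN n) (us n s) ^ 2 ≤
      C * (n : ℝ) ^ K * Real.exp (297 / 2 * n + 92 * n * Real.log n)

/-- statement of `U1_nodes` -/
def SU1 : Prop := ∃ C : ℝ, 0 < C ∧ ∀ n : ℕ, 2 ≤ n → ∀ u : ℕ, 16 * n < u → u ≤ 700 * n →
    |∑ j ∈ (Finset.range (mN n)).filter (fun j => nd n j ≠ u), Real.log |xu n u - xu n (nd n j)|
        - (n * UU ((u : ℝ) / n) + 46 * n * Real.log n)| ≤ C * Real.log n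

/-- statement of `V1_upper` -/
def SV1 : Prop := ∀ v : ℝ, 31 ≤ v → v ≤ 700 → VV v ≤ 297 / 2

/-- statement of `M1_out` -/
def SM1 : Prop := ∃ (C : ℝ) (K : ℕ), 0 < C ∧ ∀ n : ℕ, 2 ≤ n → ∀ s : ℕ,
    (∀ i < mN n, nd n i ≠ us n s) →
    |Wt n s| * PiM n (mN n) (us n s) ^ 2 ≤ C * (n : ℝ) ^ K * Real.exp (297 / 2 * n + 92 * n * Real.log n)

theorem xu_ne {n u w : ℕ} (h : w ≠ u) : xu n u - xu n w ≠ 0 := by
  unfold xu
  intro h0
  apply h
  have h1 : (u : ℝ) ^ 2 = (w : ℝ) ^ 2 := by linarith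
  have h2 : (u : ℝ) = w := by
    have := abs_eq_abs.mpr (sq_eq_sq_iff_eq_or_eq_neg.mp h1)
    rwa [abs_of_nonneg (Nat.cast_nonneg u), abs_of_nonneg (Nat.cast_nonneg w)] at this
  exact_mod_cast h2.symm

theorem PiM_eq {n m u : ℕ} (h : ∀ i < m, nd n i ≠ u) :
    PiM n m u = Real.exp (∑ j ∈ (Finset.range m).filter (fun j => nd n j ≠ u),
      Real.log |xu n u - xu n (nd n j)|) := by
  have hf : (Finset.range m).filter (fun j => nd n j ≠ u) = Finset.range m :=
    Finset.filter_true_of_mem fun j hj => h j (Finset.mem_range.mp hj)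
  rw [hf, Real.exp_sum]
  unfold PiM
  apply Finset.prod_congr rfl
  intro j hj
  rw [Real.exp_log (abs_pos.mpr (xu_ne (h j (Finset.mem_range.mp hj))))]

theorem main (hW2 : SW2) (hW3 : SW3) (hU1 : SU1) (hV1 : SV1) : SM1 := by
  obtain ⟨C1, K1, hC1, h1⟩ := hW2
  obtain ⟨C3, K3, hC3, h3⟩ := hW3
  obtain ⟨C2, hC2, h2⟩ := hU1
  obtain ⟨K2, hK2⟩ := exists_nat_ge (2 * C2)
  refine ⟨C1 + C3, K1 + K2 + K3, by positivity, ?_⟩
  intro n hn s hs
  have hn1 : (1 : ℝ) ≤ n := by exact_mod_cast (by omega : 1 ≤ n)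
  have hn0 : (0 : ℝ) < n := by linarith
  have hlog : 0 ≤ Real.log n := Real.log_nonneg hn1
  have hE : 0 < Real.exp (297 / 2 * n + 92 * n * Real.log n) := Real.exp_pos _
  have hpw : ∀ a b : ℕ, a ≤ b → (n : ℝ) ^ a ≤ (n : ℝ) ^ b := fun a b h => pow_le_pow_right₀ hn1 h
  have hu16 : 16 * n < us n s := by unfold us; omega
  by_cases hw : Wt n s = 0
  · rw [hw, abs_zero, zero_mul]; positivity
  rcases lt_or_ge (us n s) (31 * n) with hlt | hge
  · obtain ⟨i, hi, hie⟩ := N4_cover hn s hlt hw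
    exact absurd hie (hs i (by unfold mN; omega))
  rcases lt_or_ge (700 * n) (us n s) with hfar | hnear
  · refine (h3 n hn s hfar).trans ?_
    apply mul_le_mul_of_nonneg_right _ hE.le
    apply mul_le_mul (by linarith) (hpw _ _ (by omega)) (by positivity) (by positivity)
  -- the middle range
  set v : ℝ := (us n s : ℝ) / n with hv
  have hv31 : 31 ≤ v := by
    rw [hv, le_div_iff₀ hn0]; exact_mod_cast hge
  have hv700 : v ≤ 700 := by
    rw [hv, div_le_iff₀ hn0]; exact_mod_cast hnear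
  have hV := hV1 v hv31 hv700
  have hWb := h1 n (by omega) s hnear
  have hUb := (abs_le.mp (h2 n hn (us n s) hu16 hnear)).2
  have hP := PiM_eq hs
  set Sg : ℝ := ∑ j ∈ (Finset.range (mN n)).filter (fun j => nd n j ≠ us n s),
      Real.log |xu n (us n s) - xu n (nd n j)| with hSg
  have hP2 : PiM n (mN n) (us n s) ^ 2 = Real.exp (2 * Sg) := by
    rw [hP, ← Real.exp_nat_mul]; norm_num
  have hSg2 : 2 * Sg ≤ 2 * (n * UU v) + 92 * n * Real.log n + 2 * C2 * Real.log n := by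
    have : Sg - (n * UU v + 46 * n * Real.log n) ≤ C2 * Real.log n := hUb
    linarith
  have hnK : Real.exp (2 * C2 * Real.log n) ≤ (n : ℝ) ^ K2 := by
    have e : (n : ℝ) ^ K2 = Real.exp (K2 * Real.log n) := by
      rw [Real.exp_nat_mul, Real.exp_log hn0]
    rw [e]
    exact Real.exp_le_exp.mpr (mul_le_mul_of_nonneg_right hK2 hlog)
  calc |Wt n s| * PiM n (mN n) (us n s) ^ 2
      ≤ (C1 * (n : ℝ) ^ K1 * Real.exp (n * phi v)) *
          Real.exp (2 * (n * UU v) + 92 * n * Real.log n + 2 * C2 * Real.log n) := by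
        rw [hP2]
        exact mul_le_mul hWb (Real.exp_le_exp.mpr hSg2) (Real.exp_pos _).le (by positivity)
    _ = C1 * (n : ℝ) ^ K1 * Real.exp (2 * C2 * Real.log n) *
          Real.exp (n * VV v + 92 * n * Real.log n) := by
        have e1 : 2 * ((n : ℝ) * UU v) + 92 * n * Real.log n + 2 * C2 * Real.log n + n * phi v =
            2 * C2 * Real.log n + (n * VV v + 92 * n * Real.log n) := by
          unfold VV; ring
        have e2 : Real.exp (n * phi v) *
            Real.exp (2 * (n * UU v) + 92 * n * Real.log n + 2 * C2 * Real.log n) =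
            Real.exp (2 * C2 * Real.log n) * Real.exp (n * VV v + 92 * n * Real.log n) := by
          rw [← Real.exp_add, ← Real.exp_add, ← e1]; congr 1; ring
        calc _ = C1 * (n : ℝ) ^ K1 * (Real.exp (n * phi v) *
            Real.exp (2 * (n * UU v) + 92 * n * Real.log n + 2 * C2 * Real.log n)) := by ring
          _ = _ := by rw [e2]; ring
    _ ≤ C1 * (n : ℝ) ^ K1 * (n : ℝ) ^ K2 * Real.exp (297 / 2 * n + 92 * n * Real.log n) := by
        apply mul_le_mul
        · exact mul_le_mul_of_nonneg_left hnK (by positivity)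
        · apply Real.exp_le_exp.mpr
          have : (n : ℝ) * VV v ≤ n * (297 / 2) := mul_le_mul_of_nonneg_left hV hn0.le
          linarith
        · exact (Real.exp_pos _).le
        · positivity
    _ ≤ (C1 + C3) * (n : ℝ) ^ (K1 + K2 + K3) * Real.exp (297 / 2 * n + 92 * n * Real.log n) := by
        apply mul_le_mul_of_nonneg_right _ hE.le
        rw [mul_assoc, ← pow_add]
        exact mul_le_mul (by linarith) (hpw _ _ (by omega)) (by positivity) (by positivity)

end AM1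

end

end Pool.Agent.H312R.ZA
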