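import Pool.Agent.H312R.ZA.Defs

open Polynomial Pool.Agent.H337R2 Pool.Agent.H336R2.Z5 Filter Topology

namespace Pool.Agent.H312R.ZA

noncomputable section

private theorem AN6_lower {n : ℕ} (hn : 1 ≤ n) (i : ℕ) : 16 * n < nd n i := by
  unfold nd
  split_ifs <;> omega

private theorem AN6_xr (n s : ℕ) : xr n (tau n s) = xu n (us n s) := by
  unfold xr tau xu us
  push_cast
  ring

private theorem AN6_xq (n u : ℕ) : ((xq n u : ℚ) : ℝ) = xu n u := by
  unfold xq xu
  push_cast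
  ring

private theorem AN6_sum (N : ℕ) : ∑ j ∈ Finset.range N, 1 / ((j : ℝ) + 1) ^ 2 ≤ 2 - 2 / ((N : ℝ) + 1) := by
  induction N with
  | zero => simp
  | succ N ih =>
    rw [Finset.sum_range_succ]
    have h1 : 1 / ((N : ℝ) + 1) ^ 2 ≤ 2 / ((N : ℝ) + 1) - 2 / ((N : ℝ) + 1 + 1) := by
      rw [div_sub_div _ _ (by positivity) (by positivity), div_le_div_iff₀ (by positivity) (by positivity)]
      nlinarith [(Nat.cast_nonneg N : (0:ℝ) ≤ N), sq_nonneg ((N : ℝ)), mul_nonneg (Nat.cast_nonneg N : (0:ℝ) ≤ N) (sq_nonneg ((N : ℝ)))]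
    push_cast
    linarith

private theorem AN6_sum2 (N : ℕ) : ∑ j ∈ Finset.range N, 1 / ((j : ℝ) + 1) ^ 2 ≤ 2 := by
  have h1 := AN6_sum N
  have h2 : 0 ≤ 2 / ((N : ℝ) + 1) := by positivity
  linarith

private theorem AN6_sum3 (a : ℕ) (T : Finset ℕ) :
    ∑ s ∈ T.erase a, 1 / ((s : ℝ) - a) ^ 2 ≤ 4 := by
  obtain ⟨N, hN⟩ := T.bddAbove
  have hsub : T.erase a ⊆ Finset.range a ∪ Finset.Ico (a + 1) (a + 1 + (N + 1)) := by
    intro s hs
    rw [Finset.mem_erase] at hs
    have h1 := hN (Finset.mem_coe.2 hs.2)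
    rw [Finset.mem_union, Finset.mem_range, Finset.mem_Ico]
    omega
  calc ∑ s ∈ T.erase a, 1 / ((s : ℝ) - a) ^ 2
      ≤ ∑ s ∈ Finset.range a ∪ Finset.Ico (a + 1) (a + 1 + (N + 1)), 1 / ((s : ℝ) - a) ^ 2 :=
        Finset.sum_le_sum_of_subset_of_nonneg hsub fun _ _ _ => by positivity
    _ ≤ ∑ s ∈ Finset.range a, 1 / ((s : ℝ) - a) ^ 2 +
        ∑ s ∈ Finset.Ico (a + 1) (a + 1 + (N + 1)), 1 / ((s : ℝ) - a) ^ 2 := by
        rw [← Finset.sum_union_inter]
        exact le_add_of_nonneg_right (Finset.sum_nonneg fun _ _ => by positivity)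
    _ ≤ 2 + 2 := by
        refine add_le_add ?_ ?_
        · rw [← Finset.sum_range_reflect]
          refine le_trans (le_of_eq ?_) (AN6_sum2 a)
          refine Finset.sum_congr rfl fun j hj => ?_
          rw [Finset.mem_range] at hj
          have : ((a - 1 - j : ℕ) : ℝ) = (a : ℝ) - 1 - j := by
            rw [Nat.cast_sub (by omega), Nat.cast_sub (by omega)]; simp
          rw [this]
          congr 1
          ring
        · rw [Finset.sum_Ico_eq_sum_range]
          have h : a + 1 + (N + 1) - (a + 1) = N + 1 := by omega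
          rw [h]
          refine le_trans (le_of_eq ?_) (AN6_sum2 (N + 1))
          refine Finset.sum_congr rfl fun j _ => ?_
          push_cast
          congr 1
          ring
    _ = 4 := by norm_num

private theorem AN6_alg {w L d K MM : ℝ} (hw : 0 ≤ w) (hK : 0 < K) (hlb : K ≤ d ^ 2)
    (h1 : w * (d * L) ^ 2 ≤ MM) : w * L ^ 2 ≤ MM / K := by
  rw [le_div_iff₀ hK]
  have h2 : w * L ^ 2 * K ≤ w * L ^ 2 * d ^ 2 := mul_le_mul_of_nonneg_left hlb (by positivity)
  have h3 : w * L ^ 2 * d ^ 2 = w * (d * L) ^ 2 := by ring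
  linarith

private theorem AN6_lb {n : ℕ} {u v : ℕ} (h : 32 * n ≤ u + v) :
    64 * (n : ℝ) ^ 2 * ((u : ℝ) - v) ^ 2 ≤ |xu n u - xu n v| ^ 2 := by
  have hd : xu n u - xu n v = ((u : ℝ) - v) * ((u : ℝ) + v) / 4 := by
    unfold xu
    ring
  have hsum : (32 : ℝ) * n ≤ (u : ℝ) + v := by exact_mod_cast h
  have h3 : (32 * (n : ℝ)) ^ 2 ≤ ((u : ℝ) + v) ^ 2 := pow_le_pow_left₀ (by positivity) hsum 2
  have h4 := mul_le_mul_of_nonneg_left h3 (sq_nonneg ((u : ℝ) - v))
  rw [sq_abs, hd]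
  nlinarith

/-- row sums -/
theorem N6_rowsum {n : ℕ} (hn : 2 ≤ n) (MM : ℝ) (hM0 : 0 ≤ MM)
    (hM : ∀ s, (∀ i < mN n, nd n i ≠ us n s) → |Wt n s| * PiM n (mN n) (us n s) ^ 2 ≤ MM)
    {i : ℕ} (hi : i < mN n) (T : Finset ℕ) :
    ∑ s ∈ T, |Wt n s| * (aeval (xr n (tau n s)) (lag (mN n) (fun j => xq n (nd n j)) i)) ^ 2 ≤
      |Wt n (nd n i - 16 * n - 1)| * LL n (mN n) i ^ 2 + MM := by
  have hlow := AN6_lower (by omega : 1 ≤ n) i
  set m := mN n with hm
  set a := nd n i - 16 * n - 1 with ha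
  have hua : us n a = nd n i := by unfold us; omega
  have hval : ∀ s, (aeval (xr n (tau n s)) (lag m (fun j => xq n (nd n j)) i)) =
      ∏ j ∈ (Finset.range m).erase i, (xu n (us n s) - xu n (nd n j)) := by
    intro s
    unfold lag
    rw [map_prod]
    refine Finset.prod_congr rfl fun j _ => ?_
    rw [map_sub, aeval_X, aeval_C, AN6_xr, eq_ratCast, AN6_xq]
  have hsq : ∀ s, (aeval (xr n (tau n s)) (lag m (fun j => xq n (nd n j)) i)) ^ 2 =
      (∏ j ∈ (Finset.range m).erase i, |xu n (us n s) - xu n (nd n j)|) ^ 2 := by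
    intro s
    rw [hval, ← sq_abs, Finset.abs_prod]
  have hterm0 : |Wt n a| * (aeval (xr n (tau n a)) (lag m (fun j => xq n (nd n j)) i)) ^ 2 =
      |Wt n a| * LL n m i ^ 2 := by
    rw [hsq, hua]
    rfl
  have hterm : ∀ s, s ≠ a →
      |Wt n s| * (aeval (xr n (tau n s)) (lag m (fun j => xq n (nd n j)) i)) ^ 2 ≤
        MM / (64 * (n : ℝ) ^ 2) * (1 / ((s : ℝ) - a) ^ 2) := by
    intro s hs
    have hrhs : 0 ≤ MM / (64 * (n : ℝ) ^ 2) * (1 / ((s : ℝ) - a) ^ 2) := by positivity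
    by_cases hex : ∃ j < m, nd n j = us n s
    · obtain ⟨j, hj, hje⟩ := hex
      have hji : j ≠ i := by
        rintro rfl
        apply hs
        have : us n s = us n a := by rw [hua, hje]
        unfold us at this
        omega
      have hz : (∏ j ∈ (Finset.range m).erase i, |xu n (us n s) - xu n (nd n j)|) = 0 := by
        refine Finset.prod_eq_zero (Finset.mem_erase.2 ⟨hji, Finset.mem_range.2 hj⟩) ?_
        rw [hje]
        simp
      rw [hsq, hz]
      simpa using hrhs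
    · push Not at hex
      have h1 := hM s hex
      have h2 : PiM n m (us n s) = |xu n (us n s) - xu n (nd n i)| *
          ∏ j ∈ (Finset.range m).erase i, |xu n (us n s) - xu n (nd n j)| := by
        unfold PiM
        rw [Finset.mul_prod_erase _ (fun j => |xu n (us n s) - xu n (nd n j)|)
          (Finset.mem_range.2 hi)]
      set L := ∏ j ∈ (Finset.range m).erase i, |xu n (us n s) - xu n (nd n j)| with hL
      rw [h2] at h1
      rw [hsq]
      have hsum : 32 * n ≤ us n s + us n a := by unfold us; omega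
      have hne : (s : ℝ) - a ≠ 0 := sub_ne_zero.2 (by exact_mod_cast hs)
      have hnn : (0 : ℝ) < n := by exact_mod_cast (by omega : 0 < n)
      have hlb := AN6_lb hsum
      rw [hua] at hlb
      have hus : ((us n s : ℕ) : ℝ) - ((nd n i : ℕ) : ℝ) = (s : ℝ) - a := by
        rw [← hua]; unfold us; push_cast; ring
      rw [hus] at hlb
      have hpos : 0 < 64 * (n : ℝ) ^ 2 * ((s : ℝ) - a) ^ 2 := by positivity
      refine (AN6_alg (abs_nonneg (Wt n s)) hpos hlb h1).trans (le_of_eq ?_)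
      rw [div_mul_div_comm, mul_one]
  have hnn : (2 : ℝ) ≤ n := by exact_mod_cast hn
  have hrest : ∑ s ∈ T.erase a,
      |Wt n s| * (aeval (xr n (tau n s)) (lag m (fun j => xq n (nd n j)) i)) ^ 2 ≤ MM := by
    calc ∑ s ∈ T.erase a,
        |Wt n s| * (aeval (xr n (tau n s)) (lag m (fun j => xq n (nd n j)) i)) ^ 2
        ≤ ∑ s ∈ T.erase a, MM / (64 * (n : ℝ) ^ 2) * (1 / ((s : ℝ) - a) ^ 2) :=
          Finset.sum_le_sum fun s hs => hterm s (Finset.mem_erase.1 hs).1
      _ = MM / (64 * (n : ℝ) ^ 2) * ∑ s ∈ T.erase a, 1 / ((s : ℝ) - a) ^ 2 := by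
          rw [Finset.mul_sum]
      _ ≤ MM / (64 * (n : ℝ) ^ 2) * 4 :=
          mul_le_mul_of_nonneg_left (AN6_sum3 a T) (by positivity)
      _ ≤ MM := by
          rw [div_mul_eq_mul_div, div_le_iff₀ (by positivity)]
          have h4 : (4 : ℝ) ≤ 64 * (n : ℝ) ^ 2 := by nlinarith
          exact mul_le_mul_of_nonneg_left h4 hM0
  by_cases haT : a ∈ T
  · rw [← Finset.add_sum_erase T _ haT, hterm0]
    linarith
  · rw [← Finset.erase_eq_of_notMem haT]
    have : 0 ≤ |Wt n a| * LL n m i ^ 2 := by positivity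
    linarith

end

end Pool.Agent.H312R.ZA
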