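import Pool.Agent.H312R.ZA.Defs
import Pool.Agent.H312R.ZA.AL2
import Pool.Agent.H312R.ZA.AN
import Pool.Agent.H312R.ZA.AN6

/-! N7: upper bound for the Hankel determinant from the Lagrange basis -/

open Polynomial Pool.Agent.H337R2 Pool.Agent.H336R2.Z5

namespace Pool.Agent.H312R.ZA

theorem n7_xu (n u : ℕ) : xu n u = ((xq n u : ℚ) : ℝ) := by
  unfold xu xq
  push_cast
  ring

theorem n7_inj {n : ℕ} (hn : 1 ≤ n) (m : ℕ) :
    Set.InjOn (fun j => xq n (nd n j)) (Finset.range m) := by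
  intro a _ b _ hab
  have h : xq n (nd n a) = xq n (nd n b) := hab
  unfold xq at h
  have h1 : ((nd n a : ℕ) : ℚ) ^ 2 = ((nd n b : ℕ) : ℚ) ^ 2 := by linarith
  have h2 : ((nd n a : ℕ) : ℚ) = ((nd n b : ℕ) : ℚ) := by
    exact (pow_left_inj₀ (by positivity) (by positivity) (by norm_num)).1 h1
  have h3 : nd n a = nd n b := by exact_mod_cast h2
  exact (N1_mono hn).injective h3

theorem N7_det {n : ℕ} (hn : 2 ≤ n) (u : ℚ)
    (hB1 : ∀ Q : ℚ[X], Q.natDegree ≤ 48 * n - 48 →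
      HasSum (fun s => Wt n s * aeval (xr n (tau n s)) Q) ((NL n u Q : ℚ) : ℝ))
    (MM : ℝ) (hM0 : 0 ≤ MM)
    (hM : ∀ s, (∀ i < mN n, nd n i ≠ us n s) → |Wt n s| * PiM n (mN n) (us n s) ^ 2 ≤ MM) :
    |((DET n u (mN n) : ℚ) : ℝ)| * ∏ i ∈ Finset.range (mN n), LL n (mN n) i ≤
      ((mN n).factorial : ℝ) * ∏ i ∈ Finset.range (mN n),
        (|Wt n (nd n i - 16 * n - 1)| * LL n (mN n) i ^ 2 + MM) := by
  have hdeg : 2 * mN n - 2 ≤ 48 * n - 48 := by
    unfold mN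
    omega
  have h := L2_det_le (NL n u) (mN n) (fun s => Wt n s) (fun s => xr n (tau n s))
    (fun Q hQ => hB1 Q (le_trans hQ hdeg)) (fun j => xq n (nd n j)) (n7_inj (by omega) (mN n))
    (fun i => |Wt n (nd n i - 16 * n - 1)| * LL n (mN n) i ^ 2 + MM)
    (fun i hi T => N6_rowsum hn MM hM0 hM hi T)
  have hLL : ∏ i ∈ Finset.range (mN n), LL n (mN n) i =
      ∏ i ∈ Finset.range (mN n), ∏ j ∈ (Finset.range (mN n)).erase i,
        |((xq n (nd n i) - xq n (nd n j) : ℚ) : ℝ)| := by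
    apply Finset.prod_congr rfl
    intro i _
    unfold LL
    apply Finset.prod_congr rfl
    intro j _
    rw [n7_xu, n7_xu, Rat.cast_sub]
  rw [hLL]
  exact h

end Pool.Agent.H312R.ZA
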