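import Pool.Agent.H312R.ZA.Defs

/-! Task AU1 (helper509): the potential of the nodes. -/

set_option autoImplicit false

open Polynomial Pool.Agent.H337R2 Pool.Agent.H336R2.Z5 Filter Topology

namespace Pool.Agent.H312R.ZA

noncomputable section

namespace AU1

/-- the statement of `P1_logsum` -/
def SP1 : Prop := ∃ C : ℝ, 0 < C ∧ ∀ k N A u : ℕ, 1 ≤ k → k ≤ 86 → 1 ≤ u →
    |∑ j ∈ (Finset.range N).filter (fun j => A + k * j ≠ u), Real.log |(u : ℝ) ^ 2 - ((A : ℝ) + k * j) ^ 2|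
        - (ff u ((A : ℝ) + k * N) - ff u A) / k| ≤ C * Real.log ((u : ℝ) + A + k * N + 2)

theorem Psi_scale {r : ℝ} (hr : 0 < r) (z : ℝ) : Psi (r * z) = r * Psi z + r * z * Real.log r := by
  unfold Psi
  rcases eq_or_ne z 0 with rfl | hz
  · simp
  · rw [Real.log_mul hr.ne' hz]
    ring

theorem ff_scale {r : ℝ} (hr : 0 < r) (v b : ℝ) :
    ff (r * v) (r * b) = r * ff v b + 2 * b * r * Real.log r := by
  unfold ff
  rw [← mul_add, ← mul_sub, Psi_scale hr, Psi_scale hr]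
  ring

/-- block sums -/
def blk (u A k N : ℕ) : ℝ :=
  ∑ j ∈ (Finset.range N).filter (fun j => A + k * j ≠ u), Real.log |(u : ℝ) ^ 2 - ((A : ℝ) + k * j) ^ 2|

/-- one term -/
def g (n u j : ℕ) : ℝ := if nd n j ≠ u then Real.log |(u : ℝ) ^ 2 - (nd n j : ℝ) ^ 2| else 0

/-- one term, scaled -/
def h (n u j : ℕ) : ℝ := if nd n j ≠ u then Real.log |xu n u - xu n (nd n j)| else 0

theorem nd_mono (n : ℕ) : StrictMono (nd n) := by
  refine strictMono_nat_of_lt_succ fun i => ?_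
  unfold nd
  split_ifs <;> omega

theorem nd_lt {n j : ℕ} (hj : j < 23 * n) : nd n j < 281 * n := by
  unfold nd
  split_ifs <;> omega

theorem log_bound {n u v : ℕ} (hn : 2 ≤ n) (hu : u ≤ 700 * n) (hv : v ≤ 281 * n) (huv : v ≠ u) :
    |(Real.log |(u : ℝ) ^ 2 - (v : ℝ) ^ 2|)| ≤ 22 * Real.log n := by
  have hn' : (2 : ℝ) ≤ n := by exact_mod_cast hn
  have h1 : (1 : ℝ) ≤ |(u : ℝ) ^ 2 - (v : ℝ) ^ 2| := by
    have h2 : ((u : ℤ) ^ 2 - (v : ℤ) ^ 2) ≠ 0 := by
      intro h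
      have h3 : (u : ℤ) ^ 2 = (v : ℤ) ^ 2 := by linarith
      have h4 : u ^ 2 = v ^ 2 := by exact_mod_cast h3
      exact huv (Nat.pow_left_injective (by norm_num) h4).symm
    have h3 : (1 : ℤ) ≤ |(u : ℤ) ^ 2 - (v : ℤ) ^ 2| := Int.one_le_abs h2
    exact_mod_cast h3
  have hu' : (u : ℝ) ≤ 700 * n := by exact_mod_cast hu
  have hv' : (v : ℝ) ≤ 281 * n := by exact_mod_cast hv
  have hu0 : (0 : ℝ) ≤ u := Nat.cast_nonneg u
  have hv0 : (0 : ℝ) ≤ v := Nat.cast_nonneg v
  have h2 : |(u : ℝ) ^ 2 - (v : ℝ) ^ 2| ≤ (n : ℝ) ^ 22 := by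
    have h3 : |(u : ℝ) ^ 2 - (v : ℝ) ^ 2| ≤ (700 * n) ^ 2 := by
      rw [abs_le]
      constructor <;> nlinarith
    refine h3.trans ?_
    have h4 : (700 : ℝ) ≤ n ^ 10 := by
      calc (700 : ℝ) ≤ 2 ^ 10 := by norm_num
        _ ≤ n ^ 10 := pow_le_pow_left₀ (by norm_num) hn' 10
    calc (700 * (n : ℝ)) ^ 2 ≤ ((n : ℝ) ^ 10 * n) ^ 2 := by gcongr
      _ = (n : ℝ) ^ 22 := by ring
  rw [abs_of_nonneg (Real.log_nonneg h1)]
  calc Real.log |(u : ℝ) ^ 2 - (v : ℝ) ^ 2| ≤ Real.log ((n : ℝ) ^ 22) :=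
        Real.log_le_log (by linarith) h2
    _ = 22 * Real.log n := by rw [Real.log_pow]; norm_num

theorem log4_le {n : ℕ} (hn : 2 ≤ n) : Real.log 4 ≤ 2 * Real.log n := by
  have hn' : (2 : ℝ) ≤ n := by exact_mod_cast hn
  have h1 : Real.log 4 = 2 * Real.log 2 := by
    rw [show (4 : ℝ) = 2 ^ 2 by norm_num, Real.log_pow]; norm_num
  have h2 : Real.log 2 ≤ Real.log n := Real.log_le_log (by norm_num) hn'
  linarith

theorem h_eq (n u j : ℕ) : h n u j = g n u j - (if nd n j ≠ u then Real.log 4 else 0) := by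
  unfold h g
  by_cases hj : nd n j ≠ u
  · rw [if_pos hj, if_pos hj, if_pos hj]
    have h1 : xu n u - xu n (nd n j) = ((u : ℝ) ^ 2 - (nd n j : ℝ) ^ 2) / 4 := by
      unfold xu
      ring
    have h2 : (u : ℝ) ^ 2 - (nd n j : ℝ) ^ 2 ≠ 0 := by
      intro h0
      have h3 : (u : ℝ) ^ 2 = (nd n j : ℝ) ^ 2 := by linarith
      have h4 : u ^ 2 = (nd n j) ^ 2 := by exact_mod_cast h3
      exact hj (Nat.pow_left_injective (by norm_num) h4).symm
    rw [h1, abs_div, Real.log_div (abs_ne_zero.2 h2) (by norm_num), abs_of_pos (by norm_num : (0 : ℝ) < 4)]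
  · rw [if_neg hj, if_neg hj, if_neg hj, sub_zero]

theorem h_bound {n u j : ℕ} (hn : 2 ≤ n) (hu : u ≤ 700 * n) (hj : j < 23 * n) :
    |h n u j| ≤ 24 * Real.log n := by
  have h4 := log4_le hn
  have h0 : 0 ≤ Real.log 4 := Real.log_nonneg (by norm_num)
  have hl : 0 ≤ Real.log n := Real.log_nonneg (by exact_mod_cast (by omega : 1 ≤ n))
  rw [h_eq]
  unfold g
  by_cases hne : nd n j ≠ u
  · rw [if_pos hne, if_pos hne]
    have h1 := log_bound hn hu (nd_lt hj).le hne
    rw [abs_le] at h1 ⊢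
    constructor <;> linarith
  · rw [if_neg hne, if_neg hne, sub_zero, abs_zero]
    linarith

theorem blk_eq {n u off A k N : ℕ} (hnd : ∀ j < N, nd n (off + j) = A + k * j) :
    ∑ j ∈ Finset.range N, g n u (off + j) = blk u A k N := by
  unfold blk
  rw [Finset.sum_filter]
  refine Finset.sum_congr rfl fun j hj => ?_
  rw [Finset.mem_range] at hj
  unfold g
  rw [hnd j hj]
  push_cast
  rfl

theorem split_sum (n u : ℕ) : ∑ j ∈ Finset.range (23 * n), g n u j =
    blk u (16 * n + 1) 2 (4 * n) + blk u (24 * n) 1 (7 * n) + blk u (31 * n) 2 (3 * n) +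
      blk u (37 * n) 4 (3 * n) + blk u (49 * n) 9 (2 * n) + blk u (67 * n) 21 (2 * n) +
      blk u (109 * n) 86 (2 * n) := by
  have e : 23 * n = 4 * n + 7 * n + 3 * n + 3 * n + 2 * n + 2 * n + 2 * n := by ring
  rw [e, Finset.sum_range_add, Finset.sum_range_add, Finset.sum_range_add, Finset.sum_range_add,
    Finset.sum_range_add, Finset.sum_range_add]
  have b1 : ∑ j ∈ Finset.range (4 * n), g n u j = blk u (16 * n + 1) 2 (4 * n) := by
    rw [← blk_eq (n := n) (off := 0)]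
    · simp only [zero_add]
    · intro j hj
      unfold nd
      split_ifs <;> omega
  rw [b1]
  refine congrArg₂ _ (congrArg₂ _ (congrArg₂ _ (congrArg₂ _ (congrArg₂ _ (congrArg₂ _ rfl ?_) ?_) ?_) ?_) ?_) ?_
  all_goals
    apply blk_eq
    intro j hj
    unfold nd
    split_ifs <;> omega

theorem count (n u : ℕ) :
    |∑ j ∈ Finset.range (23 * n), (if nd n j ≠ u then Real.log 4 else 0) - 23 * n * Real.log 4| ≤
      Real.log 4 := by
  have h0 : 0 ≤ Real.log 4 := Real.log_nonneg (by norm_num)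
  have h1 : ∑ j ∈ Finset.range (23 * n), (if nd n j ≠ u then Real.log 4 else 0) =
      23 * n * Real.log 4 - ((Finset.range (23 * n)).filter fun j => nd n j = u).card * Real.log 4 := by
    have h2 : ∀ j, (if nd n j ≠ u then Real.log 4 else 0) =
        Real.log 4 - (if nd n j = u then Real.log 4 else 0) := by
      intro j
      by_cases hj : nd n j = u
      · rw [if_pos hj, if_neg (not_not.2 hj), sub_self]
      · rw [if_neg hj, if_pos hj, sub_zero]
    rw [Finset.sum_congr rfl fun j _ => h2 j, Finset.sum_sub_distrib, Finset.sum_const,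
      Finset.card_range, ← Finset.sum_filter, Finset.sum_const, nsmul_eq_mul, nsmul_eq_mul]
    push_cast
    ring
  have h3 : ((Finset.range (23 * n)).filter fun j => nd n j = u).card ≤ 1 := by
    rw [Finset.card_le_one]
    intro a ha b hb
    rw [Finset.mem_filter] at ha hb
    exact (nd_mono n).injective (ha.2.trans hb.2.symm)
  have h4 : (((Finset.range (23 * n)).filter fun j => nd n j = u).card : ℝ) ≤ 1 := by
    exact_mod_cast h3
  have h5 : (0 : ℝ) ≤ ((Finset.range (23 * n)).filter fun j => nd n j = u).card := Nat.cast_nonneg _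
  rw [h1, abs_le]
  constructor <;> nlinarith

theorem log_arg {n : ℕ} (hn : 2 ≤ n) {x : ℝ} (hx1 : 1 ≤ x) (hx : x ≤ 985 * n) :
    0 ≤ Real.log x ∧ Real.log x ≤ 11 * Real.log n := by
  refine ⟨Real.log_nonneg hx1, ?_⟩
  have hn' : (2 : ℝ) ≤ n := by exact_mod_cast hn
  have h4 : (985 : ℝ) ≤ n ^ 10 := by
    calc (985 : ℝ) ≤ 2 ^ 10 := by norm_num
      _ ≤ n ^ 10 := pow_le_pow_left₀ (by norm_num) hn' 10
  have h5 : x ≤ (n : ℝ) ^ 11 := by
    calc x ≤ 985 * n := hx
      _ ≤ (n : ℝ) ^ 10 * n := by gcongr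
      _ = (n : ℝ) ^ 11 := by ring
  calc Real.log x ≤ Real.log ((n : ℝ) ^ 11) := Real.log_le_log (by linarith) h5
    _ = 11 * Real.log n := by rw [Real.log_pow]; norm_num

end AU1

open AU1 in
theorem U1_nodes_of (P1 : AU1.SP1) : ∃ C : ℝ, 0 < C ∧ ∀ n : ℕ, 2 ≤ n → ∀ u : ℕ, 16 * n < u → u ≤ 700 * n →
    |∑ j ∈ (Finset.range (mN n)).filter (fun j => nd n j ≠ u), Real.log |xu n u - xu n (nd n j)|
        - (n * UU ((u : ℝ) / n) + 46 * n * Real.log n)| ≤ C * Real.log n := by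
  obtain ⟨C, hC, hP⟩ := P1
  refine ⟨99 * C + 24 * 23 + 2 + 44, by positivity, ?_⟩
  intro n hn u hu1 hu2
  have hn' : (2 : ℝ) ≤ n := by exact_mod_cast hn
  have hn0 : (0 : ℝ) < n := by linarith
  have hl : 0 ≤ Real.log n := Real.log_nonneg (by linarith)
  have hu0 : 1 ≤ u := by omega
  have hu' : (u : ℝ) ≤ 700 * n := by exact_mod_cast hu2
  have huR : (1 : ℝ) ≤ u := by exact_mod_cast hu0
  -- the blocks
  have hb : ∀ A k N : ℕ, 1 ≤ k → k ≤ 86 → A + k * N ≤ 281 * n + 1 →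
      |blk u A k N - (ff u ((A : ℝ) + k * N) - ff u A) / k| ≤ C * (11 * Real.log n) := by
    intro A k N hk1 hk2 hA
    refine (hP k N A u hk1 hk2 hu0).trans ?_
    have hA' : (A : ℝ) + k * N ≤ 281 * n + 1 := by exact_mod_cast hA
    have hA0 : (0 : ℝ) ≤ (A : ℝ) + k * N := by positivity
    have := log_arg hn (x := (u : ℝ) + A + k * N + 2) (by linarith) (by linarith)
    exact mul_le_mul_of_nonneg_left this.2 hC.le
  -- moving an end point by one
  have hone : ∀ b : ℕ, b + 1 ≤ 281 * n → |ff u ((b : ℝ) + 1) - ff u b| ≤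
      C * (11 * Real.log n) + 22 * Real.log n := by
    intro b hb1
    have h1 := hb b 1 1 le_rfl (by norm_num) (by omega)
    rw [Nat.cast_one, mul_one, div_one] at h1
    have h2 : |blk u b 1 1| ≤ 22 * Real.log n := by
      unfold blk
      rw [Finset.sum_filter, Finset.sum_range_one]
      split_ifs with hne
      · have := log_bound hn hu2 (v := b) (by omega) (by simpa using hne)
        simpa using this
      · rw [abs_zero]
        positivity
    rw [abs_le] at h1 h2 ⊢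
    constructor <;> linarith [h1.1, h1.2, h2.1, h2.2]
  have c1 := hb (16 * n + 1) 2 (4 * n) (by norm_num) (by norm_num) (by omega)
  have c2 := hb (24 * n) 1 (7 * n) (by norm_num) (by norm_num) (by omega)
  have c3 := hb (31 * n) 2 (3 * n) (by norm_num) (by norm_num) (by omega)
  have c4 := hb (37 * n) 4 (3 * n) (by norm_num) (by norm_num) (by omega)
  have c5 := hb (49 * n) 9 (2 * n) (by norm_num) (by norm_num) (by omega)
  have c6 := hb (67 * n) 21 (2 * n) (by norm_num) (by norm_num) (by omega)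
  have c7 := hb (109 * n) 86 (2 * n) (by norm_num) (by norm_num) (by omega)
  have d1 := hone (16 * n) (by omega)
  have d2 := hone (24 * n) (by omega)
  have hs := split_sum n u
  push_cast at c1 c2 c3 c4 c5 c6 c7 d1 d2
  have hsc : ∀ b : ℝ, ff u (b * n) = n * ff ((u : ℝ) / n) b + 2 * b * n * Real.log n := by
    intro b
    have := ff_scale hn0 ((u : ℝ) / n) b
    rw [mul_div_cancel₀ _ hn0.ne', mul_comm (n : ℝ) b] at this
    exact this
  rw [show (16 : ℝ) * n + 1 + 2 * (4 * n) = 24 * n + 1 by ring] at c1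
  rw [show (24 : ℝ) * n + 1 * (7 * n) = 31 * n by ring, hsc, hsc, div_one] at c2
  rw [show (31 : ℝ) * n + 2 * (3 * n) = 37 * n by ring, hsc, hsc] at c3
  rw [show (37 : ℝ) * n + 4 * (3 * n) = 49 * n by ring, hsc, hsc] at c4
  rw [show (49 : ℝ) * n + 9 * (2 * n) = 67 * n by ring, hsc, hsc] at c5
  rw [show (67 : ℝ) * n + 21 * (2 * n) = 109 * n by ring, hsc, hsc] at c6
  rw [show (109 : ℝ) * n + 86 * (2 * n) = 281 * n by ring, hsc, hsc] at c7
  rw [hsc] at d1 d2
  -- the sum over all `j < 23 n`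
  have hcount := count n u
  have hfull : ∑ j ∈ Finset.range (23 * n), h n u j =
      ∑ j ∈ Finset.range (23 * n), g n u j -
        ∑ j ∈ Finset.range (23 * n), (if nd n j ≠ u then Real.log 4 else 0) := by
    rw [← Finset.sum_sub_distrib]
    exact Finset.sum_congr rfl fun j _ => h_eq n u j
  have hm : mN n + 23 = 23 * n := by
    unfold mN
    omega
  have htail : |∑ j ∈ Finset.range (23 * n), h n u j - ∑ j ∈ Finset.range (mN n), h n u j| ≤
      24 * 23 * Real.log n := by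
    rw [← hm, Finset.sum_range_add, add_sub_cancel_left]
    refine (Finset.abs_sum_le_sum_abs _ _).trans ?_
    refine (Finset.sum_le_card_nsmul _ _ (24 * Real.log n) fun j hj => ?_).trans ?_
    · rw [Finset.mem_range] at hj
      exact h_bound hn hu2 (by omega)
    · rw [Finset.card_range, nsmul_eq_mul]
      push_cast
      linarith
  have hL : ∑ j ∈ (Finset.range (mN n)).filter (fun j => nd n j ≠ u),
      Real.log |xu n u - xu n (nd n j)| = ∑ j ∈ Finset.range (mN n), h n u j := by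
    rw [Finset.sum_filter]
    rfl
  have h4 := log4_le hn
  rw [hL]
  unfold UU
  rw [hfull, hs] at htail
  rw [abs_le] at c1 c2 c3 c4 c5 c6 c7 d1 d2 hcount htail ⊢
  obtain ⟨c1a, c1b⟩ := c1
  obtain ⟨c2a, c2b⟩ := c2
  obtain ⟨c3a, c3b⟩ := c3
  obtain ⟨c4a, c4b⟩ := c4
  obtain ⟨c5a, c5b⟩ := c5
  obtain ⟨c6a, c6b⟩ := c6
  obtain ⟨c7a, c7b⟩ := c7
  obtain ⟨d1a, d1b⟩ := d1
  obtain ⟨d2a, d2b⟩ := d2
  obtain ⟨k1, k2⟩ := hcount
  obtain ⟨t1, t2⟩ := htail
  constructor <;> nlinarith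

end

end Pool.Agent.H312R.ZA
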