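import Pool.Agent.H312R.ZA.Defs
import Pool.Agent.H312R.PC.PsiCert3

/-! Certificates for the potential `VV` (helper337's checker). -/

namespace Pool.Agent.H312R.ZA

/-- the list of the potential, step `1/4`, denominator `5418` -/
def lU : List (ℤ × ℤ) :=
  [(-5418, -56), (5418, 56), (-10836, -64), (10836, 64), (-5418, -72), (5418, 72), (-5418, -96), (5418, 96), (5418, -124), (-5418, 124), (2709, -148), (-2709, 148), (1505, -196), (-1505, 196), (688, -268), (-688, 268), (390, -436), (-390, 436), (126, -1124), (-126, 1124)]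

lemma VV_eq (v : ℝ) : VV v = (196 * Real.log 2 + 72 * Real.log 3 + 28 * Real.log 7 - 96) +
    Pool.Agent.H312R.PC.EF 5418 4 lU v := by
  have h36 : Real.log 36 = 2 * Real.log 2 + 2 * Real.log 3 := by
    rw [show (36 : ℝ) = 2 ^ 2 * 3 ^ 2 by norm_num, Real.log_mul (by norm_num) (by norm_num), Real.log_pow, Real.log_pow]
    norm_num
  have h32 : Real.log 32 = 5 * Real.log 2 := by
    rw [show (32 : ℝ) = 2 ^ 5 by norm_num, Real.log_pow]
    norm_num
  have h28 : Real.log 28 = 2 * Real.log 2 + Real.log 7 := by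
    rw [show (28 : ℝ) = 2 ^ 2 * 7 by norm_num, Real.log_mul (by norm_num) (by norm_num), Real.log_pow]
    norm_num
  have h4 : Real.log 4 = 2 * Real.log 2 := by
    rw [show (4 : ℝ) = 2 ^ 2 by norm_num, Real.log_pow]
    norm_num
  have hP : ∀ z : ℝ, Pool.Agent.H312R.PC.Psi z = Psi z := fun z => rfl
  unfold VV phi UU ff
  rw [h36, h32, h28, h4]
  simp only [Pool.Agent.H312R.PC.EF, lU, List.map_cons, List.map_nil, List.sum_cons, List.sum_nil, hP]
  norm_num
  ring

lemma const_bounds : 173442 / 1000 ≤ 196 * Real.log 2 + 72 * Real.log 3 + 28 * Real.log 7 - 96 ∧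
    196 * Real.log 2 + 72 * Real.log 3 + 28 * Real.log 7 - 96 ≤ 173443 / 1000 := by
  have h2 := abs_le.mp (Pool.Agent.H312R.PC.lnA_spec 2 (by norm_num) (by norm_num))
  have h3 := abs_le.mp (Pool.Agent.H312R.PC.lnA_spec 3 (by norm_num) (by norm_num))
  have h7 := abs_le.mp (Pool.Agent.H312R.PC.lnA_spec 7 (by norm_num) (by norm_num))
  have e2 : Pool.Agent.H312R.PC.lnA 2 = 693147180560 := by decide +kernel
  have e3 : Pool.Agent.H312R.PC.lnA 3 = 1098612288761 := by decide +kernel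
  have e7 : Pool.Agent.H312R.PC.lnA 7 = 1945910149055 := by decide +kernel
  rw [e2] at h2
  rw [e3] at h3
  rw [e7] at h7
  push_cast at h2 h3 h7
  constructor <;> linarith [h2.1, h2.2, h3.1, h3.2, h7.1, h7.2]

lemma E_up (v : ℝ) (h1 : 31 ≤ v) (h2 : v ≤ 700) : Pool.Agent.H312R.PC.EF 5418 4 lU v ≤ ((-24943 : ℝ) / 1000) := by
  have s0 : v ≤ (164 : ℝ) / 4 → (124 : ℝ) / 4 ≤ v → Pool.Agent.H312R.PC.EF 5418 4 lU v ≤ ((-24943 : ℝ) / 1000) := fun ha hb =>
    Pool.Agent.H312R.PC.EF_le (Dc := 5418) (M := 4) (l := lU) (A := -540564696000000000) (by norm_num) (by norm_num) (by norm_num) _ (by norm_num) (st := 8) (c := 5)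
      (by norm_num) (x0 := 124) (by decide +kernel) v (by norm_num; linarith) (by norm_num; linarith)
  have s1 : v ≤ (196 : ℝ) / 4 → (164 : ℝ) / 4 ≤ v → Pool.Agent.H312R.PC.EF 5418 4 lU v ≤ ((-24943 : ℝ) / 1000) := fun ha hb =>
    Pool.Agent.H312R.PC.EF_le (Dc := 5418) (M := 4) (l := lU) (A := -540564696000000000) (by norm_num) (by norm_num) (by norm_num) _ (by norm_num) (st := 16) (c := 2)
      (by norm_num) (x0 := 164) (by decide +kernel) v (by norm_num; linarith) (by norm_num; linarith)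
  have s2 : v ≤ (212 : ℝ) / 4 → (196 : ℝ) / 4 ≤ v → Pool.Agent.H312R.PC.EF 5418 4 lU v ≤ ((-24943 : ℝ) / 1000) := fun ha hb =>
    Pool.Agent.H312R.PC.EF_le (Dc := 5418) (M := 4) (l := lU) (A := -540564696000000000) (by norm_num) (by norm_num) (by norm_num) _ (by norm_num) (st := 8) (c := 2)
      (by norm_num) (x0 := 196) (by decide +kernel) v (by norm_num; linarith) (by norm_num; linarith)
  have s3 : v ≤ (260 : ℝ) / 4 → (212 : ℝ) / 4 ≤ v → Pool.Agent.H312R.PC.EF 5418 4 lU v ≤ ((-24943 : ℝ) / 1000) := fun ha hb =>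
    Pool.Agent.H312R.PC.EF_le (Dc := 5418) (M := 4) (l := lU) (A := -540564696000000000) (by norm_num) (by norm_num) (by norm_num) _ (by norm_num) (st := 16) (c := 3)
      (by norm_num) (x0 := 212) (by decide +kernel) v (by norm_num; linarith) (by norm_num; linarith)
  have s4 : v ≤ (300 : ℝ) / 4 → (260 : ℝ) / 4 ≤ v → Pool.Agent.H312R.PC.EF 5418 4 lU v ≤ ((-24943 : ℝ) / 1000) := fun ha hb =>
    Pool.Agent.H312R.PC.EF_le (Dc := 5418) (M := 4) (l := lU) (A := -540564696000000000) (by norm_num) (by norm_num) (by norm_num) _ (by norm_num) (st := 8) (c := 5)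
      (by norm_num) (x0 := 260) (by decide +kernel) v (by norm_num; linarith) (by norm_num; linarith)
  have s5 : v ≤ (364 : ℝ) / 4 → (300 : ℝ) / 4 ≤ v → Pool.Agent.H312R.PC.EF 5418 4 lU v ≤ ((-24943 : ℝ) / 1000) := fun ha hb =>
    Pool.Agent.H312R.PC.EF_le (Dc := 5418) (M := 4) (l := lU) (A := -540564696000000000) (by norm_num) (by norm_num) (by norm_num) _ (by norm_num) (st := 16) (c := 4)
      (by norm_num) (x0 := 300) (by decide +kernel) v (by norm_num; linarith) (by norm_num; linarith)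
  have s6 : v ≤ (428 : ℝ) / 4 → (364 : ℝ) / 4 ≤ v → Pool.Agent.H312R.PC.EF 5418 4 lU v ≤ ((-24943 : ℝ) / 1000) := fun ha hb =>
    Pool.Agent.H312R.PC.EF_le (Dc := 5418) (M := 4) (l := lU) (A := -540564696000000000) (by norm_num) (by norm_num) (by norm_num) _ (by norm_num) (st := 32) (c := 2)
      (by norm_num) (x0 := 364) (by decide +kernel) v (by norm_num; linarith) (by norm_num; linarith)
  have s7 : v ≤ (436 : ℝ) / 4 → (428 : ℝ) / 4 ≤ v → Pool.Agent.H312R.PC.EF 5418 4 lU v ≤ ((-24943 : ℝ) / 1000) := fun ha hb =>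
    Pool.Agent.H312R.PC.EF_le (Dc := 5418) (M := 4) (l := lU) (A := -540564696000000000) (by norm_num) (by norm_num) (by norm_num) _ (by norm_num) (st := 8) (c := 1)
      (by norm_num) (x0 := 428) (by decide +kernel) v (by norm_num; linarith) (by norm_num; linarith)
  have s8 : v ≤ (580 : ℝ) / 4 → (436 : ℝ) / 4 ≤ v → Pool.Agent.H312R.PC.EF 5418 4 lU v ≤ ((-24943 : ℝ) / 1000) := fun ha hb =>
    Pool.Agent.H312R.PC.EF_le (Dc := 5418) (M := 4) (l := lU) (A := -540564696000000000) (by norm_num) (by norm_num) (by norm_num) _ (by norm_num) (st := 16) (c := 9)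
      (by norm_num) (x0 := 436) (by decide +kernel) v (by norm_num; linarith) (by norm_num; linarith)
  have s9 : v ≤ (772 : ℝ) / 4 → (580 : ℝ) / 4 ≤ v → Pool.Agent.H312R.PC.EF 5418 4 lU v ≤ ((-24943 : ℝ) / 1000) := fun ha hb =>
    Pool.Agent.H312R.PC.EF_le (Dc := 5418) (M := 4) (l := lU) (A := -540564696000000000) (by norm_num) (by norm_num) (by norm_num) _ (by norm_num) (st := 32) (c := 6)
      (by norm_num) (x0 := 580) (by decide +kernel) v (by norm_num; linarith) (by norm_num; linarith)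
  have s10 : v ≤ (1092 : ℝ) / 4 → (772 : ℝ) / 4 ≤ v → Pool.Agent.H312R.PC.EF 5418 4 lU v ≤ ((-24943 : ℝ) / 1000) := fun ha hb =>
    Pool.Agent.H312R.PC.EF_le (Dc := 5418) (M := 4) (l := lU) (A := -540564696000000000) (by norm_num) (by norm_num) (by norm_num) _ (by norm_num) (st := 64) (c := 5)
      (by norm_num) (x0 := 772) (by decide +kernel) v (by norm_num; linarith) (by norm_num; linarith)
  have s11 : v ≤ (1988 : ℝ) / 4 → (1092 : ℝ) / 4 ≤ v → Pool.Agent.H312R.PC.EF 5418 4 lU v ≤ ((-24943 : ℝ) / 1000) := fun ha hb =>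
    Pool.Agent.H312R.PC.EF_le (Dc := 5418) (M := 4) (l := lU) (A := -540564696000000000) (by norm_num) (by norm_num) (by norm_num) _ (by norm_num) (st := 32) (c := 28)
      (by norm_num) (x0 := 1092) (by decide +kernel) v (by norm_num; linarith) (by norm_num; linarith)
  have s12 : v ≤ (2756 : ℝ) / 4 → (1988 : ℝ) / 4 ≤ v → Pool.Agent.H312R.PC.EF 5418 4 lU v ≤ ((-24943 : ℝ) / 1000) := fun ha hb =>
    Pool.Agent.H312R.PC.EF_le (Dc := 5418) (M := 4) (l := lU) (A := -540564696000000000) (by norm_num) (by norm_num) (by norm_num) _ (by norm_num) (st := 64) (c := 12)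
      (by norm_num) (x0 := 1988) (by decide +kernel) v (by norm_num; linarith) (by norm_num; linarith)
  have s13 : v ≤ (2788 : ℝ) / 4 → (2756 : ℝ) / 4 ≤ v → Pool.Agent.H312R.PC.EF 5418 4 lU v ≤ ((-24943 : ℝ) / 1000) := fun ha hb =>
    Pool.Agent.H312R.PC.EF_le (Dc := 5418) (M := 4) (l := lU) (A := -540564696000000000) (by norm_num) (by norm_num) (by norm_num) _ (by norm_num) (st := 32) (c := 1)
      (by norm_num) (x0 := 2756) (by decide +kernel) v (by norm_num; linarith) (by norm_num; linarith)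
  have s14 : v ≤ (2796 : ℝ) / 4 → (2788 : ℝ) / 4 ≤ v → Pool.Agent.H312R.PC.EF 5418 4 lU v ≤ ((-24943 : ℝ) / 1000) := fun ha hb =>
    Pool.Agent.H312R.PC.EF_le (Dc := 5418) (M := 4) (l := lU) (A := -540564696000000000) (by norm_num) (by norm_num) (by norm_num) _ (by norm_num) (st := 8) (c := 1)
      (by norm_num) (x0 := 2788) (by decide +kernel) v (by norm_num; linarith) (by norm_num; linarith)
  have s15 : v ≤ (2800 : ℝ) / 4 → (2796 : ℝ) / 4 ≤ v → Pool.Agent.H312R.PC.EF 5418 4 lU v ≤ ((-24943 : ℝ) / 1000) := fun ha hb =>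
    Pool.Agent.H312R.PC.EF_le (Dc := 5418) (M := 4) (l := lU) (A := -540564696000000000) (by norm_num) (by norm_num) (by norm_num) _ (by norm_num) (st := 4) (c := 1)
      (by norm_num) (x0 := 2796) (by decide +kernel) v (by norm_num; linarith) (by norm_num; linarith)
  rcases le_total v ((164 : ℝ) / 4) with k0 | k0
  · exact s0 k0 (by linarith)
  rcases le_total v ((196 : ℝ) / 4) with k1 | k1
  · exact s1 k1 (by linarith)
  rcases le_total v ((212 : ℝ) / 4) with k2 | k2
  · exact s2 k2 (by linarith)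
  rcases le_total v ((260 : ℝ) / 4) with k3 | k3
  · exact s3 k3 (by linarith)
  rcases le_total v ((300 : ℝ) / 4) with k4 | k4
  · exact s4 k4 (by linarith)
  rcases le_total v ((364 : ℝ) / 4) with k5 | k5
  · exact s5 k5 (by linarith)
  rcases le_total v ((428 : ℝ) / 4) with k6 | k6
  · exact s6 k6 (by linarith)
  rcases le_total v ((436 : ℝ) / 4) with k7 | k7
  · exact s7 k7 (by linarith)
  rcases le_total v ((580 : ℝ) / 4) with k8 | k8
  · exact s8 k8 (by linarith)
  rcases le_total v ((772 : ℝ) / 4) with k9 | k9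
  · exact s9 k9 (by linarith)
  rcases le_total v ((1092 : ℝ) / 4) with k10 | k10
  · exact s10 k10 (by linarith)
  rcases le_total v ((1988 : ℝ) / 4) with k11 | k11
  · exact s11 k11 (by linarith)
  rcases le_total v ((2756 : ℝ) / 4) with k12 | k12
  · exact s12 k12 (by linarith)
  rcases le_total v ((2788 : ℝ) / 4) with k13 | k13
  · exact s13 k13 (by linarith)
  rcases le_total v ((2796 : ℝ) / 4) with k14 | k14
  · exact s14 k14 (by linarith)
  exact s15 (by linarith) (by linarith)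

lemma E_lo2 (v : ℝ) (h1 : 16 ≤ v) (h2 : v ≤ 29) : Pool.Agent.H312R.PC.EF 5418 4 (Pool.Agent.H312R.PC.ngl lU) v ≤ ((24942 : ℝ) / 1000) := by
  have s0 : v ≤ (72 : ℝ) / 4 → (64 : ℝ) / 4 ≤ v → Pool.Agent.H312R.PC.EF 5418 4 (Pool.Agent.H312R.PC.ngl lU) v ≤ ((24942 : ℝ) / 1000) := fun ha hb =>
    Pool.Agent.H312R.PC.EF_le (Dc := 5418) (M := 4) (l := (Pool.Agent.H312R.PC.ngl lU)) (A := 540543024000000000) (by norm_num) (by norm_num) (by norm_num) _ (by norm_num) (st := 8) (c := 1)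
      (by norm_num) (x0 := 64) (by decide +kernel) v (by norm_num; linarith) (by norm_num; linarith)
  have s1 : v ≤ (88 : ℝ) / 4 → (72 : ℝ) / 4 ≤ v → Pool.Agent.H312R.PC.EF 5418 4 (Pool.Agent.H312R.PC.ngl lU) v ≤ ((24942 : ℝ) / 1000) := fun ha hb =>
    Pool.Agent.H312R.PC.EF_le (Dc := 5418) (M := 4) (l := (Pool.Agent.H312R.PC.ngl lU)) (A := 540543024000000000) (by norm_num) (by norm_num) (by norm_num) _ (by norm_num) (st := 16) (c := 1)
      (by norm_num) (x0 := 72) (by decide +kernel) v (by norm_num; linarith) (by norm_num; linarith)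
  have s2 : v ≤ (112 : ℝ) / 4 → (88 : ℝ) / 4 ≤ v → Pool.Agent.H312R.PC.EF 5418 4 (Pool.Agent.H312R.PC.ngl lU) v ≤ ((24942 : ℝ) / 1000) := fun ha hb =>
    Pool.Agent.H312R.PC.EF_le (Dc := 5418) (M := 4) (l := (Pool.Agent.H312R.PC.ngl lU)) (A := 540543024000000000) (by norm_num) (by norm_num) (by norm_num) _ (by norm_num) (st := 8) (c := 3)
      (by norm_num) (x0 := 88) (by decide +kernel) v (by norm_num; linarith) (by norm_num; linarith)
  have s3 : v ≤ (116 : ℝ) / 4 → (112 : ℝ) / 4 ≤ v → Pool.Agent.H312R.PC.EF 5418 4 (Pool.Agent.H312R.PC.ngl lU) v ≤ ((24942 : ℝ) / 1000) := fun ha hb =>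
    Pool.Agent.H312R.PC.EF_le (Dc := 5418) (M := 4) (l := (Pool.Agent.H312R.PC.ngl lU)) (A := 540543024000000000) (by norm_num) (by norm_num) (by norm_num) _ (by norm_num) (st := 4) (c := 1)
      (by norm_num) (x0 := 112) (by decide +kernel) v (by norm_num; linarith) (by norm_num; linarith)
  rcases le_total v ((72 : ℝ) / 4) with k0 | k0
  · exact s0 k0 (by linarith)
  rcases le_total v ((88 : ℝ) / 4) with k1 | k1
  · exact s1 k1 (by linarith)
  rcases le_total v ((112 : ℝ) / 4) with k2 | k2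
  · exact s2 k2 (by linarith)
  exact s3 (by linarith) (by linarith)

lemma E_lo3 (v : ℝ) (h1 : 29 ≤ v) (h2 : v ≤ 31) : Pool.Agent.H312R.PC.EF 5418 4 (Pool.Agent.H312R.PC.ngl lU) v ≤ ((26442 : ℝ) / 1000) := by
  have s0 : v ≤ (120 : ℝ) / 4 → (116 : ℝ) / 4 ≤ v → Pool.Agent.H312R.PC.EF 5418 4 (Pool.Agent.H312R.PC.ngl lU) v ≤ ((26442 : ℝ) / 1000) := fun ha hb =>
    Pool.Agent.H312R.PC.EF_le (Dc := 5418) (M := 4) (l := (Pool.Agent.H312R.PC.ngl lU)) (A := 573051024000000000) (by norm_num) (by norm_num) (by norm_num) _ (by norm_num) (st := 4) (c := 1)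
      (by norm_num) (x0 := 116) (by decide +kernel) v (by norm_num; linarith) (by norm_num; linarith)
  have s1 : v ≤ (124 : ℝ) / 4 → (120 : ℝ) / 4 ≤ v → Pool.Agent.H312R.PC.EF 5418 4 (Pool.Agent.H312R.PC.ngl lU) v ≤ ((26442 : ℝ) / 1000) := fun ha hb =>
    Pool.Agent.H312R.PC.EF_le (Dc := 5418) (M := 4) (l := (Pool.Agent.H312R.PC.ngl lU)) (A := 573051024000000000) (by norm_num) (by norm_num) (by norm_num) _ (by norm_num) (st := 1) (c := 4)
      (by norm_num) (x0 := 120) (by decide +kernel) v (by norm_num; linarith) (by norm_num; linarith)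
  rcases le_total v ((120 : ℝ) / 4) with k0 | k0
  · exact s0 k0 (by linarith)
  exact s1 (by linarith) (by linarith)

theorem V1_upper (v : ℝ) (h1 : 31 ≤ v) (h2 : v ≤ 700) : VV v ≤ 297 / 2 := by
  rw [VV_eq]
  linarith [E_up v h1 h2, const_bounds.2]

theorem V2_lower (v : ℝ) (h1 : 16 ≤ v) (h2 : v ≤ 29) : 297 / 2 ≤ VV v := by
  rw [VV_eq]
  have h := E_lo2 v h1 h2
  rw [Pool.Agent.H312R.PC.EF_neg] at h
  linarith [const_bounds.1]

theorem V3_lower (v : ℝ) (h1 : 29 ≤ v) (h2 : v ≤ 31) : 147 ≤ VV v := by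
  rw [VV_eq]
  have h := E_lo3 v h1 h2
  rw [Pool.Agent.H312R.PC.EF_neg] at h
  linarith [const_bounds.1]

end Pool.Agent.H312R.ZA
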