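import Pool.Agent.H312R.ZA.Defs

/-! AV4: the saturated energy. -/

set_option autoImplicit false

open Polynomial Pool.Agent.H337R2

namespace Pool.Agent.H312R.ZA

theorem AV4_lg (x : ℝ) (n : ℕ) (L U : ℝ) (h0 : 0 ≤ x) (h1 : x < 1)
    (hU : -(∑ i ∈ Finset.range n, x ^ (i + 1) / (i + 1)) + x ^ (n + 1) / (1 - x) ≤ U)
    (hL : L ≤ -(∑ i ∈ Finset.range n, x ^ (i + 1) / (i + 1)) - x ^ (n + 1) / (1 - x)) :
    L ≤ Real.log (1 - x) ∧ Real.log (1 - x) ≤ U := by
  have h := Real.abs_log_sub_add_sum_range_le (x := x) (by rw [abs_of_nonneg h0]; exact h1) n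
  rw [abs_of_nonneg h0] at h
  have := abs_le.1 h
  constructor <;> linarith [this.1, this.2]

theorem AV4_r9 : -0.1177831 ≤ Real.log (8/9) ∧ Real.log (8/9) ≤ -0.1177829 := by
  have := AV4_lg (1/9) 8 (-0.1177831) (-0.1177829) (by norm_num) (by norm_num)
    (by norm_num [Finset.sum_range_succ]) (by norm_num [Finset.sum_range_succ])
  norm_num at this ⊢
  exact this

theorem AV4_r16 : -0.0645386 ≤ Real.log (15/16) ∧ Real.log (15/16) ≤ -0.0645385 := by
  have := AV4_lg (1/16) 8 (-0.0645386) (-0.0645385) (by norm_num) (by norm_num)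
    (by norm_num [Finset.sum_range_succ]) (by norm_num [Finset.sum_range_succ])
  norm_num at this ⊢
  exact this

theorem AV4_r49 : -0.0206193 ≤ Real.log (48/49) ∧ Real.log (48/49) ≤ -0.0206192 := by
  have := AV4_lg (1/49) 6 (-0.0206193) (-0.0206192) (by norm_num) (by norm_num)
    (by norm_num [Finset.sum_range_succ]) (by norm_num [Finset.sum_range_succ])
  norm_num at this ⊢
  exact this

theorem AV4_r55 : -0.0183492 ≤ Real.log (54/55) ∧ Real.log (54/55) ≤ -0.0183491 := by
  have := AV4_lg (1/55) 6 (-0.0183492) (-0.0183491) (by norm_num) (by norm_num)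
    (by norm_num [Finset.sum_range_succ]) (by norm_num [Finset.sum_range_succ])
  norm_num at this ⊢
  exact this

theorem AV4_r65 : -0.0155043 ≤ Real.log (64/65) ∧ Real.log (64/65) ≤ -0.0155041 := by
  have := AV4_lg (1/65) 6 (-0.0155043) (-0.0155041) (by norm_num) (by norm_num)
    (by norm_num [Finset.sum_range_succ]) (by norm_num [Finset.sum_range_succ])
  norm_num at this ⊢
  exact this

theorem AV4_r51 : -0.0198027 ≤ Real.log (50/51) ∧ Real.log (50/51) ≤ -0.0198026 := by
  have := AV4_lg (1/51) 6 (-0.0198027) (-0.0198026) (by norm_num) (by norm_num)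
    (by norm_num [Finset.sum_range_succ]) (by norm_num [Finset.sum_range_succ])
  norm_num at this ⊢
  exact this

theorem AV4_r57 : -0.0176996 ≤ Real.log (56/57) ∧ Real.log (56/57) ≤ -0.0176995 := by
  have := AV4_lg (1/57) 6 (-0.0176996) (-0.0176995) (by norm_num) (by norm_num)
    (by norm_num [Finset.sum_range_succ]) (by norm_num [Finset.sum_range_succ])
  norm_num at this ⊢
  exact this

theorem AV4_r63 : -0.0160005 ≤ Real.log (62/63) ∧ Real.log (62/63) ≤ -0.0160003 := by
  have := AV4_lg (1/63) 6 (-0.0160005) (-0.0160003) (by norm_num) (by norm_num)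
    (by norm_num [Finset.sum_range_succ]) (by norm_num [Finset.sum_range_succ])
  norm_num at this ⊢
  exact this

theorem AV4_r48 : -0.0210535 ≤ Real.log (47/48) ∧ Real.log (47/48) ≤ -0.0210534 := by
  have := AV4_lg (1/48) 6 (-0.0210535) (-0.0210534) (by norm_num) (by norm_num)
    (by norm_num [Finset.sum_range_succ]) (by norm_num [Finset.sum_range_succ])
  norm_num at this ⊢
  exact this

theorem AV4_e9 : Real.log (8/9) = 3 * Real.log 2 - 2 * Real.log 3 := by
  rw [show (8/9:ℝ) = 2^3 / 3^2 by norm_num, Real.log_div (by norm_num) (by norm_num),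
    Real.log_pow, Real.log_pow]
  push_cast; ring

theorem AV4_e16 : Real.log (15/16) = Real.log 3 + Real.log 5 - 4 * Real.log 2 := by
  rw [show (15/16:ℝ) = 3 * 5 / 2^4 by norm_num, Real.log_div (by norm_num) (by norm_num),
    Real.log_mul (by norm_num) (by norm_num), Real.log_pow]
  push_cast; ring

theorem AV4_e49 : Real.log (48/49) = 4 * Real.log 2 + Real.log 3 - 2 * Real.log 7 := by
  rw [show (48/49:ℝ) = 2^4 * 3 / 7^2 by norm_num, Real.log_div (by norm_num) (by norm_num),
    Real.log_mul (by norm_num) (by norm_num), Real.log_pow, Real.log_pow]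
  push_cast; ring

theorem AV4_e55 : Real.log (54/55) = Real.log 2 + 3 * Real.log 3 - Real.log 5 - Real.log 11 := by
  rw [show (54/55:ℝ) = 2 * 3^3 / (5 * 11) by norm_num, Real.log_div (by norm_num) (by norm_num),
    Real.log_mul (by norm_num) (by norm_num), Real.log_mul (by norm_num) (by norm_num),
    Real.log_pow]
  push_cast; ring

theorem AV4_e65 : Real.log (64/65) = 6 * Real.log 2 - Real.log 5 - Real.log 13 := by
  rw [show (64/65:ℝ) = 2^6 / (5 * 13) by norm_num, Real.log_div (by norm_num) (by norm_num),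
    Real.log_mul (by norm_num) (by norm_num), Real.log_pow]
  push_cast; ring

theorem AV4_e51 : Real.log (50/51) = Real.log 2 + 2 * Real.log 5 - Real.log 3 - Real.log 17 := by
  rw [show (50/51:ℝ) = 2 * 5^2 / (3 * 17) by norm_num, Real.log_div (by norm_num) (by norm_num),
    Real.log_mul (by norm_num) (by norm_num), Real.log_mul (by norm_num) (by norm_num),
    Real.log_pow]
  push_cast; ring

theorem AV4_e57 : Real.log (56/57) = 3 * Real.log 2 + Real.log 7 - Real.log 3 - Real.log 19 := by
  rw [show (56/57:ℝ) = 2^3 * 7 / (3 * 19) by norm_num, Real.log_div (by norm_num) (by norm_num),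
    Real.log_mul (by norm_num) (by norm_num), Real.log_mul (by norm_num) (by norm_num),
    Real.log_pow]
  push_cast; ring

theorem AV4_e63 : Real.log (62/63) = Real.log 2 + Real.log 31 - 2 * Real.log 3 - Real.log 7 := by
  rw [show (62/63:ℝ) = 2 * 31 / (3^2 * 7) by norm_num, Real.log_div (by norm_num) (by norm_num),
    Real.log_mul (by norm_num) (by norm_num), Real.log_mul (by norm_num) (by norm_num),
    Real.log_pow]
  push_cast; ring

theorem AV4_e48 : Real.log (47/48) = Real.log 47 - 4 * Real.log 2 - Real.log 3 := by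
  rw [show (47/48:ℝ) = 47 / (2^4 * 3) by norm_num, Real.log_div (by norm_num) (by norm_num),
    Real.log_mul (by norm_num) (by norm_num), Real.log_pow]
  push_cast; ring

theorem AV4_prime (a b : ℝ) (ha : a ≠ 0) (hb : b ≠ 0) :
    Real.log (a * b) = Real.log a + Real.log b := Real.log_mul ha hb

theorem AV4_eq : eS = 165 + 11504 * Real.log 2 - 63 * Real.log 3 - 1300 * Real.log 5
    - 3255 / 2 * Real.log 7 - 3025 / 2 * Real.log 11 + 169 / 2 * Real.log 13
    + 867 / 2 * Real.log 17 + 361 * Real.log 19 + 1922 * Real.log 31 - 2209 * Real.log 47 := by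
  have l4 : Real.log 4 = 2 * Real.log 2 := by
    rw [show (4:ℝ) = 2^2 by norm_num, Real.log_pow]; push_cast; ring
  have l6 : Real.log 6 = Real.log 2 + Real.log 3 := by
    rw [show (6:ℝ) = 2 * 3 by norm_num, Real.log_mul (by norm_num) (by norm_num)]
  have l8 : Real.log 8 = 3 * Real.log 2 := by
    rw [show (8:ℝ) = 2^3 by norm_num, Real.log_pow]; push_cast; ring
  have l10 : Real.log 10 = Real.log 2 + Real.log 5 := by
    rw [show (10:ℝ) = 2 * 5 by norm_num, Real.log_mul (by norm_num) (by norm_num)]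
  have l15 : Real.log 15 = Real.log 3 + Real.log 5 := by
    rw [show (15:ℝ) = 3 * 5 by norm_num, Real.log_mul (by norm_num) (by norm_num)]
  have l28 : Real.log 28 = 2 * Real.log 2 + Real.log 7 := by
    rw [show (28:ℝ) = 2^2 * 7 by norm_num, Real.log_mul (by norm_num) (by norm_num),
      Real.log_pow]; push_cast; ring
  have l30 : Real.log 30 = Real.log 2 + Real.log 3 + Real.log 5 := by
    rw [show (30:ℝ) = 2 * 3 * 5 by norm_num, Real.log_mul (by norm_num) (by norm_num),
      Real.log_mul (by norm_num) (by norm_num)]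
  have l32 : Real.log 32 = 5 * Real.log 2 := by
    rw [show (32:ℝ) = 2^5 by norm_num, Real.log_pow]; push_cast; ring
  have l34 : Real.log 34 = Real.log 2 + Real.log 17 := by
    rw [show (34:ℝ) = 2 * 17 by norm_num, Real.log_mul (by norm_num) (by norm_num)]
  have l36 : Real.log 36 = 2 * Real.log 2 + 2 * Real.log 3 := by
    rw [show (36:ℝ) = 2^2 * 3^2 by norm_num, Real.log_mul (by norm_num) (by norm_num),
      Real.log_pow, Real.log_pow]; push_cast; ring
  have l38 : Real.log 38 = Real.log 2 + Real.log 19 := by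
    rw [show (38:ℝ) = 2 * 19 by norm_num, Real.log_mul (by norm_num) (by norm_num)]
  have l40 : Real.log 40 = 3 * Real.log 2 + Real.log 5 := by
    rw [show (40:ℝ) = 2^3 * 5 by norm_num, Real.log_mul (by norm_num) (by norm_num),
      Real.log_pow]; push_cast; ring
  have l42 : Real.log 42 = Real.log 2 + Real.log 3 + Real.log 7 := by
    rw [show (42:ℝ) = 2 * 3 * 7 by norm_num, Real.log_mul (by norm_num) (by norm_num),
      Real.log_mul (by norm_num) (by norm_num)]
  have l45 : Real.log 45 = 2 * Real.log 3 + Real.log 5 := by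
    rw [show (45:ℝ) = 3^2 * 5 by norm_num, Real.log_mul (by norm_num) (by norm_num),
      Real.log_pow]; push_cast; ring
  have l48 : Real.log 48 = 4 * Real.log 2 + Real.log 3 := by
    rw [show (48:ℝ) = 2^4 * 3 by norm_num, Real.log_mul (by norm_num) (by norm_num),
      Real.log_pow]; push_cast; ring
  have l49 : Real.log 49 = 2 * Real.log 7 := by
    rw [show (49:ℝ) = 7^2 by norm_num, Real.log_pow]; push_cast; ring
  have l55 : Real.log 55 = Real.log 5 + Real.log 11 := by
    rw [show (55:ℝ) = 5 * 11 by norm_num, Real.log_mul (by norm_num) (by norm_num)]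
  have l62 : Real.log 62 = Real.log 2 + Real.log 31 := by
    rw [show (62:ℝ) = 2 * 31 by norm_num, Real.log_mul (by norm_num) (by norm_num)]
  unfold eS iphi en IF GG
  norm_num [Real.log_neg_eq_log, l4, l6, l8, l10, l15, l28, l30, l32, l34, l36, l38, l40, l42,
    l45, l48, l49, l55, l62]
  ring

theorem V4_eS : eS ≤ -212 := by
  rw [AV4_eq]
  have h2a := Real.log_two_gt_d9
  have h2b := Real.log_two_lt_d9
  have r9 := AV4_r9
  have r16 := AV4_r16
  have r49 := AV4_r49
  have r55 := AV4_r55
  have r65 := AV4_r65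
  have r51 := AV4_r51
  have r57 := AV4_r57
  have r63 := AV4_r63
  have r48 := AV4_r48
  rw [AV4_e9] at r9
  rw [AV4_e16] at r16
  rw [AV4_e49] at r49
  rw [AV4_e55] at r55
  rw [AV4_e65] at r65
  rw [AV4_e51] at r51
  rw [AV4_e57] at r57
  rw [AV4_e63] at r63
  rw [AV4_e48] at r48
  obtain ⟨a9, b9⟩ := r9
  obtain ⟨a16, b16⟩ := r16
  obtain ⟨a49, b49⟩ := r49
  obtain ⟨a55, b55⟩ := r55
  obtain ⟨a65, b65⟩ := r65
  obtain ⟨a51, b51⟩ := r51
  obtain ⟨a57, b57⟩ := r57
  obtain ⟨a63, b63⟩ := r63
  obtain ⟨a48, b48⟩ := r48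
  norm_num at *
  linarith

end Pool.Agent.H312R.ZA
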