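import Pool.Agent.H312R.ZA.Defs

/-!
# AW1: the weight at the summation points
-/

open Polynomial Pool.Agent.H337R2 Pool.Agent.H336R2.Z5

namespace Pool.Agent.H312R.ZA

noncomputable section

private lemma W1_aux_brick {n : ℕ} (s : ℕ) (d w : ℕ) (hdw : d + w = 12) :
    ∏ k ∈ Finset.Icc (d * n) (24 * n - d * n), (tau n s + (k : ℝ))
      = ∏ j ∈ Finset.range (2 * w * n + 1), ((us n s : ℝ) / 2 - w * n + j) := by
  have h24 : 24 * n - d * n = d * n + 2 * w * n := by
    have : 24 * n = d * n + (d * n + 2 * w * n) := by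
      have h1 : 24 = d + (d + 2 * w) := by omega
      calc 24 * n = (d + (d + 2 * w)) * n := by rw [← h1]
        _ = _ := by ring
    omega
  have hIcc : Finset.Icc (d * n) (d * n + 2 * w * n) = Finset.Ico (d * n) (d * n + 2 * w * n + 1) := by
    ext k; rw [Finset.mem_Icc, Finset.mem_Ico]; omega
  rw [h24, hIcc, Finset.prod_Ico_eq_prod_range]
  have h2 : d * n + 2 * w * n + 1 - d * n = 2 * w * n + 1 := by omega
  rw [h2]
  refine Finset.prod_congr rfl fun j _ => ?_
  have hd : (d : ℝ) + (w : ℝ) = 12 := by exact_mod_cast hdw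
  unfold tau us
  push_cast
  linear_combination (n : ℝ) * hd

theorem W1_formula {n : ℕ} (hn : 1 ≤ n) (s : ℕ) :
    Rr n (tau n s) = ((18 * n).factorial : ℝ) ^ 2 * ((16 * n).factorial : ℝ) ^ 2 * ((14 * n).factorial : ℝ) ^ 2 *
      (us n s : ℝ) /
      ((∏ j ∈ Finset.range (18 * n + 1), ((us n s : ℝ) / 2 - 9 * n + j)) ^ 2 *
       (∏ j ∈ Finset.range (16 * n + 1), ((us n s : ℝ) / 2 - 8 * n + j)) ^ 2 *
       (∏ j ∈ Finset.range (14 * n + 1), ((us n s : ℝ) / 2 - 7 * n + j)) ^ 2) := by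
  have b3 := W1_aux_brick (n := n) s 3 9 rfl
  have b4 := W1_aux_brick (n := n) s 4 8 rfl
  have b5 := W1_aux_brick (n := n) s 5 7 rfl
  have hQ : aeval (tau n s) (QQ (sN n) (muN n)) =
      (∏ j ∈ Finset.range (18 * n + 1), ((us n s : ℝ) / 2 - 9 * n + j)) ^ 2 *
       (∏ j ∈ Finset.range (16 * n + 1), ((us n s : ℝ) / 2 - 8 * n + j)) ^ 2 *
       (∏ j ∈ Finset.range (14 * n + 1), ((us n s : ℝ) / 2 - 7 * n + j)) ^ 2 := by
    unfold QQ
    rw [map_prod]
    have h1 : ∀ k ∈ sN n, aeval (tau n s) ((X + C (k : ℚ)) ^ muN n k) = (tau n s + (k : ℝ)) ^ mu 24 n dz k := by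
      intro k _
      rw [map_pow, map_add, aeval_X, aeval_C]
      simp
    rw [Finset.prod_congr rfl h1]
    have h2 := prod_mu (M := ℝ) 24 2 n dz hn (by simp) (by simp) (fun k => tau n s + (k : ℝ))
    rw [h2]
    simp only [dz, List.map_cons, List.map_nil, List.prod_cons, List.prod_nil, b3, b4, b5]
    norm_num
    ring
  have hP : aeval (tau n s) (PPn n) =
      ((18 * n).factorial : ℝ) ^ 2 * ((16 * n).factorial : ℝ) ^ 2 * ((14 * n).factorial : ℝ) ^ 2 *
      (us n s : ℝ) := by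
    unfold PPn PP NN cst
    simp only [map_mul, map_add, aeval_X, aeval_C, dz, List.map_cons, List.map_nil, List.prod_cons,
      List.prod_nil, pow_zero, mul_one, Finset.prod_const_one, map_one, Nat.mul_zero, div_one, map_ofNat]
    unfold tau us
    push_cast
    norm_num
    ring
  unfold Rr
  rw [hQ, hP]

end

end Pool.Agent.H312R.ZA
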