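import Pool.Agent.H312R.ZA.Defs
import Pool.Agent.H312R.ZA.AP12
import Pool.Agent.H312R.ZA.AW1

/-!
# W2: upper bound for the weight
-/

open Polynomial Pool.Agent.H337R2 Pool.Agent.H336R2.Z5 Filter Topology

namespace Pool.Agent.H312R.ZA

noncomputable section

lemma W2_Psi_scale {r : ℝ} (hr : 0 < r) (z : ℝ) :
    Psi (r * z) = r * Psi z + r * z * Real.log r := by
  unfold Psi
  by_cases hz : z = 0
  · simp [hz]
  · rw [Real.log_mul hr.ne' hz]
    ring

lemma W2_ff_scale {r : ℝ} (hr : 0 < r) (v b : ℝ) :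
    ff (r * v) (r * b) = r * ff v b + 2 * b * r * Real.log r := by
  unfold ff
  rw [← mul_add, ← mul_sub, W2_Psi_scale hr, W2_Psi_scale hr]
  ring

lemma W2_ff_zero (v : ℝ) : ff v 0 = 0 := by
  unfold ff
  rw [add_zero, sub_zero, sub_self]

/-- an upper bound for the factorial -/
lemma W2_fact (N : ℕ) (hN : 1 ≤ N) :
    Real.log (N.factorial : ℝ) ≤ ((N : ℝ) + 1) * Real.log N - N + 1 := by
  induction N, hN using Nat.le_induction with
  | base => simp
  | succ N hN ih =>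
    have hN0 : (0 : ℝ) < N := by exact_mod_cast hN
    rw [Nat.factorial_succ, Nat.cast_mul, Real.log_mul (by positivity) (by positivity)]
    have h1 : 1 ≤ ((N : ℝ) + 1) * (Real.log (N + 1) - Real.log N) := by
      rw [← Real.log_div (by positivity) hN0.ne']
      have h2 := Real.one_sub_inv_le_log_of_pos (show 0 < ((N : ℝ) + 1) / N by positivity)
      rw [inv_div] at h2
      have h3 : 1 - (N : ℝ) / (N + 1) = 1 / (N + 1) := by
        field_simp
        ring
      rw [h3] at h2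
      have h4 : 1 = ((N : ℝ) + 1) * (1 / (N + 1)) := by field_simp
      calc 1 = ((N : ℝ) + 1) * (1 / (N + 1)) := h4
        _ ≤ _ := mul_le_mul_of_nonneg_left h2 (by positivity)
    push_cast
    linarith

lemma W2_prod (x : ℝ) (N : ℕ) :
    x * ∏ j ∈ Finset.range (2 * N + 1), (x - N + j) =
      ∏ i ∈ Finset.range (N + 1), (x ^ 2 - (i : ℝ) ^ 2) := by
  induction N with
  | zero => simp; ring
  | succ N ih =>
    rw [Finset.prod_range_succ _ (N + 1), ← ih, show 2 * (N + 1) + 1 = (2 * N + 1) + 1 + 1 by ring,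
      Finset.prod_range_succ, Finset.prod_range_succ']
    have e : ∏ k ∈ Finset.range (2 * N + 1), (x - ((N + 1 : ℕ) : ℝ) + ((k + 1 : ℕ) : ℝ)) =
        ∏ j ∈ Finset.range (2 * N + 1), (x - N + j) := by
      refine Finset.prod_congr rfl (fun k _ => ?_)
      push_cast
      ring
    rw [e]
    push_cast
    ring

/-- lower bound for one product -/
lemma W2_low {C1 : ℝ} (hP1 : ∀ k N A u : ℕ, 1 ≤ k → k ≤ 86 → 1 ≤ u →
    |∑ j ∈ (Finset.range N).filter (fun j => A + k * j ≠ u), Real.log |(u : ℝ) ^ 2 - ((A : ℝ) + k * j) ^ 2|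
        - (ff u ((A : ℝ) + k * N) - ff u A) / k| ≤ C1 * Real.log ((u : ℝ) + A + k * N + 2))
    {u N : ℕ} (hu : 1 ≤ u) (hne : ∀ j, j ≤ N → 2 * j ≠ u) :
    (∏ j ∈ Finset.range (2 * N + 1), ((u : ℝ) / 2 - N + j)) ≠ 0 ∧
    ff u (2 * N) / 2 - Real.log ((u : ℝ) / 2) - ((N : ℝ) + 1) * Real.log 4 -
        C1 * Real.log ((u : ℝ) + 2 * N + 2) ≤
      Real.log (∏ j ∈ Finset.range (2 * N + 1), ((u : ℝ) / 2 - N + j)) := by
  have hu0 : (0 : ℝ) < u := by exact_mod_cast hu
  have hfac : ∀ i, i ≤ N → ((u : ℝ) ^ 2 - (2 * (i : ℝ)) ^ 2) ≠ 0 := by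
    intro i hi h
    have h1 : ((u : ℝ) - 2 * i) * (u + 2 * i) = 0 := by linear_combination h
    rcases mul_eq_zero.mp h1 with h2 | h2
    · have h3 : (2 * (i : ℝ)) = u := by linarith
      exact hne i hi (by exact_mod_cast h3)
    · have : (0 : ℝ) ≤ i := Nat.cast_nonneg i
      linarith
  have hprod := W2_prod ((u : ℝ) / 2) N
  have e1 : ∏ i ∈ Finset.range (N + 1), (((u : ℝ) / 2) ^ 2 - (i : ℝ) ^ 2) =
      ∏ i ∈ Finset.range (N + 1), (((u : ℝ) ^ 2 - (2 * (i : ℝ)) ^ 2) / 4) :=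
    Finset.prod_congr rfl (fun i _ => by ring)
  rw [e1] at hprod
  have hrhs : ∏ i ∈ Finset.range (N + 1), (((u : ℝ) ^ 2 - (2 * (i : ℝ)) ^ 2) / 4) ≠ 0 := by
    rw [Finset.prod_ne_zero_iff]
    intro i hi
    rw [Finset.mem_range] at hi
    exact div_ne_zero (hfac i (by omega)) (by norm_num)
  have hP0 : (∏ j ∈ Finset.range (2 * N + 1), ((u : ℝ) / 2 - N + j)) ≠ 0 := by
    intro h
    rw [h, mul_zero] at hprod
    exact hrhs hprod.symm
  refine ⟨hP0, ?_⟩
  have hlog : Real.log ((u : ℝ) / 2) +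
      Real.log (∏ j ∈ Finset.range (2 * N + 1), ((u : ℝ) / 2 - N + j)) =
      ∑ i ∈ Finset.range (N + 1), (Real.log |(u : ℝ) ^ 2 - (2 * (i : ℝ)) ^ 2| - Real.log 4) := by
    rw [← Real.log_mul (by positivity) hP0, hprod, Real.log_prod]
    · refine Finset.sum_congr rfl (fun i hi => ?_)
      rw [Finset.mem_range] at hi
      rw [Real.log_div (hfac i (by omega)) (by norm_num), Real.log_abs]
    · intro i hi
      rw [Finset.mem_range] at hi
      exact div_ne_zero (hfac i (by omega)) (by norm_num)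
  have hlast : 0 ≤ Real.log |(u : ℝ) ^ 2 - (2 * (N : ℝ)) ^ 2| := by
    apply Real.log_nonneg
    have h1 : ((u : ℤ) ^ 2 - (2 * (N : ℤ)) ^ 2) ≠ 0 := by
      intro h
      apply hfac N le_rfl
      exact_mod_cast h
    have h2 := Int.one_le_abs h1
    exact_mod_cast h2
  have hp := hP1 2 N 0 u (by norm_num) (by norm_num) hu
  have hfilt : (Finset.range N).filter (fun j => 0 + 2 * j ≠ u) = Finset.range N := by
    apply Finset.filter_true_of_mem
    intro j hj
    rw [Finset.mem_range] at hj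
    rw [zero_add]
    exact hne j hj.le
  rw [hfilt] at hp
  push_cast at hp
  simp only [zero_add, add_zero, W2_ff_zero, sub_zero] at hp
  have hp2 := (abs_le.mp hp).1
  rw [Finset.sum_sub_distrib, Finset.sum_range_succ, Finset.sum_const, Finset.card_range,
    nsmul_eq_mul] at hlog
  push_cast at hlog
  linarith

lemma W2_us (n s : ℕ) : (us n s : ℝ) = 16 * n + 1 + s := by
  unfold us
  push_cast
  ring

lemma W2_xr (n s : ℕ) : xr n (tau n s) = ((us n s : ℝ) ^ 2 - 576 * (n : ℝ) ^ 2) / 4 := by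
  unfold xr tau
  rw [W2_us]
  push_cast
  ring

lemma W2_x {u n : ℝ} (hu : 0 ≤ u) (hn : 0 ≤ n) (h : u ≤ 700 * n) :
    |(u ^ 2 - 576 * n ^ 2) / 4| ≤ 122500 * n ^ 2 := by
  have h1 : u ^ 2 ≤ (700 * n) ^ 2 := pow_le_pow_left₀ hu h 2
  have h2 : (700 * n) ^ 2 = 490000 * n ^ 2 := by ring
  have h3 : 0 ≤ n ^ 2 := sq_nonneg n
  have h4 : 0 ≤ u ^ 2 := sq_nonneg u
  rw [h2] at h1
  rw [abs_le]
  constructor <;> linarith

lemma W2_wn {w n : ℝ} (hn : 0 ≤ n) (hw : w ≤ 18) : w * n ≤ 720 * n := by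
  apply mul_le_mul_of_nonneg_right _ hn
  linarith

theorem W2_weight : ∃ (C : ℝ) (K : ℕ), 0 < C ∧ ∀ n : ℕ, 1 ≤ n → ∀ s : ℕ, us n s ≤ 700 * n →
    |Wt n s| ≤ C * (n : ℝ) ^ K * Real.exp (n * phi ((us n s : ℝ) / n)) := by
  obtain ⟨C1, hC1, hP1⟩ := P1_logsum
  obtain ⟨K0, hK0⟩ : ∃ K0 : ℕ, (31 + 6 * C1 : ℝ) ≤ K0 := ⟨⌈(31 + 6 * C1 : ℝ)⌉₊, Nat.le_ceil _⟩
  refine ⟨7 * 122500 ^ 49 * 720 ^ K0, K0 + 98, by positivity, ?_⟩
  intro n hn s hs
  have hn1 : (1 : ℝ) ≤ n := by exact_mod_cast hn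
  have hn0 : (0 : ℝ) < n := by linarith
  by_cases hW : Wt n s = 0
  · rw [hW, abs_zero]
    positivity
  -- the point is odd, or at least `24 n`
  have hcase : Odd (us n s) ∨ 24 * n ≤ us n s := by
    unfold Wt at hW
    by_cases hev : Even s
    · left
      unfold us
      obtain ⟨t, ht⟩ := hev
      exact ⟨8 * n + t, by omega⟩
    · right
      rw [if_neg hev] at hW
      by_cases h8 : 8 * n ≤ s + 1
      · unfold us
        omega
      · rw [if_neg h8, zero_mul] at hW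
        exact absurd rfl hW
  have hu1 : 1 ≤ us n s := by unfold us; omega
  have hne : ∀ j, j ≤ 9 * n → 2 * j ≠ us n s := by
    intro j hj h
    rcases hcase with h1 | h1
    · rw [← h] at h1
      exact (Nat.not_odd_iff_even.2 ⟨j, by ring⟩) h1
    · omega
  obtain ⟨u, hu⟩ : ∃ u : ℕ, u = us n s := ⟨_, rfl⟩
  have hR := W1_formula hn s
  have hX := W2_xr n s
  rw [← hu] at hs hcase hu1 hne hR hX ⊢
  have huR0 : (0 : ℝ) < u := by exact_mod_cast hu1
  have huR : (u : ℝ) ≤ 700 * n := by exact_mod_cast hs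
  -- the three products
  obtain ⟨h9z, h9⟩ := W2_low hP1 (N := 9 * n) hu1 hne
  obtain ⟨h8z, h8⟩ := W2_low hP1 (N := 8 * n) hu1 (fun j hj => hne j (by omega))
  obtain ⟨h7z, h7⟩ := W2_low hP1 (N := 7 * n) hu1 (fun j hj => hne j (by omega))
  rw [show 2 * (9 * n) + 1 = 18 * n + 1 by ring] at h9z h9
  rw [show 2 * (8 * n) + 1 = 16 * n + 1 by ring] at h8z h8
  rw [show 2 * (7 * n) + 1 = 14 * n + 1 by ring] at h7z h7
  push_cast at h9z h9 h8z h8 h7z h7
  set Λ : ℝ := Real.log (720 * n) with hΛ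
  have hΛ1 : 1 ≤ Λ := by
    rw [hΛ, Real.le_log_iff_exp_le (by positivity)]
    have := Real.exp_one_lt_d9
    linarith
  -- logarithms
  have l9 : Real.log ((u : ℝ) + 2 * (9 * n) + 2) ≤ Λ := Real.log_le_log (by positivity) (by linarith)
  have l8 : Real.log ((u : ℝ) + 2 * (8 * n) + 2) ≤ Λ := Real.log_le_log (by positivity) (by linarith)
  have l7 : Real.log ((u : ℝ) + 2 * (7 * n) + 2) ≤ Λ := Real.log_le_log (by positivity) (by linarith)
  have lu : Real.log (u : ℝ) ≤ Λ := Real.log_le_log (by positivity) (by linarith)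
  have lu2 : Real.log ((u : ℝ) / 2) ≤ Λ := Real.log_le_log (by positivity) (by linarith)
  have l4 : Real.log 4 ≤ 2 := by
    rw [show (4 : ℝ) = 2 ^ 2 by norm_num, Real.log_pow]
    have := Real.log_two_lt_d9
    push_cast
    linarith
  have hfac : ∀ w : ℕ, 1 ≤ w → w ≤ 18 → Real.log (((w * n).factorial : ℕ) : ℝ) ≤
      w * n * (Real.log w + Real.log n) + Λ - w * n + 1 := by
    intro w hw1 hw2
    have hwn : 1 ≤ w * n := Nat.mul_pos hw1 hn
    have h1 := W2_fact (w * n) hwn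
    have hwR : (0 : ℝ) < w := by exact_mod_cast hw1
    push_cast at h1
    have h2 : Real.log ((w : ℝ) * n) = Real.log w + Real.log n :=
      Real.log_mul hwR.ne' hn0.ne'
    have h3 : Real.log ((w : ℝ) * n) ≤ Λ := by
      apply Real.log_le_log (by positivity)
      exact W2_wn hn0.le (by exact_mod_cast hw2)
    rw [← h2]
    linarith
  have f18 := hfac 18 (by norm_num) (by norm_num)
  have f16 := hfac 16 (by norm_num) (by norm_num)
  have f14 := hfac 14 (by norm_num) (by norm_num)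
  push_cast at f18 f16 f14
  -- scaling
  have hsc : ∀ b : ℝ, ff u (n * b) = n * ff ((u : ℝ) / n) b + 2 * b * n * Real.log n := by
    intro b
    have h := W2_ff_scale hn0 ((u : ℝ) / n) b
    rwa [mul_div_cancel₀ _ hn0.ne'] at h
  have s18 := hsc 18
  have s16 := hsc 16
  have s14 := hsc 14
  rw [show (2 : ℝ) * (9 * n) = n * 18 by ring, s18] at h9
  rw [show (2 : ℝ) * (8 * n) = n * 16 by ring, s16] at h8
  rw [show (2 : ℝ) * (7 * n) = n * 14 by ring, s14] at h7
  rw [show (2 : ℝ) * (9 * n) = n * 18 by ring] at l9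
  rw [show (2 : ℝ) * (8 * n) = n * 16 by ring] at l8
  rw [show (2 : ℝ) * (7 * n) = n * 14 by ring] at l7
  have g36 : Real.log 36 = Real.log 18 + Real.log 2 := by
    rw [← Real.log_mul (by norm_num) (by norm_num)]; norm_num
  have g32 : Real.log 32 = Real.log 16 + Real.log 2 := by
    rw [← Real.log_mul (by norm_num) (by norm_num)]; norm_num
  have g28 : Real.log 28 = Real.log 14 + Real.log 2 := by
    rw [← Real.log_mul (by norm_num) (by norm_num)]; norm_num
  have g4 : Real.log 4 = 2 * Real.log 2 := by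
    rw [show (4 : ℝ) = 2 ^ 2 by norm_num, Real.log_pow]; push_cast; ring
  rw [g4] at h9 h8 h7 l4
  -- the logarithm of the rational function
  set P9 : ℝ := ∏ j ∈ Finset.range (18 * n + 1), ((u : ℝ) / 2 - 9 * n + j) with hP9
  set P8 : ℝ := ∏ j ∈ Finset.range (16 * n + 1), ((u : ℝ) / 2 - 8 * n + j) with hP8
  set P7 : ℝ := ∏ j ∈ Finset.range (14 * n + 1), ((u : ℝ) / 2 - 7 * n + j) with hP7
  have F18 : (0 : ℝ) < ((18 * n).factorial : ℝ) := by positivity
  have F16 : (0 : ℝ) < ((16 * n).factorial : ℝ) := by positivity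
  have F14 : (0 : ℝ) < ((14 * n).factorial : ℝ) := by positivity
  have hR0 : Rr n (tau n s) ≠ 0 := by
    rw [hR]
    exact div_ne_zero (by positivity) (mul_ne_zero (mul_ne_zero (pow_ne_zero 2 h9z)
      (pow_ne_zero 2 h8z)) (pow_ne_zero 2 h7z))
  have hlogR : Real.log |Rr n (tau n s)| = 2 * Real.log ((18 * n).factorial : ℝ) +
      2 * Real.log ((16 * n).factorial : ℝ) + 2 * Real.log ((14 * n).factorial : ℝ) +
      Real.log u - (2 * Real.log P9 + 2 * Real.log P8 + 2 * Real.log P7) := by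
    rw [Real.log_abs, hR, Real.log_div (by positivity) (mul_ne_zero (mul_ne_zero
      (pow_ne_zero 2 h9z) (pow_ne_zero 2 h8z)) (pow_ne_zero 2 h7z)),
      Real.log_mul (by positivity) (by positivity), Real.log_mul (by positivity) (by positivity),
      Real.log_mul (by positivity) (by positivity),
      Real.log_mul (mul_ne_zero (pow_ne_zero 2 h9z) (pow_ne_zero 2 h8z)) (pow_ne_zero 2 h7z),
      Real.log_mul (pow_ne_zero 2 h9z) (pow_ne_zero 2 h8z)]
    simp only [Real.log_pow]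
    push_cast
    ring
  have hbound : Real.log |Rr n (tau n s)| ≤ n * phi ((u : ℝ) / n) + (31 + 6 * C1) * Λ := by
    have c9 := mul_le_mul_of_nonneg_left l9 hC1.le
    have c8 := mul_le_mul_of_nonneg_left l8 hC1.le
    have c7 := mul_le_mul_of_nonneg_left l7 hC1.le
    have hphi : n * phi ((u : ℝ) / n) =
        (n * (36 * (Real.log 18 + Real.log 2)) - 36 * n - n * ff ((u : ℝ) / n) 18) +
        (n * (32 * (Real.log 16 + Real.log 2)) - 32 * n - n * ff ((u : ℝ) / n) 16) +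
        (n * (28 * (Real.log 14 + Real.log 2)) - 28 * n - n * ff ((u : ℝ) / n) 14) := by
      unfold phi
      rw [g36, g32, g28]
      ring
    rw [hlogR, hphi]
    clear hR hX hne hcase hfac hsc s18 s16 s14 hlogR hphi hP1 hK0 hW h9z h8z h7z hR0
    linarith [hΛ1, l4, lu, lu2, f18, f16, f14, h9, h8, h7, c9, c8, c7]
  have hexp : |Rr n (tau n s)| ≤ Real.exp (n * phi ((u : ℝ) / n)) * (720 ^ K0 * (n : ℝ) ^ K0) := by
    have h1 : |Rr n (tau n s)| = Real.exp (Real.log |Rr n (tau n s)|) :=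
      (Real.exp_log (abs_pos.2 hR0)).symm
    rw [h1]
    have h2 : Real.log |Rr n (tau n s)| ≤ n * phi ((u : ℝ) / n) + K0 * Λ := by
      have := mul_le_mul_of_nonneg_right hK0 (show 0 ≤ Λ by linarith)
      linarith
    refine (Real.exp_le_exp.2 h2).trans (le_of_eq ?_)
    rw [Real.exp_add, ← mul_pow]
    congr 1
    rw [← Real.rpow_natCast (720 * (n : ℝ)) K0, Real.rpow_def_of_pos (by positivity), mul_comm]
  have hx : |xr n (tau n s)| ≤ 122500 * (n : ℝ) ^ 2 := by
    rw [hX]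
    exact W2_x huR0.le hn0.le huR
  have hfactor : |(if Even s then (-1 : ℝ) else if 8 * n ≤ s + 1 then 7 else 0)| ≤ 7 := by
    split_ifs <;> norm_num
  have hWt : |Wt n s| = |(if Even s then (-1 : ℝ) else if 8 * n ≤ s + 1 then 7 else 0)| *
      (|Rr n (tau n s)| * |xr n (tau n s)| ^ 49) := by
    unfold Wt
    rw [abs_mul, abs_mul, abs_pow]
  rw [hWt]
  calc |(if Even s then (-1 : ℝ) else if 8 * n ≤ s + 1 then 7 else 0)| *
      (|Rr n (tau n s)| * |xr n (tau n s)| ^ 49)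
      ≤ 7 * ((Real.exp (n * phi ((u : ℝ) / n)) * (720 ^ K0 * (n : ℝ) ^ K0)) *
          (122500 * (n : ℝ) ^ 2) ^ 49) := by
        apply mul_le_mul hfactor _ (by positivity) (by norm_num)
        apply mul_le_mul hexp (pow_le_pow_left₀ (abs_nonneg _) hx 49) (by positivity)
          (by positivity)
    _ = 7 * 122500 ^ 49 * 720 ^ K0 * (n : ℝ) ^ (K0 + 98) * Real.exp (n * phi ((u : ℝ) / n)) := by
        rw [mul_pow, ← pow_mul, pow_add]
        ring

end

end Pool.Agent.H312R.ZA
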