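import Pool.Agent.H312R.ZA.AN
import Pool.Agent.H337R2.Stir

/-! Task AW3 (helper305): far points, with the hypothesis `W1_formula`. -/

open Polynomial Pool.Agent.H337R2 Pool.Agent.H336R2.Z5 Filter Topology

namespace Pool.Agent.H312R.ZA

noncomputable section

namespace W3

lemma prod_lower (N : ℕ) (a : ℝ) (ha : (N : ℝ) ≤ a) :
    (a ^ 2 - (N : ℝ) ^ 2) ^ (2 * N + 1) ≤ (∏ j ∈ Finset.range (2 * N + 1), (a - N + j)) ^ 2 := by
  have h1 : (∏ j ∈ Finset.range (2 * N + 1), (a - N + (j : ℝ))) ^ 2 =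
      ∏ j ∈ Finset.range (2 * N + 1), ((a - N + (j : ℝ)) * (a + N - j)) := by
    rw [Finset.prod_mul_distrib, sq]
    congr 1
    rw [← Finset.prod_range_reflect]
    refine Finset.prod_congr rfl fun j hj => ?_
    have hj' : j ≤ 2 * N := by have := Finset.mem_range.1 hj; omega
    have : ((2 * N + 1 - 1 - j : ℕ) : ℝ) = 2 * N - j := by
      rw [show 2 * N + 1 - 1 - j = 2 * N - j by omega, Nat.cast_sub hj']
      push_cast; ring
    rw [this]; ring
  rw [h1]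
  calc (a ^ 2 - (N : ℝ) ^ 2) ^ (2 * N + 1) = ∏ _j ∈ Finset.range (2 * N + 1), (a ^ 2 - (N : ℝ) ^ 2) := by
        rw [Finset.prod_const, Finset.card_range]
    _ ≤ _ := by
        refine Finset.prod_le_prod (fun j _ => ?_) fun j hj => ?_
        · nlinarith
        · have hj' : (j : ℝ) ≤ 2 * N := by
            have := Finset.mem_range.1 hj
            exact_mod_cast (show j ≤ 2 * N by omega)
          nlinarith [mul_nonneg (Nat.cast_nonneg j : (0 : ℝ) ≤ j) (sub_nonneg.2 hj')]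

/-- the numerical inequality -/
lemma numer : 2 * (xl 18 + xl 16 + xl 14) - 96 - 4 * Real.log 350 + 48 / 1000 ≤ 297 / 2 := by
  have h2 := Real.log_two_lt_d9
  have h2' := Real.log_two_gt_d9
  have e16 : Real.log 16 = 4 * Real.log 2 := by
    rw [show (16 : ℝ) = 2 ^ 4 by norm_num, Real.log_pow]; norm_num
  have e18 : Real.log 18 = Real.log 2 + Real.log 9 := by
    rw [← Real.log_mul (by norm_num) (by norm_num)]; norm_num
  have e9 : Real.log 9 = 3 * Real.log 2 + Real.log (9 / 8) := by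
    rw [show (9 : ℝ) = 2 ^ 3 * (9 / 8) by norm_num, Real.log_mul (by norm_num) (by norm_num),
      Real.log_pow]; norm_num
  have e14 : Real.log 14 = Real.log 2 + Real.log 7 := by
    rw [← Real.log_mul (by norm_num) (by norm_num)]; norm_num
  have e7 : Real.log 7 = 3 * Real.log 2 + Real.log (7 / 8) := by
    rw [show (7 : ℝ) = 2 ^ 3 * (7 / 8) by norm_num, Real.log_mul (by norm_num) (by norm_num),
      Real.log_pow]; norm_num
  have e350 : Real.log 350 = Real.log 2 + 2 * Real.log 5 + Real.log 7 := by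
    rw [show (350 : ℝ) = 2 * 5 ^ 2 * 7 by norm_num, Real.log_mul (by norm_num) (by norm_num),
      Real.log_mul (by norm_num) (by norm_num), Real.log_pow]; norm_num
  have e5 : Real.log 5 = 2 * Real.log 2 - Real.log (4 / 5) := by
    rw [show (5 : ℝ) = 2 ^ 2 / (4 / 5) by norm_num, Real.log_div (by norm_num) (by norm_num),
      Real.log_pow]; norm_num
  have b9 : Real.log (9 / 8) ≤ 9 / 8 - 1 := Real.log_le_sub_one_of_pos (by norm_num)
  have b7 : Real.log (7 / 8) ≤ 7 / 8 - 1 := Real.log_le_sub_one_of_pos (by norm_num)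
  have b5 : Real.log (4 / 5) ≤ 4 / 5 - 1 := Real.log_le_sub_one_of_pos (by norm_num)
  unfold xl
  rw [e350, e18, e16, e14, e9, e7, e5]
  linarith

lemma fac_bd {n : ℕ} (hn : 1 ≤ n) (c : ℕ) :
    ((c * n).factorial : ℝ) ≤ Real.exp 1 * ((c + 1) * n) *
      Real.exp (n * xl c + c * n * Real.log n - c * n) := by
  have hn0 : (0 : ℝ) < n := by exact_mod_cast hn
  have hn1 : (1 : ℝ) ≤ n := by exact_mod_cast hn
  have h := fac_up (c * n)
  have e : xl ((c * n : ℕ) : ℝ) = n * xl c + c * n * Real.log n := by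
    rw [Nat.cast_mul, mul_comm (c : ℝ) n, xl_scale hn0 (Nat.cast_nonneg c)]
  rw [e] at h
  have e2 : Real.exp (n * xl c + c * n * Real.log n - c * n) =
      Real.exp (n * xl c + c * n * Real.log n) / Real.exp ((c * n : ℕ) : ℝ) := by
    rw [← Real.exp_sub]; push_cast; rfl
  rw [e2, ← mul_div_assoc, le_div_iff₀ (Real.exp_pos _)]
  refine h.trans ?_
  apply mul_le_mul_of_nonneg_right _ (Real.exp_pos _).le
  apply mul_le_mul_of_nonneg_left _ (Real.exp_pos _).le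
  push_cast
  nlinarith [h]

/-- the factorials together -/
lemma F_bd {n : ℕ} (hn : 1 ≤ n) :
    ((18 * n).factorial : ℝ) ^ 2 * ((16 * n).factorial : ℝ) ^ 2 * ((14 * n).factorial : ℝ) ^ 2 ≤
      (Real.exp 1 ^ 6 * 4845 ^ 2) * (n : ℝ) ^ 6 *
        Real.exp (n * (2 * (xl 18 + xl 16 + xl 14) - 96) + 96 * n * Real.log n) := by
  have h18 := fac_bd hn 18
  have h16 := fac_bd hn 16
  have h14 := fac_bd hn 14
  calc ((18 * n).factorial : ℝ) ^ 2 * ((16 * n).factorial : ℝ) ^ 2 * ((14 * n).factorial : ℝ) ^ 2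
      ≤ (Real.exp 1 * (((18 : ℕ) + 1) * n) *
      Real.exp (n * xl (18 : ℕ) + (18 : ℕ) * n * Real.log n - (18 : ℕ) * n)) ^ 2 *
      (Real.exp 1 * (((16 : ℕ) + 1) * n) *
      Real.exp (n * xl (16 : ℕ) + (16 : ℕ) * n * Real.log n - (16 : ℕ) * n)) ^ 2 *
      (Real.exp 1 * (((14 : ℕ) + 1) * n) *
      Real.exp (n * xl (14 : ℕ) + (14 : ℕ) * n * Real.log n - (14 : ℕ) * n)) ^ 2 := by
        gcongr
    _ = (Real.exp 1 ^ 6 * 4845 ^ 2) * (n : ℝ) ^ 6 *
      (Real.exp (n * xl (18 : ℕ) + (18 : ℕ) * n * Real.log n - (18 : ℕ) * n) ^ 2 *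
      Real.exp (n * xl (16 : ℕ) + (16 : ℕ) * n * Real.log n - (16 : ℕ) * n) ^ 2 *
      Real.exp (n * xl (14 : ℕ) + (14 : ℕ) * n * Real.log n - (14 : ℕ) * n) ^ 2) := by
        push_cast; ring
    _ = _ := by
        congr 1
        rw [← Real.exp_nat_mul, ← Real.exp_nat_mul, ← Real.exp_nat_mul, ← Real.exp_add,
          ← Real.exp_add]
        congr 1
        push_cast; ring

lemma core {n : ℕ} (hn : 2 ≤ n) {a : ℝ} (ha : 350 * (n : ℝ) < a) (P18 P16 P14 : ℝ)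
    (h18 : (a ^ 2 - (9 * (n : ℝ)) ^ 2) ^ (18 * n + 1) ≤ P18 ^ 2)
    (h16 : (a ^ 2 - (8 * (n : ℝ)) ^ 2) ^ (16 * n + 1) ≤ P16 ^ 2)
    (h14 : (a ^ 2 - (7 * (n : ℝ)) ^ 2) ^ (14 * n + 1) ≤ P14 ^ 2) (F : ℝ) (hF : 0 ≤ F) :
    7 * (F * (2 * a) / (P18 ^ 2 * P16 ^ 2 * P14 ^ 2) * (a ^ 2) ^ 49) * (a ^ 2) ^ (46 * (n - 1)) ≤
      4900 * n * F * (1001 / 1000) ^ (48 * n + 3) / (350 * (n : ℝ)) ^ (4 * n) := by
  have hn0 : (0 : ℝ) < n := by exact_mod_cast (by omega : 0 < n)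
  have ha0 : 0 < a := lt_trans (by positivity) ha
  have hq : (350 * (n : ℝ)) ^ 2 ≤ a ^ 2 := by gcongr
  have k18 : (1000 / 1001 * a ^ 2) ^ (18 * n + 1) ≤ P18 ^ 2 := by
    refine le_trans ?_ h18
    apply pow_le_pow_left₀ (by positivity)
    nlinarith
  have k16 : (1000 / 1001 * a ^ 2) ^ (16 * n + 1) ≤ P16 ^ 2 := by
    refine le_trans ?_ h16
    apply pow_le_pow_left₀ (by positivity)
    nlinarith
  have k14 : (1000 / 1001 * a ^ 2) ^ (14 * n + 1) ≤ P14 ^ 2 := by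
    refine le_trans ?_ h14
    apply pow_le_pow_left₀ (by positivity)
    nlinarith
  have hD : (1000 / 1001 * a ^ 2) ^ (48 * n + 3) ≤ P18 ^ 2 * P16 ^ 2 * P14 ^ 2 := by
    calc (1000 / 1001 * a ^ 2) ^ (48 * n + 3) = (1000 / 1001 * a ^ 2) ^ (18 * n + 1) *
          (1000 / 1001 * a ^ 2) ^ (16 * n + 1) * (1000 / 1001 * a ^ 2) ^ (14 * n + 1) := by
          rw [← pow_add, ← pow_add]; congr 1; ring
      _ ≤ _ := by gcongr
  have hD0 : 0 < (1000 / 1001 * a ^ 2) ^ (48 * n + 3) := by positivity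
  have e1 : (a ^ 2) ^ 49 * (a ^ 2) ^ (46 * (n - 1)) = (a ^ 2) ^ (46 * n + 3) := by
    rw [← pow_add]; congr 1; omega
  have e2 : (a ^ 2) ^ (46 * n + 3) * (a ^ 2) ^ (2 * n) = (a ^ 2) ^ (48 * n + 3) := by
    rw [← pow_add]; congr 1; ring
  have e3 : (a ^ 2) ^ (2 * n) = a * a ^ (4 * n - 1) := by
    rw [← pow_mul, ← pow_succ']; congr 1; omega
  have e4 : (350 * (n : ℝ)) ^ (4 * n) = 350 * n * (350 * (n : ℝ)) ^ (4 * n - 1) := by
    rw [← pow_succ']; congr 1; omega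
  have h5 : (350 * (n : ℝ)) ^ (4 * n - 1) ≤ a ^ (4 * n - 1) :=
    pow_le_pow_left₀ (by positivity) ha.le _
  calc 7 * (F * (2 * a) / (P18 ^ 2 * P16 ^ 2 * P14 ^ 2) * (a ^ 2) ^ 49) * (a ^ 2) ^ (46 * (n - 1))
      = 14 * F * a * ((a ^ 2) ^ 49 * (a ^ 2) ^ (46 * (n - 1))) / (P18 ^ 2 * P16 ^ 2 * P14 ^ 2) := by
        ring
    _ ≤ 14 * F * a * ((a ^ 2) ^ 49 * (a ^ 2) ^ (46 * (n - 1))) /
        (1000 / 1001 * a ^ 2) ^ (48 * n + 3) := by gcongr
    _ = 14 * F * (1001 / 1000) ^ (48 * n + 3) / a ^ (4 * n - 1) := by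
        rw [e1, mul_pow, ← e2, e3]
        have : (1001 / 1000 : ℝ) ^ (48 * n + 3) = ((1000 / 1001 : ℝ) ^ (48 * n + 3))⁻¹ := by
          rw [← inv_pow]; norm_num
        rw [this]
        field_simp
    _ ≤ 14 * F * (1001 / 1000) ^ (48 * n + 3) / (350 * (n : ℝ)) ^ (4 * n - 1) := by gcongr
    _ = _ := by
        rw [e4]
        field_simp
        ring

end W3

/-- the statement of `W1_formula` -/
def W3.SW1 : Prop := ∀ {n : ℕ}, 1 ≤ n → ∀ s : ℕ,
    Rr n (tau n s) = ((18 * n).factorial : ℝ) ^ 2 * ((16 * n).factorial : ℝ) ^ 2 * ((14 * n).factorial : ℝ) ^ 2 *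
      (us n s : ℝ) /
      ((∏ j ∈ Finset.range (18 * n + 1), ((us n s : ℝ) / 2 - 9 * n + j)) ^ 2 *
       (∏ j ∈ Finset.range (16 * n + 1), ((us n s : ℝ) / 2 - 8 * n + j)) ^ 2 *
       (∏ j ∈ Finset.range (14 * n + 1), ((us n s : ℝ) / 2 - 7 * n + j)) ^ 2)

namespace W3

lemma fin_bd {n : ℕ} (hn : 2 ≤ n) :
    4900 * n * (((18 * n).factorial : ℝ) ^ 2 * ((16 * n).factorial : ℝ) ^ 2 *
      ((14 * n).factorial : ℝ) ^ 2) * (1001 / 1000) ^ (48 * n + 3) / (350 * (n : ℝ)) ^ (4 * n) ≤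
    (4900 * (Real.exp 1 ^ 6 * 4845 ^ 2) * Real.exp (3 / 1000)) * (n : ℝ) ^ 7 *
      Real.exp (297 / 2 * n + 92 * n * Real.log n) := by
  have hn0 : (0 : ℝ) < n := by exact_mod_cast (by omega : 0 < n)
  have hF := F_bd (by omega : 1 ≤ n)
  have h1 : (1001 / 1000 : ℝ) ^ (48 * n + 3) ≤ Real.exp (3 / 1000) * Real.exp (n * (48 / 1000)) := by
    calc (1001 / 1000 : ℝ) ^ (48 * n + 3) ≤ (Real.exp (1 / 1000)) ^ (48 * n + 3) := by
          apply pow_le_pow_left₀ (by norm_num)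
          have := Real.add_one_le_exp (1 / 1000)
          linarith
      _ = _ := by
          rw [← Real.exp_nat_mul, ← Real.exp_add]
          congr 1
          push_cast; ring
  have h2 : (350 * (n : ℝ)) ^ (4 * n) = Real.exp (n * (4 * Real.log 350) + 4 * n * Real.log n) := by
    rw [← Real.exp_log (show (0 : ℝ) < 350 * n by positivity), ← Real.exp_nat_mul,
      Real.log_mul (by norm_num) hn0.ne']
    congr 1
    push_cast; ring
  rw [div_eq_mul_inv, h2, ← Real.exp_neg]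
  calc 4900 * n * (((18 * n).factorial : ℝ) ^ 2 * ((16 * n).factorial : ℝ) ^ 2 *
      ((14 * n).factorial : ℝ) ^ 2) * (1001 / 1000) ^ (48 * n + 3) *
        Real.exp (-(n * (4 * Real.log 350) + 4 * n * Real.log n))
      ≤ 4900 * n * ((Real.exp 1 ^ 6 * 4845 ^ 2) * (n : ℝ) ^ 6 *
        Real.exp (n * (2 * (xl 18 + xl 16 + xl 14) - 96) + 96 * n * Real.log n)) *
        (Real.exp (3 / 1000) * Real.exp (n * (48 / 1000))) *
        Real.exp (-(n * (4 * Real.log 350) + 4 * n * Real.log n)) := by gcongr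
    _ = (4900 * (Real.exp 1 ^ 6 * 4845 ^ 2) * Real.exp (3 / 1000)) * (n : ℝ) ^ 7 *
        (Real.exp (n * (2 * (xl 18 + xl 16 + xl 14) - 96) + 96 * n * Real.log n) *
          Real.exp (n * (48 / 1000)) * Real.exp (-(n * (4 * Real.log 350) + 4 * n * Real.log n))) := by
        ring
    _ = (4900 * (Real.exp 1 ^ 6 * 4845 ^ 2) * Real.exp (3 / 1000)) * (n : ℝ) ^ 7 *
        Real.exp (n * (2 * (xl 18 + xl 16 + xl 14) - 96 - 4 * Real.log 350 + 48 / 1000) +
          92 * n * Real.log n) := by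
        rw [← Real.exp_add, ← Real.exp_add]
        congr 2
        ring
    _ ≤ _ := by
        apply mul_le_mul_of_nonneg_left _ (by positivity)
        apply Real.exp_le_exp.2
        have := mul_le_mul_of_nonneg_left numer hn0.le
        linarith

end W3

open W3 in
/-- far away: crude bound, from `W1_formula` -/
theorem W3_far_of (W1_formula : SW1) : ∃ (C : ℝ) (K : ℕ), 0 < C ∧ ∀ n : ℕ, 2 ≤ n → ∀ s : ℕ, 700 * n < us n s →
    |Wt n s| * PiM n (mN n) (us n s) ^ 2 ≤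
      C * (n : ℝ) ^ K * Real.exp (297 / 2 * n + 92 * n * Real.log n) := by
  refine ⟨4900 * (Real.exp 1 ^ 6 * 4845 ^ 2) * Real.exp (3 / 1000), 7, by positivity,
    fun n hn s hs => ?_⟩
  have hn0 : (0 : ℝ) < n := by exact_mod_cast (by omega : 0 < n)
  have hsR : 700 * (n : ℝ) < (us n s : ℝ) := by exact_mod_cast hs
  set a : ℝ := (us n s : ℝ) / 2 with ha
  have hU : (us n s : ℝ) = 2 * a := by rw [ha]; ring
  have ha0 : 350 * (n : ℝ) < a := by rw [ha]; linarith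
  have hap : 0 < a := lt_trans (by positivity) ha0
  -- the value of x
  have hx : xr n (tau n s) = a ^ 2 - 144 * (n : ℝ) ^ 2 := by
    rw [N5_xr, xu, hU]; ring
  have hx0 : 0 ≤ xr n (tau n s) := by rw [hx]; nlinarith
  have hx1 : xr n (tau n s) ≤ a ^ 2 := by rw [hx]; nlinarith
  -- products
  set P18 : ℝ := ∏ j ∈ Finset.range (18 * n + 1), ((us n s : ℝ) / 2 - 9 * n + j) with hP18
  set P16 : ℝ := ∏ j ∈ Finset.range (16 * n + 1), ((us n s : ℝ) / 2 - 8 * n + j) with hP16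
  set P14 : ℝ := ∏ j ∈ Finset.range (14 * n + 1), ((us n s : ℝ) / 2 - 7 * n + j) with hP14
  have k18 : (a ^ 2 - (9 * (n : ℝ)) ^ 2) ^ (18 * n + 1) ≤ P18 ^ 2 := by
    have h := prod_lower (9 * n) a (by push_cast; linarith)
    rw [show 2 * (9 * n) + 1 = 18 * n + 1 by ring] at h
    push_cast at h
    exact h
  have k16 : (a ^ 2 - (8 * (n : ℝ)) ^ 2) ^ (16 * n + 1) ≤ P16 ^ 2 := by
    have h := prod_lower (8 * n) a (by push_cast; linarith)
    rw [show 2 * (8 * n) + 1 = 16 * n + 1 by ring] at h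
    push_cast at h
    exact h
  have k14 : (a ^ 2 - (7 * (n : ℝ)) ^ 2) ^ (14 * n + 1) ≤ P14 ^ 2 := by
    have h := prod_lower (7 * n) a (by push_cast; linarith)
    rw [show 2 * (7 * n) + 1 = 14 * n + 1 by ring] at h
    push_cast at h
    exact h
  set F : ℝ := ((18 * n).factorial : ℝ) ^ 2 * ((16 * n).factorial : ℝ) ^ 2 *
    ((14 * n).factorial : ℝ) ^ 2 with hF
  have hR : Rr n (tau n s) = F * (2 * a) / (P18 ^ 2 * P16 ^ 2 * P14 ^ 2) := by
    rw [W1_formula (by omega : 1 ≤ n) s, ← hP18, ← hP16, ← hP14, ← hF, hU]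
  have hR0 : 0 ≤ Rr n (tau n s) := by rw [hR]; positivity
  have hW : |Wt n s| ≤ 7 * (F * (2 * a) / (P18 ^ 2 * P16 ^ 2 * P14 ^ 2) * (a ^ 2) ^ 49) := by
    unfold Wt
    rw [abs_mul, abs_of_nonneg (mul_nonneg hR0 (pow_nonneg hx0 _)), ← hR]
    apply mul_le_mul _ _ (mul_nonneg hR0 (pow_nonneg hx0 _)) (by norm_num)
    · split_ifs <;> norm_num
    · exact mul_le_mul_of_nonneg_left (pow_le_pow_left₀ hx0 hx1 _) hR0
  have hP : PiM n (mN n) (us n s) ^ 2 ≤ (a ^ 2) ^ (46 * (n - 1)) := by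
    have h1 : PiM n (mN n) (us n s) ≤ (a ^ 2) ^ (mN n) := by
      unfold PiM
      calc ∏ j ∈ Finset.range (mN n), |xu n (us n s) - xu n (nd n j)|
          ≤ ∏ _j ∈ Finset.range (mN n), a ^ 2 := by
            refine Finset.prod_le_prod (fun _ _ => abs_nonneg _) fun j hj => ?_
            have hj2 : (nd n j : ℝ) < 281 * n := by
              exact_mod_cast N3_upper hn (Finset.mem_range.1 hj)
            have hj0 : (0 : ℝ) ≤ nd n j := by positivity
            unfold xu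
            rw [hU, abs_le]
            constructor <;> nlinarith
        _ = (a ^ 2) ^ (mN n) := by rw [Finset.prod_const, Finset.card_range]
    have h0 : 0 ≤ PiM n (mN n) (us n s) := by
      unfold PiM
      exact Finset.prod_nonneg fun _ _ => abs_nonneg _
    calc PiM n (mN n) (us n s) ^ 2 ≤ ((a ^ 2) ^ (mN n)) ^ 2 := pow_le_pow_left₀ h0 h1 2
      _ = (a ^ 2) ^ (46 * (n - 1)) := by
          rw [← pow_mul]; congr 1; unfold mN; ring
  calc |Wt n s| * PiM n (mN n) (us n s) ^ 2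
      ≤ 7 * (F * (2 * a) / (P18 ^ 2 * P16 ^ 2 * P14 ^ 2) * (a ^ 2) ^ 49) *
        (a ^ 2) ^ (46 * (n - 1)) := by
        apply mul_le_mul hW hP (sq_nonneg _) ((abs_nonneg _).trans hW)
    _ ≤ 4900 * n * F * (1001 / 1000) ^ (48 * n + 3) / (350 * (n : ℝ)) ^ (4 * n) :=
        core hn ha0 P18 P16 P14 k18 k16 k14 F (by positivity)
    _ ≤ _ := fin_bd hn

end

end Pool.Agent.H312R.ZA
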