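import Pool.Agent.H312R.ZA.AW1
import Pool.Agent.H312R.ZA.AW3a

/-! Task AW3 (helper305): far points. -/

open Polynomial Pool.Agent.H337R2 Pool.Agent.H336R2.Z5 Filter Topology

namespace Pool.Agent.H312R.ZA

noncomputable section

/-- far away: crude bound -/
theorem W3_far : ∃ (C : ℝ) (K : ℕ), 0 < C ∧ ∀ n : ℕ, 2 ≤ n → ∀ s : ℕ, 700 * n < us n s →
    |Wt n s| * PiM n (mN n) (us n s) ^ 2 ≤
      C * (n : ℝ) ^ K * Real.exp (297 / 2 * n + 92 * n * Real.log n) :=
  W3_far_of (fun hn s => W1_formula hn s)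

end

end Pool.Agent.H312R.ZA
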