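import Pool.Agent.H336R2.Z5.Defs

/-!
# Archimedean part for the one-species Hankel determinant of `ζ(5)`: definitions

Doubled coordinate `u = 2 t + 24 n`, `x = t (t + 24 n) = (u² - 576 n²) / 4`.
The `s`-th summation point of `Z5.Defs` is `u = us n s = 16 n + 1 + s`.
The nodes `nd n i` (`i < 23 (n-1)`) are lattice points: all odd `u` in `(16n, 24n)`, all `u` in `[24n, 31n)`
(saturated part, `11 n` nodes), and then arithmetic progressions with steps `2, 4, 9, 21, 86`.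
-/

open Polynomial Pool.Agent.H337R2

namespace Pool.Agent.H312R.ZA

noncomputable section

/-- the nodes, in the doubled coordinate -/
def nd (n i : ℕ) : ℕ :=
  if i < 4 * n then 16 * n + 1 + 2 * i
  else if i < 11 * n then 20 * n + i
  else if i < 14 * n then 31 * n + 2 * (i - 11 * n)
  else if i < 17 * n then 37 * n + 4 * (i - 14 * n)
  else if i < 19 * n then 49 * n + 9 * (i - 17 * n)
  else if i < 21 * n then 67 * n + 21 * (i - 19 * n)
  else 109 * n + 86 * (i - 21 * n)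

/-- doubled coordinate of the `s`-th summation point -/
def us (n s : ℕ) : ℕ := 16 * n + 1 + s

/-- `x` as a function of `u` -/
def xu (n : ℕ) (u : ℝ) : ℝ := (u ^ 2 - 576 * (n : ℝ) ^ 2) / 4

/-- `x` as a rational number -/
def xq (n u : ℕ) : ℚ := ((u : ℚ) ^ 2 - 576 * (n : ℚ) ^ 2) / 4

/-- Lagrange polynomial (not normalised) of the points `x j`, `j < m`, `j ≠ i` -/
def lag {K : Type} [Field K] (m : ℕ) (x : ℕ → K) (i : ℕ) : K[X] :=
  ∏ j ∈ (Finset.range m).erase i, (X - C (x j))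

/-- `Λ_i = ∏_{j < m, j ≠ i} |x_i - x_j|` -/
def LL (n m i : ℕ) : ℝ := ∏ j ∈ (Finset.range m).erase i, |xu n (nd n i) - xu n (nd n j)|

/-- `∏_{j < m} |x_u - x_j|` -/
def PiM (n m : ℕ) (u : ℕ) : ℝ := ∏ j ∈ Finset.range m, |xu n u - xu n (nd n j)|

/-- `Ψ(z) = z log |z| - z` -/
def Psi (z : ℝ) : ℝ := z * Real.log z - z

/-- antiderivative of `Ψ` -/
def GG (z : ℝ) : ℝ := z ^ 2 / 2 * Real.log z - 3 * z ^ 2 / 4

/-- `ff v b = ∫_0^b log |v² - w²| dw` -/
def ff (v b : ℝ) : ℝ := Psi (v + b) - Psi (v - b)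

/-- `φ`: `log |R| = n φ(u/n) + O(log n)` -/
def phi (v : ℝ) : ℝ :=
  (36 * Real.log 36 - 36 - ff v 18) + (32 * Real.log 32 - 32 - ff v 16) + (28 * Real.log 28 - 28 - ff v 14)

/-- potential of the nodes: `∑_{j<m} log |x_u - x_j| = n UU(u/n) + 46 n log n + O(log n)` -/
def UU (v : ℝ) : ℝ :=
  (ff v 24 - ff v 16) / 2 + (ff v 31 - ff v 24) + (ff v 37 - ff v 31) / 2 + (ff v 49 - ff v 37) / 4 +
    (ff v 67 - ff v 49) / 9 + (ff v 109 - ff v 67) / 21 + (ff v 281 - ff v 109) / 86 - 23 * Real.log 4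

/-- total potential -/
def VV (v : ℝ) : ℝ := phi v + 2 * UU v

/-- `∫_a^b ff v c dv` -/
def IF (a b c : ℝ) : ℝ := GG (b + c) - GG (a + c) - GG (b - c) + GG (a - c)

/-- mutual energy of the cells `[a, b)` (step `k`) and `[a', b')` (step `k'`) -/
def en (a b k a' b' k' : ℝ) : ℝ :=
  (IF a b b' - IF a b a' - Real.log 4 * (b - a) * (b' - a')) / (k * k')

/-- `∫ φ` over a cell -/
def iphi (a b k : ℝ) : ℝ :=
  ((36 * Real.log 36 - 36 + 32 * Real.log 32 - 32 + 28 * Real.log 28 - 28) * (b - a)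
    - IF a b 18 - IF a b 16 - IF a b 14) / k

/-- saturated part of the energy -/
def eS : ℝ :=
  iphi 16 24 2 + iphi 24 31 1 + en 16 24 2 16 24 2 + en 16 24 2 24 31 1 + en 24 31 1 16 24 2 + en 24 31 1 24 31 1

/-- the cells of the other nodes -/
def cl : Fin 5 → ℝ × ℝ × ℝ
  | 0 => (31, 37, 2)
  | 1 => (37, 49, 4)
  | 2 => (49, 67, 9)
  | 3 => (67, 109, 21)
  | 4 => (109, 281, 86)

/-- energy of the other nodes -/
def eN : ℝ := ∑ i : Fin 5, ∑ j : Fin 5, en (cl i).1 (cl i).2.1 (cl i).2.2 (cl j).1 (cl j).2.1 (cl j).2.2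

end

end Pool.Agent.H312R.ZA
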