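import Pool.Agent.H312R.ZA.Defs

/-! E1 (preliminary part): the energy of the saturated nodes, from P1, P2, P3, P4. -/

open Polynomial Pool.Agent.H337R2 Pool.Agent.H336R2.Z5 Filter Topology

namespace Pool.Agent.H312R.ZA

noncomputable section

namespace E1

/-- P1 -/
def HP1 : Prop := ∃ C : ℝ, 0 < C ∧ ∀ k N A u : ℕ, 1 ≤ k → k ≤ 86 → 1 ≤ u →
    |∑ j ∈ (Finset.range N).filter (fun j => A + k * j ≠ u), Real.log |(u : ℝ) ^ 2 - ((A : ℝ) + k * j) ^ 2|
        - (ff u ((A : ℝ) + k * N) - ff u A) / k| ≤ C * Real.log ((u : ℝ) + A + k * N + 2)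

/-- P2 -/
def HP2 : Prop := ∃ C : ℝ, 0 < C ∧ ∀ (k N : ℕ) (a : ℝ), 1 ≤ k → k ≤ 86 →
    |∑ j ∈ Finset.range N, Psi (a + k * j) - (GG (a + k * N) - GG a) / k| ≤
      C * ((N : ℝ) + 1) * Real.log (|a| + k * N + 2)

/-- P3 -/
def HP3 : Prop := ∀ {r : ℝ}, 0 < r → ∀ v b : ℝ,
    ff (r * v) (r * b) = r * ff v b + 2 * b * r * Real.log r

/-- P4 -/
def HP4 : Prop := ∀ {r : ℝ}, 0 < r → ∀ z : ℝ,
    GG (r * z) = r ^ 2 * GG z + r ^ 2 * z ^ 2 / 2 * Real.log r

lemma log_le {n : ℕ} (hn : 2 ≤ n) {x : ℝ} (hx : 0 < x) (h : x ≤ 128 * n) :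
    Real.log x ≤ 8 * Real.log n := by
  have hn' : (2 : ℝ) ≤ n := by exact_mod_cast hn
  have h1 := Real.log_le_log hx h
  have h2 : Real.log (128 : ℝ) = 7 * Real.log 2 := by
    rw [show (128 : ℝ) = 2 ^ 7 by norm_num, Real.log_pow]
    norm_num
  rw [Real.log_mul (by norm_num) (by linarith), h2] at h1
  have h3 := Real.log_le_log (by norm_num) hn'
  linarith

lemma one_le {n : ℕ} (hn : 2 ≤ n) : 1 ≤ 2 * Real.log n := by
  have hn' : (2 : ℝ) ≤ n := by exact_mod_cast hn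
  have h3 := Real.log_le_log (by norm_num) hn'
  have := Real.log_two_gt_d9
  linarith

lemma log_pos' {n : ℕ} (hn : 2 ≤ n) : 0 < Real.log n := by
  have := one_le hn
  linarith

lemma abs_tri {a b c : ℝ} (h : |a - b| ≤ c) : |b| ≤ |a| + c := by
  have h1 : b = a - (a - b) := by ring
  rw [h1]
  exact (abs_sub _ _).trans (add_le_add le_rfl h)

/-! ### shifts by one -/

lemma ff_shift (h1 : HP1) : ∃ C : ℝ, 0 < C ∧ ∀ n u A : ℕ, 2 ≤ n → 1 ≤ u → u ≤ 32 * n → A ≤ 32 * n →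
    |ff u ((A : ℝ) + 1) - ff u A| ≤ C * Real.log n := by
  obtain ⟨C, hC, h⟩ := h1
  refine ⟨8 * C + 16, by positivity, ?_⟩
  intro n u A hn hu hun hAn
  have h := h 1 1 A u le_rfl (by norm_num) hu
  have hur : (u : ℝ) ≤ 32 * n := by exact_mod_cast hun
  have hAr : (A : ℝ) ≤ 32 * n := by exact_mod_cast hAn
  have hu1 : (1 : ℝ) ≤ u := by exact_mod_cast hu
  have hA0 : (0 : ℝ) ≤ A := Nat.cast_nonneg A
  have hn2 : (2 : ℝ) ≤ n := by exact_mod_cast hn
  have hL := log_pos' hn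
  set S := ∑ j ∈ (Finset.range 1).filter (fun j => A + 1 * j ≠ u),
    Real.log |(u : ℝ) ^ 2 - ((A : ℝ) + (1 : ℕ) * j) ^ 2| with hS
  have hSb : |S| ≤ 16 * Real.log n := by
    rw [hS, Finset.sum_filter, Finset.sum_range_one]
    split_ifs with hne
    · simp only [mul_zero, add_zero, ne_eq] at hne
      have e : |(u : ℝ) ^ 2 - ((A : ℝ) + (1 : ℕ) * (0 : ℕ)) ^ 2| = |(u : ℝ) ^ 2 - (A : ℝ) ^ 2| := by
        congr 2
        push_cast
        ring
      rw [e]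
      have hz : (1 : ℝ) ≤ |(u : ℝ) ^ 2 - (A : ℝ) ^ 2| := by
        have hne' : ((u : ℤ) ^ 2 - (A : ℤ) ^ 2) ≠ 0 := by
          intro h0
          have h3 : (u : ℤ) ^ 2 = (A : ℤ) ^ 2 := by linarith
          have h4 : u ^ 2 = A ^ 2 := by exact_mod_cast h3
          exact hne (Nat.pow_left_injective (by norm_num) h4).symm
        have h5 := Int.one_le_abs hne'
        exact_mod_cast h5
      have hz2 : |(u : ℝ) ^ 2 - (A : ℝ) ^ 2| ≤ ((u : ℝ) + A) ^ 2 := by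
        rw [abs_le]
        constructor <;> nlinarith
      have h6 := Real.log_le_log (by linarith) hz2
      rw [Real.log_pow] at h6
      push_cast at h6
      have h7 := log_le hn (show 0 < (u : ℝ) + A by linarith) (by linarith)
      have h8 := Real.log_nonneg hz
      rw [abs_of_nonneg h8]
      linarith
    · rw [abs_zero]
      positivity
  have h9 := log_le hn (show 0 < (u : ℝ) + A + (1 : ℕ) * (1 : ℕ) + 2 by push_cast; linarith)
    (by push_cast; linarith)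
  have h10 : |ff u ((A : ℝ) + 1) - ff u A| ≤ |S| + C * Real.log ((u : ℝ) + A + (1 : ℕ) * (1 : ℕ) + 2) := by
    have e : (ff u ((A : ℝ) + (1 : ℕ) * (1 : ℕ)) - ff u A) / (1 : ℕ) = ff u ((A : ℝ) + 1) - ff u A := by
      push_cast
      rw [div_one, mul_one]
    rw [e] at h
    exact abs_tri h
  have h12 : C * Real.log ((u : ℝ) + A + (1 : ℕ) * (1 : ℕ) + 2) ≤ C * (8 * Real.log n) :=
    mul_le_mul_of_nonneg_left h9 hC.le
  linarith

lemma psi_abs {n : ℕ} (hn : 2 ≤ n) (z : ℤ) (hz : |(z : ℝ)| ≤ 64 * n) :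
    |Psi z| ≤ 640 * n * Real.log n := by
  have hL := log_pos' hn
  have h1L := one_le hn
  have hn2 : (2 : ℝ) ≤ n := by exact_mod_cast hn
  have hl : |Real.log (z : ℝ)| ≤ 8 * Real.log n := by
    by_cases h0 : z = 0
    · subst h0
      simp
      positivity
    · have h1 : (1 : ℝ) ≤ |(z : ℝ)| := by
        have := Int.one_le_abs h0
        exact_mod_cast this
      rw [← Real.log_abs, abs_of_nonneg (Real.log_nonneg h1)]
      exact log_le hn (by linarith) (by linarith)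
  unfold Psi
  calc |(z : ℝ) * Real.log z - z| ≤ |(z : ℝ)| * |Real.log z| + |(z : ℝ)| := by
        rw [← abs_mul]
        exact abs_sub _ _
    _ ≤ 64 * n * (8 * Real.log n) + 64 * n * (2 * Real.log n) := by
        apply add_le_add
        · exact mul_le_mul hz hl (abs_nonneg _) (by positivity)
        · nlinarith [abs_nonneg (z : ℝ)]
    _ = _ := by ring

lemma GG_shift (h2 : HP2) : ∃ C : ℝ, 0 < C ∧ ∀ (n : ℕ) (z : ℤ), 2 ≤ n → |(z : ℝ)| ≤ 64 * n →
    |GG ((z : ℝ) + 1) - GG z| ≤ C * (n * Real.log n) := by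
  obtain ⟨C, hC, h⟩ := h2
  refine ⟨16 * C + 640, by positivity, ?_⟩
  intro n z hn hz
  have h := h 1 1 z le_rfl (by norm_num)
  have hn2 : (2 : ℝ) ≤ n := by exact_mod_cast hn
  have hL := log_pos' hn
  rw [Finset.sum_range_one] at h
  have e1 : (z : ℝ) + (1 : ℕ) * (0 : ℕ) = z := by push_cast; ring
  have e2 : (z : ℝ) + (1 : ℕ) * (1 : ℕ) = z + 1 := by push_cast; ring
  have e3 : C * (((1 : ℕ) : ℝ) + 1) * Real.log (|(z : ℝ)| + (1 : ℕ) * (1 : ℕ) + 2) =
      2 * C * Real.log (|(z : ℝ)| + 3) := by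
    push_cast
    ring_nf
  rw [e1, e2, e3] at h
  have e4 : (GG ((z : ℝ) + 1) - GG z) / ((1 : ℕ) : ℝ) = GG ((z : ℝ) + 1) - GG z := by
    push_cast
    rw [div_one]
  rw [e4] at h
  have h3 := log_le hn (show 0 < |(z : ℝ)| + 3 by positivity) (by linarith)
  have h4 := psi_abs hn z hz
  have h5 := abs_tri h
  have h6 : 2 * C * Real.log (|(z : ℝ)| + 3) ≤ 2 * C * (8 * Real.log n) :=
    mul_le_mul_of_nonneg_left h3 (by positivity)
  have h7 : 2 * C * (8 * Real.log n) ≤ 16 * C * (n * Real.log n) := by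
    have : 1 * Real.log n ≤ n * Real.log n := mul_le_mul_of_nonneg_right (by linarith) hL.le
    nlinarith
  nlinarith

/-! ### the inner sums -/

lemma inner (h1 : HP1) : ∃ C : ℝ, 0 < C ∧ ∀ n u : ℕ, 2 ≤ n → 1 ≤ u → u ≤ 31 * n →
    |(∑ j ∈ (Finset.range (4 * n)).filter (fun j => 16 * n + 1 + 2 * j ≠ u),
        Real.log |(u : ℝ) ^ 2 - ((16 * n + 1 + 2 * j : ℕ) : ℝ) ^ 2| +
      ∑ j ∈ (Finset.range (7 * n)).filter (fun j => 24 * n + j ≠ u),
        Real.log |(u : ℝ) ^ 2 - ((24 * n + j : ℕ) : ℝ) ^ 2|) -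
     ((ff u (24 * n) - ff u (16 * n)) / 2 + (ff u (31 * n) - ff u (24 * n)))| ≤ C * Real.log n := by
  obtain ⟨C, hC, h⟩ := h1
  obtain ⟨D, hD, hs⟩ := ff_shift ⟨C, hC, h⟩
  refine ⟨16 * C + D, by positivity, ?_⟩
  intro n u hn hu hun
  have a1 := h 2 (4 * n) (16 * n + 1) u (by norm_num) (by norm_num) hu
  have a2 := h 1 (7 * n) (24 * n) u (by norm_num) (by norm_num) hu
  have s1 := hs n u (16 * n) hn hu (by omega) (by omega)
  have s2 := hs n u (24 * n) hn hu (by omega) (by omega)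
  have hur : (u : ℝ) ≤ 31 * n := by exact_mod_cast hun
  have hu1 : (1 : ℝ) ≤ u := by exact_mod_cast hu
  have hn2 : (2 : ℝ) ≤ n := by exact_mod_cast hn
  have l1 := log_le hn (x := (u : ℝ) + ((16 * n + 1 : ℕ) : ℝ) + (2 : ℕ) * ((4 * n : ℕ) : ℝ) + 2)
    (by positivity) (by push_cast; linarith)
  have l2 := log_le hn (x := (u : ℝ) + ((24 * n : ℕ) : ℝ) + (1 : ℕ) * ((7 * n : ℕ) : ℝ) + 2)
    (by positivity) (by push_cast; linarith)
  have m1 := mul_le_mul_of_nonneg_left l1 hC.le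
  have m2 := mul_le_mul_of_nonneg_left l2 hC.le
  have e1 : ∑ j ∈ (Finset.range (4 * n)).filter (fun j => 16 * n + 1 + 2 * j ≠ u),
      Real.log |(u : ℝ) ^ 2 - (((16 * n + 1 : ℕ) : ℝ) + (2 : ℕ) * j) ^ 2| =
      ∑ j ∈ (Finset.range (4 * n)).filter (fun j => 16 * n + 1 + 2 * j ≠ u),
        Real.log |(u : ℝ) ^ 2 - ((16 * n + 1 + 2 * j : ℕ) : ℝ) ^ 2| := by
    apply Finset.sum_congr rfl
    intro j _
    push_cast
    rfl
  have e2 : ∑ j ∈ (Finset.range (7 * n)).filter (fun j => 24 * n + 1 * j ≠ u),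
      Real.log |(u : ℝ) ^ 2 - (((24 * n : ℕ) : ℝ) + (1 : ℕ) * j) ^ 2| =
      ∑ j ∈ (Finset.range (7 * n)).filter (fun j => 24 * n + j ≠ u),
        Real.log |(u : ℝ) ^ 2 - ((24 * n + j : ℕ) : ℝ) ^ 2| := by
    simp only [one_mul]
    apply Finset.sum_congr rfl
    intro j _
    push_cast
    rw [one_mul]
  have f1 : ((16 * n + 1 : ℕ) : ℝ) + (2 : ℕ) * ((4 * n : ℕ) : ℝ) = 24 * n + 1 := by push_cast; ring
  have f2 : ((16 * n + 1 : ℕ) : ℝ) = 16 * n + 1 := by push_cast; ring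
  have f3 : ((24 * n : ℕ) : ℝ) + (1 : ℕ) * ((7 * n : ℕ) : ℝ) = 31 * n := by push_cast; ring
  have f4 : ((24 * n : ℕ) : ℝ) = 24 * n := by push_cast; ring
  have f5 : ((16 * n : ℕ) : ℝ) = 16 * n := by push_cast; ring
  have f6 : ((2 : ℕ) : ℝ) = 2 := by norm_num
  have f7 : ((1 : ℕ) : ℝ) = 1 := by norm_num
  rw [e1] at a1
  rw [e2] at a2
  set S1 := ∑ j ∈ (Finset.range (4 * n)).filter (fun j => 16 * n + 1 + 2 * j ≠ u),
        Real.log |(u : ℝ) ^ 2 - ((16 * n + 1 + 2 * j : ℕ) : ℝ) ^ 2|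
  set S2 := ∑ j ∈ (Finset.range (7 * n)).filter (fun j => 24 * n + j ≠ u),
        Real.log |(u : ℝ) ^ 2 - ((24 * n + j : ℕ) : ℝ) ^ 2|
  have a1' := a1.trans m1
  have a2' := a2.trans m2
  rw [f1, f2, f6] at a1'
  rw [f3, f4, f7] at a2'
  rw [f5] at s1
  rw [f4] at s2
  rw [div_one] at a2'
  rw [abs_le] at *
  constructor
  · linarith [a1'.1, a1'.2, a2'.1, a2'.2, s1.1, s1.2, s2.1, s2.2]
  · linarith [a1'.1, a1'.2, a2'.1, a2'.2, s1.1, s1.2, s2.1, s2.2]

/-! ### sums over cells -/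

lemma cells (h2 : HP2) : ∃ C : ℝ, 0 < C ∧ ∀ n c : ℕ, 2 ≤ n → c ≤ 31 →
    |∑ i ∈ Finset.range (4 * n), ff ((16 * n + 1 + 2 * i : ℕ) : ℝ) (c * n) -
      IF (16 * n) (24 * n) (c * n) / 2| ≤ C * (n * Real.log n) ∧
    |∑ i ∈ Finset.range (7 * n), ff ((24 * n + i : ℕ) : ℝ) (c * n) -
      IF (24 * n) (31 * n) (c * n)| ≤ C * (n * Real.log n) := by
  obtain ⟨D, hD, hs⟩ := GG_shift h2
  obtain ⟨C, hC, h⟩ := h2
  refine ⟨128 * C + 2 * D, by positivity, ?_⟩
  intro n c hn hc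
  have hn2 : (2 : ℝ) ≤ n := by exact_mod_cast hn
  have hL := log_pos' hn
  have hc' : (c : ℝ) ≤ 31 := by exact_mod_cast hc
  have hc0 : (0 : ℝ) ≤ c := Nat.cast_nonneg c
  have hcn : (c : ℝ) * n ≤ 31 * n := mul_le_mul_of_nonneg_right hc' (by linarith)
  have hcn0 : 0 ≤ (c : ℝ) * n := by positivity
  -- P2 for one progression
  have key : ∀ (k N : ℕ) (a : ℝ), 1 ≤ k → k ≤ 86 → N ≤ 7 * n → |a| + k * N + 2 ≤ 128 * n →
      |∑ j ∈ Finset.range N, Psi (a + k * j) - (GG (a + k * N) - GG a) / k| ≤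
        64 * C * (n * Real.log n) := by
    intro k N a hk1 hk2 hN ha
    refine (h k N a hk1 hk2).trans ?_
    have l1 := log_le hn (show 0 < |a| + k * N + 2 by positivity) ha
    have hN' : (N : ℝ) + 1 ≤ 8 * n := by
      have : (N : ℝ) ≤ 7 * n := by exact_mod_cast hN
      linarith
    calc C * ((N : ℝ) + 1) * Real.log (|a| + k * N + 2) ≤ C * (8 * n) * (8 * Real.log n) := by
          apply mul_le_mul _ l1 _ (by positivity)
          · exact mul_le_mul_of_nonneg_left hN' hC.le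
          · apply Real.log_nonneg
            have : 0 ≤ |a| := abs_nonneg a
            have : (0 : ℝ) ≤ k * N := by positivity
            linarith
      _ = _ := by ring
  have p1 := key 2 (4 * n) (16 * n + 1 + c * n) (by norm_num) (by norm_num) (by omega) (by
    rw [abs_of_nonneg (by positivity)]
    push_cast
    linarith)
  have p2 := key 2 (4 * n) (16 * n + 1 - c * n) (by norm_num) (by norm_num) (by omega) (by
    have : |16 * (n : ℝ) + 1 - c * n| ≤ 48 * n := by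
      rw [abs_le]
      constructor <;> linarith
    push_cast
    linarith)
  have p3 := key 1 (7 * n) (24 * n + c * n) (by norm_num) (by norm_num) (by omega) (by
    rw [abs_of_nonneg (by positivity)]
    push_cast
    linarith)
  have p4 := key 1 (7 * n) (24 * n - c * n) (by norm_num) (by norm_num) (by omega) (by
    have : |24 * (n : ℝ) - c * n| ≤ 56 * n := by
      rw [abs_le]
      constructor <;> linarith
    push_cast
    linarith)
  have t1 := hs n (24 * n + c * n : ℤ) hn (by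
    push_cast
    rw [abs_of_nonneg (by positivity)]
    linarith)
  have t2 := hs n (16 * n + c * n : ℤ) hn (by
    push_cast
    rw [abs_of_nonneg (by positivity)]
    linarith)
  have t3 := hs n (24 * n - c * n : ℤ) hn (by
    push_cast
    rw [abs_le]
    constructor <;> linarith)
  have t4 := hs n (16 * n - c * n : ℤ) hn (by
    push_cast
    rw [abs_le]
    constructor <;> linarith)
  push_cast at p1 p2 p3 p4 t1 t2 t3 t4
  have e1 : ∑ i ∈ Finset.range (4 * n), ff ((16 * n + 1 + 2 * i : ℕ) : ℝ) (c * n) =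
      ∑ j ∈ Finset.range (4 * n), Psi (16 * (n : ℝ) + 1 + c * n + 2 * j) -
      ∑ j ∈ Finset.range (4 * n), Psi (16 * (n : ℝ) + 1 - c * n + 2 * j) := by
    rw [← Finset.sum_sub_distrib]
    apply Finset.sum_congr rfl
    intro j _
    unfold ff
    push_cast
    congr 2 <;> ring
  have e2 : ∑ i ∈ Finset.range (7 * n), ff ((24 * n + i : ℕ) : ℝ) (c * n) =
      ∑ j ∈ Finset.range (7 * n), Psi (24 * (n : ℝ) + c * n + 1 * j) -
      ∑ j ∈ Finset.range (7 * n), Psi (24 * (n : ℝ) - c * n + 1 * j) := by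
    rw [← Finset.sum_sub_distrib]
    apply Finset.sum_congr rfl
    intro j _
    unfold ff
    push_cast
    congr 2 <;> ring
  rw [e1, e2]
  have g1 : 16 * (n : ℝ) + 1 + c * n + 2 * (4 * n) = 24 * n + c * n + 1 := by ring
  have g2 : 16 * (n : ℝ) + 1 + c * n = 16 * n + c * n + 1 := by ring
  have g3 : 16 * (n : ℝ) + 1 - c * n + 2 * (4 * n) = 24 * n - c * n + 1 := by ring
  have g4 : 16 * (n : ℝ) + 1 - c * n = 16 * n - c * n + 1 := by ring
  have g5 : 24 * (n : ℝ) + c * n + 1 * (7 * n) = 31 * n + c * n := by ring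
  have g6 : 24 * (n : ℝ) - c * n + 1 * (7 * n) = 31 * n - c * n := by ring
  set S1 := ∑ j ∈ Finset.range (4 * n), Psi (16 * (n : ℝ) + 1 + c * n + 2 * j)
  set S2 := ∑ j ∈ Finset.range (4 * n), Psi (16 * (n : ℝ) + 1 - c * n + 2 * j)
  set S3 := ∑ j ∈ Finset.range (7 * n), Psi (24 * (n : ℝ) + c * n + 1 * j)
  set S4 := ∑ j ∈ Finset.range (7 * n), Psi (24 * (n : ℝ) - c * n + 1 * j)
  rw [g1, g2] at p1
  rw [g3, g4] at p2
  rw [g5, div_one] at p3
  rw [g6, div_one] at p4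
  have hIF1 : IF (16 * n) (24 * n) (c * n) = GG (24 * n + c * n) - GG (16 * n + c * n) -
    GG (24 * n - c * n) + GG (16 * n - c * n) := rfl
  have hIF2 : IF (24 * n) (31 * n) (c * n) = GG (31 * n + c * n) - GG (24 * n + c * n) -
    GG (31 * n - c * n) + GG (24 * n - c * n) := rfl
  rw [hIF1, hIF2]
  rw [abs_le] at p1 p2 p3 p4 t1 t2 t3 t4
  obtain ⟨p1a, p1b⟩ := p1
  obtain ⟨p2a, p2b⟩ := p2
  obtain ⟨p3a, p3b⟩ := p3
  obtain ⟨p4a, p4b⟩ := p4
  obtain ⟨t1a, t1b⟩ := t1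
  obtain ⟨t2a, t2b⟩ := t2
  obtain ⟨t3a, t3b⟩ := t3
  obtain ⟨t4a, t4b⟩ := t4
  have hDn : 0 ≤ D * (n * Real.log n) := by positivity
  have hCn : 0 ≤ C * (n * Real.log n) := by positivity
  constructor
  · rw [abs_le]
    constructor <;> nlinarith
  · rw [abs_le]
    constructor <;> nlinarith

/-! ### the nodes -/

lemma nd1 {n i : ℕ} (h : i < 4 * n) : nd n i = 16 * n + 1 + 2 * i := by
  unfold nd
  rw [if_pos h]

lemma nd2 {n i : ℕ} (h : i < 7 * n) : nd n (4 * n + i) = 24 * n + i := by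
  unfold nd
  rw [if_neg (by omega), if_pos (by omega)]
  omega

lemma sum_nodes (n : ℕ) (F : ℕ → ℝ) : ∑ i ∈ Finset.range (11 * n), F (nd n i) =
    ∑ i ∈ Finset.range (4 * n), F (16 * n + 1 + 2 * i) + ∑ i ∈ Finset.range (7 * n), F (24 * n + i) := by
  rw [show 11 * n = 4 * n + 7 * n by ring, Finset.sum_range_add]
  congr 1
  · exact Finset.sum_congr rfl fun i hi => by rw [nd1 (Finset.mem_range.1 hi)]
  · exact Finset.sum_congr rfl fun i hi => by rw [nd2 (Finset.mem_range.1 hi)]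

lemma nd_inj {n i j : ℕ} (hi : i < 11 * n) (hj : j < 11 * n) (h : nd n i = nd n j) : i = j := by
  unfold nd at h
  split_ifs at h <;> omega

lemma nd_bd {n i : ℕ} (_hn : 1 ≤ n) (hi : i < 11 * n) : 1 ≤ nd n i ∧ nd n i ≤ 31 * n := by
  unfold nd
  split_ifs <;> omega

lemma erase_sum {n i : ℕ} (hi : i < 11 * n) :
    ∑ j ∈ (Finset.range (11 * n)).erase i, Real.log |((nd n i : ℕ) : ℝ) ^ 2 - ((nd n j : ℕ) : ℝ) ^ 2| =
      ∑ j ∈ (Finset.range (4 * n)).filter (fun j => 16 * n + 1 + 2 * j ≠ nd n i),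
        Real.log |((nd n i : ℕ) : ℝ) ^ 2 - ((16 * n + 1 + 2 * j : ℕ) : ℝ) ^ 2| +
      ∑ j ∈ (Finset.range (7 * n)).filter (fun j => 24 * n + j ≠ nd n i),
        Real.log |((nd n i : ℕ) : ℝ) ^ 2 - ((24 * n + j : ℕ) : ℝ) ^ 2| := by
  have e : (Finset.range (11 * n)).erase i = (Finset.range (11 * n)).filter (fun j => nd n j ≠ nd n i) := by
    ext j
    simp only [Finset.mem_erase, Finset.mem_filter, Finset.mem_range]
    constructor
    · rintro ⟨h1, h2⟩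
      exact ⟨h2, fun h => h1 (nd_inj h2 hi h)⟩
    · rintro ⟨h1, h2⟩
      exact ⟨fun h => h2 (by rw [h]), h1⟩
  rw [e, Finset.sum_filter, Finset.sum_filter, Finset.sum_filter]
  exact sum_nodes n (fun v => if v ≠ nd n i then
    Real.log |((nd n i : ℕ) : ℝ) ^ 2 - ((v : ℕ) : ℝ) ^ 2| else 0)

lemma log_xu (n a b : ℕ) (hab : a ≠ b) :
    Real.log |xu n a - xu n b| = Real.log |(a : ℝ) ^ 2 - (b : ℝ) ^ 2| - Real.log 4 := by
  have h1 : xu n a - xu n b = ((a : ℝ) ^ 2 - (b : ℝ) ^ 2) / 4 := by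
    unfold xu
    ring
  have h2 : (a : ℝ) ^ 2 - (b : ℝ) ^ 2 ≠ 0 := by
    intro h0
    have h3 : (a : ℝ) ^ 2 = (b : ℝ) ^ 2 := by linarith
    have h4 : a ^ 2 = b ^ 2 := by exact_mod_cast h3
    exact hab (Nat.pow_left_injective (by norm_num) h4)
  rw [h1, abs_div, Real.log_div (abs_ne_zero.2 h2) (by norm_num), abs_of_pos (show (0 : ℝ) < 4 by norm_num)]

/-- the inner sum of a node -/
lemma row {n i : ℕ} (hn : 2 ≤ n) (hi : i < 11 * n) {C : ℝ}
    (hC : |(∑ j ∈ (Finset.range (4 * n)).filter (fun j => 16 * n + 1 + 2 * j ≠ nd n i),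
        Real.log |((nd n i : ℕ) : ℝ) ^ 2 - ((16 * n + 1 + 2 * j : ℕ) : ℝ) ^ 2| +
      ∑ j ∈ (Finset.range (7 * n)).filter (fun j => 24 * n + j ≠ nd n i),
        Real.log |((nd n i : ℕ) : ℝ) ^ 2 - ((24 * n + j : ℕ) : ℝ) ^ 2|) -
     ((ff (nd n i) (24 * n) - ff (nd n i) (16 * n)) / 2 + (ff (nd n i) (31 * n) - ff (nd n i) (24 * n)))| ≤
      C * Real.log n) :
    ∑ j ∈ (Finset.range (11 * n)).erase i, Real.log |xu n (nd n i) - xu n (nd n j)| ≤
      (ff (nd n i) (24 * n) - ff (nd n i) (16 * n)) / 2 + (ff (nd n i) (31 * n) - ff (nd n i) (24 * n)) +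
        C * Real.log n - (11 * n - 1) * Real.log 4 := by
  have h1 : ∑ j ∈ (Finset.range (11 * n)).erase i, Real.log |xu n (nd n i) - xu n (nd n j)| =
      ∑ j ∈ (Finset.range (11 * n)).erase i,
        (Real.log |((nd n i : ℕ) : ℝ) ^ 2 - ((nd n j : ℕ) : ℝ) ^ 2| - Real.log 4) := by
    apply Finset.sum_congr rfl
    intro j hj
    rw [Finset.mem_erase, Finset.mem_range] at hj
    exact log_xu n _ _ (fun h => hj.1 (nd_inj hi hj.2 h).symm)
  rw [h1, Finset.sum_sub_distrib, Finset.sum_const, Finset.card_erase_of_mem (Finset.mem_range.2 hi),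
    Finset.card_range, erase_sum hi, nsmul_eq_mul]
  have h2 : ((11 * n - 1 : ℕ) : ℝ) = 11 * n - 1 := by
    rw [Nat.cast_sub (by omega)]
    push_cast
    ring
  rw [h2]
  rw [abs_le] at hC
  linarith [hC.2]

/-- the potential `φ` at a node, unscaled -/
lemma phi_row (h3 : HP3) {n : ℕ} (hn : 1 ≤ n) (u : ℝ) :
    n * phi (u / n) = n * (36 * Real.log 36 - 36 + 32 * Real.log 32 - 32 + 28 * Real.log 28 - 28) -
      ff u (18 * n) - ff u (16 * n) - ff u (14 * n) + 96 * n * Real.log n := by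
  have hn0 : (0 : ℝ) < n := by exact_mod_cast hn
  have key : ∀ b : ℝ, n * ff (u / n) b = ff u (b * n) - 2 * b * n * Real.log n := by
    intro b
    have h := h3 hn0 (u / n) b
    rw [mul_div_cancel₀ _ hn0.ne', mul_comm (n : ℝ) b] at h
    linarith
  unfold phi
  have e1 := key 18
  have e2 := key 16
  have e3 := key 14
  linarith

/-- scaling of `IF` -/
lemma IF_scale (h4 : HP4) {n : ℕ} (hn : 1 ≤ n) (a b c : ℝ) :
    IF (a * n) (b * n) (c * n) = (n : ℝ) ^ 2 * IF a b c + 2 * c * (b - a) * (n : ℝ) ^ 2 * Real.log n := by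
  have hn0 : (0 : ℝ) < n := by exact_mod_cast hn
  have key : ∀ z w : ℝ, w = n * z → GG w = (n : ℝ) ^ 2 * GG z + (n : ℝ) ^ 2 * z ^ 2 / 2 * Real.log n := by
    intro z w hw
    rw [hw]
    exact h4 hn0 z
  unfold IF
  rw [key (b + c) (b * n + c * n) (by ring), key (a + c) (a * n + c * n) (by ring),
    key (b - c) (b * n - c * n) (by ring), key (a - c) (a * n - c * n) (by ring)]
  ring

/-- the sum of `ff` over all nodes -/
lemma S_sum (h2 : HP2) (h4 : HP4) : ∃ C : ℝ, 0 < C ∧ ∀ n c : ℕ, 2 ≤ n → c ≤ 31 →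
    |∑ i ∈ Finset.range (11 * n), ff ((nd n i : ℕ) : ℝ) (c * n) -
      ((IF 16 24 c / 2 + IF 24 31 c) * (n : ℝ) ^ 2 + 22 * c * (n : ℝ) ^ 2 * Real.log n)| ≤
        C * (n * Real.log n) := by
  obtain ⟨C, hC, h⟩ := cells h2
  refine ⟨2 * C, by positivity, ?_⟩
  intro n c hn hc
  obtain ⟨a1, a2⟩ := h n c hn hc
  have e := sum_nodes n (fun v => ff ((v : ℕ) : ℝ) (c * n))
  rw [e]
  have i1 := IF_scale h4 (show 1 ≤ n by omega) 16 24 c
  have i2 := IF_scale h4 (show 1 ≤ n by omega) 24 31 c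
  rw [i1] at a1
  rw [i2] at a2
  rw [abs_le] at a1 a2 ⊢
  obtain ⟨a1a, a1b⟩ := a1
  obtain ⟨a2a, a2b⟩ := a2
  constructor <;> linarith

end E1

open E1 in
theorem E1_of (h1 : HP1) (h2 : HP2) (h3 : HP3) (h4 : HP4) : ∃ C : ℝ, 0 < C ∧ ∀ n : ℕ, 2 ≤ n →
    ∑ i ∈ Finset.range (11 * n), (n * phi ((nd n i : ℝ) / n) +
      ∑ j ∈ (Finset.range (11 * n)).erase i, Real.log |xu n (nd n i) - xu n (nd n j)|) ≤
    eS * (n : ℝ) ^ 2 + 242 * (n : ℝ) ^ 2 * Real.log n + C * n * Real.log n := by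
  obtain ⟨C1, hC1, hin⟩ := inner h1
  obtain ⟨C2, hC2, hS⟩ := S_sum h2 h4
  refine ⟨11 * C1 + 7 * C2 + 22 * Real.log 4, ?_, ?_⟩
  · have : 0 ≤ Real.log 4 := Real.log_nonneg (by norm_num)
    positivity
  intro n hn
  have hL := log_pos' hn
  have h1L := one_le hn
  have hn2 : (2 : ℝ) ≤ n := by exact_mod_cast hn
  have hrow : ∀ i ∈ Finset.range (11 * n), (n * phi ((nd n i : ℝ) / n) +
      ∑ j ∈ (Finset.range (11 * n)).erase i, Real.log |xu n (nd n i) - xu n (nd n j)|) ≤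
      (n * (36 * Real.log 36 - 36 + 32 * Real.log 32 - 32 + 28 * Real.log 28 - 28) +
        96 * n * Real.log n + C1 * Real.log n - (11 * n - 1) * Real.log 4) +
      (1 / 2 * ff (nd n i) (24 * n) - 1 / 2 * ff (nd n i) (16 * n) + ff (nd n i) (31 * n) -
        ff (nd n i) (24 * n) - ff (nd n i) (18 * n) - ff (nd n i) (16 * n) - ff (nd n i) (14 * n)) := by
    intro i hi
    rw [Finset.mem_range] at hi
    obtain ⟨b1, b2⟩ := nd_bd (show 1 ≤ n by omega) hi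
    have r := row hn hi (hin n (nd n i) hn b1 b2)
    rw [phi_row h3 (show 1 ≤ n by omega)]
    linarith
  refine (Finset.sum_le_sum hrow).trans ?_
  rw [Finset.sum_add_distrib, Finset.sum_const, Finset.card_range, nsmul_eq_mul]
  simp only [Finset.sum_add_distrib, Finset.sum_sub_distrib, ← Finset.mul_sum]
  have s14 := hS n 14 hn (by norm_num)
  have s16 := hS n 16 hn (by norm_num)
  have s18 := hS n 18 hn (by norm_num)
  have s24 := hS n 24 hn (by norm_num)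
  have s31 := hS n 31 hn (by norm_num)
  push_cast at s14 s16 s18 s24 s31 ⊢
  set S14 := ∑ i ∈ Finset.range (11 * n), ff ((nd n i : ℕ) : ℝ) (14 * n)
  set S16 := ∑ i ∈ Finset.range (11 * n), ff ((nd n i : ℕ) : ℝ) (16 * n)
  set S18 := ∑ i ∈ Finset.range (11 * n), ff ((nd n i : ℕ) : ℝ) (18 * n)
  set S24 := ∑ i ∈ Finset.range (11 * n), ff ((nd n i : ℕ) : ℝ) (24 * n)
  set S31 := ∑ i ∈ Finset.range (11 * n), ff ((nd n i : ℕ) : ℝ) (31 * n)
  rw [abs_le] at s14 s16 s18 s24 s31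
  obtain ⟨s14a, s14b⟩ := s14
  obtain ⟨s16a, s16b⟩ := s16
  obtain ⟨s18a, s18b⟩ := s18
  obtain ⟨s24a, s24b⟩ := s24
  obtain ⟨s31a, s31b⟩ := s31
  have heS : eS = 11 * (36 * Real.log 36 - 36 + 32 * Real.log 32 - 32 + 28 * Real.log 28 - 28)
      - (IF 16 24 18 / 2 + IF 24 31 18) - (IF 16 24 16 / 2 + IF 24 31 16) - (IF 16 24 14 / 2 + IF 24 31 14)
      + 1 / 2 * (IF 16 24 24 / 2 + IF 24 31 24) - 1 / 2 * (IF 16 24 16 / 2 + IF 24 31 16)
      + (IF 16 24 31 / 2 + IF 24 31 31) - (IF 16 24 24 / 2 + IF 24 31 24) - 121 * Real.log 4 := by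
    unfold eS iphi en
    ring
  rw [heS]
  have hlog4 : 0 ≤ Real.log 4 := Real.log_nonneg (by norm_num)
  have hx : 11 * (n : ℝ) * Real.log 4 ≤ 22 * Real.log 4 * (n * Real.log n) := by
    have : 11 * (n : ℝ) * Real.log 4 * 1 ≤ 11 * (n : ℝ) * Real.log 4 * (2 * Real.log n) :=
      mul_le_mul_of_nonneg_left h1L (by positivity)
    linarith
  have hC2n : 0 ≤ C2 * (n * Real.log n) := by positivity
  nlinarith

end

end Pool.Agent.H312R.ZA
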