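import Pool.Agent.H312R.ZA.Main0
import Pool.Agent.H312R.ZA.AW2
import Pool.Agent.H312R.ZA.AE1x

/-! The archimedean bound for the Hankel determinants (final form, no hypotheses). -/

open Polynomial Pool.Agent.H337R2 Pool.Agent.H336R2.Z5 Filter Topology

namespace Pool.Agent.H312R.ZA

/-- the archimedean bound -/
theorem A_main : ∀ᶠ n : ℕ in atTop, ∀ u : ℚ,
    (∀ Q : ℚ[X], Q.natDegree ≤ 48 * n - 48 →
      HasSum (fun s => Wt n s * aeval (xr n (tau n s)) Q) ((NL n u Q : ℚ) : ℝ)) →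
    DET n u (mN n) ≠ 0 →
    Real.log |((DET n u (mN n) : ℚ) : ℝ)| ≤ 1058 * (n : ℝ) ^ 2 * Real.log n + 611 * (n : ℝ) ^ 2 :=
  A_main_of W2_weight E1_sat'

end Pool.Agent.H312R.ZA
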