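import Pool.Agent.H312R.ZA.Defs

/-!
# Task V5: the energy of the other nodes
-/

open Polynomial Pool.Agent.H337R2

namespace Pool.Agent.H312R.ZA

noncomputable section

namespace V5

theorem base {y : ℝ} (h0 : 0 ≤ y) (h1 : y < 1) :
    2 * (y + y ^ 3 / 3 + y ^ 5 / 5 + y ^ 7 / 7) ≤ Real.log ((1 + y) / (1 - y)) ∧
    Real.log ((1 + y) / (1 - y)) ≤
      2 * (y + y ^ 3 / 3 + y ^ 5 / 5 + y ^ 7 / 7 + y ^ 9 / (1 - y ^ 2)) := by
  have a1 := Real.sum_range_le_log_div h0 h1 4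
  have a2 := Real.log_div_le_sum_range_add h0 h1 4
  simp only [Finset.sum_range_succ, Finset.sum_range_zero] at a1 a2
  norm_num at a1 a2
  constructor <;> linarith

theorem logP {m lo hi : ℝ} (y : ℝ) (a : ℕ) (h0 : 0 ≤ y) (h1 : y < 1)
    (hm : m = 2 ^ a * ((1 + y) / (1 - y)))
    (hlo : lo ≤ a * 0.6931471803 + 2 * (y + y ^ 3 / 3 + y ^ 5 / 5 + y ^ 7 / 7))
    (hhi : a * 0.6931471808 + 2 * (y + y ^ 3 / 3 + y ^ 5 / 5 + y ^ 7 / 7 + y ^ 9 / (1 - y ^ 2)) ≤ hi) :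
    lo ≤ Real.log m ∧ Real.log m ≤ hi := by
  obtain ⟨b1, b2⟩ := base h0 h1
  have e : Real.log m = a * Real.log 2 + Real.log ((1 + y) / (1 - y)) := by
    have h2 : (0 : ℝ) < 1 - y := by linarith
    rw [hm, Real.log_mul (by positivity) (by positivity), Real.log_pow]
  have g1 := Real.log_two_gt_d9
  have g2 := Real.log_two_lt_d9
  have ha : (0 : ℝ) ≤ a := Nat.cast_nonneg a
  have c1 : (a : ℝ) * 0.6931471803 ≤ a * Real.log 2 := mul_le_mul_of_nonneg_left g1.le ha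
  have c2 : (a : ℝ) * Real.log 2 ≤ a * 0.6931471808 := mul_le_mul_of_nonneg_left g2.le ha
  rw [e]
  constructor <;> linarith

theorem logM {m lo hi : ℝ} (y : ℝ) (a : ℕ) (h0 : 0 ≤ y) (h1 : y < 1)
    (hm : m = 2 ^ a / ((1 + y) / (1 - y)))
    (hlo : lo ≤ a * 0.6931471803 - 2 * (y + y ^ 3 / 3 + y ^ 5 / 5 + y ^ 7 / 7 + y ^ 9 / (1 - y ^ 2)))
    (hhi : a * 0.6931471808 - 2 * (y + y ^ 3 / 3 + y ^ 5 / 5 + y ^ 7 / 7) ≤ hi) :
    lo ≤ Real.log m ∧ Real.log m ≤ hi := by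
  obtain ⟨b1, b2⟩ := base h0 h1
  have e : Real.log m = a * Real.log 2 - Real.log ((1 + y) / (1 - y)) := by
    have h2 : (0 : ℝ) < 1 - y := by linarith
    rw [hm, Real.log_div (by positivity) (by positivity), Real.log_pow]
  have g1 := Real.log_two_gt_d9
  have g2 := Real.log_two_lt_d9
  have ha : (0 : ℝ) ≤ a := Nat.cast_nonneg a
  have c1 : (a : ℝ) * 0.6931471803 ≤ a * Real.log 2 := mul_le_mul_of_nonneg_left g1.le ha
  have c2 : (a : ℝ) * Real.log 2 ≤ a * 0.6931471808 := mul_le_mul_of_nonneg_left g2.le ha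
  rw [e]
  constructor <;> linarith

theorem l4 : (346573 / 250000 : ℝ) ≤ Real.log 4 ∧ Real.log 4 ≤ (1386297 / 1000000 : ℝ) :=
  logP (0 / 1) 2 (by norm_num) (by norm_num) (by norm_num) (by norm_num) (by norm_num)

theorem l6 : (1791757 / 1000000 : ℝ) ≤ Real.log 6 ∧ Real.log 6 ≤ (895881 / 500000 : ℝ) :=
  logM (1 / 7) 3 (by norm_num) (by norm_num) (by norm_num) (by norm_num) (by norm_num)

theorem l12 : (310613 / 125000 : ℝ) ≤ Real.log 12 ∧ Real.log 12 ≤ (2484909 / 1000000 : ℝ) :=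
  logM (1 / 7) 4 (by norm_num) (by norm_num) (by norm_num) (by norm_num) (by norm_num)

theorem l18 : (2890369 / 1000000 : ℝ) ≤ Real.log 18 ∧ Real.log 18 ≤ (1445187 / 500000 : ℝ) :=
  logP (1 / 17) 4 (by norm_num) (by norm_num) (by norm_num) (by norm_num) (by norm_num)

theorem l30 : (680239 / 200000 : ℝ) ≤ Real.log 30 ∧ Real.log 30 ≤ (8503 / 2500 : ℝ) :=
  logM (1 / 31) 5 (by norm_num) (by norm_num) (by norm_num) (by norm_num) (by norm_num)

theorem l36 : (895879 / 250000 : ℝ) ≤ Real.log 36 ∧ Real.log 36 ≤ (3583521 / 1000000 : ℝ) :=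
  logP (1 / 17) 5 (by norm_num) (by norm_num) (by norm_num) (by norm_num) (by norm_num)

theorem l42 : (3737667 / 1000000 : ℝ) ≤ Real.log 42 ∧ Real.log 42 ≤ (467209 / 125000 : ℝ) :=
  logP (5 / 37) 5 (by norm_num) (by norm_num) (by norm_num) (by norm_num) (by norm_num)

theorem l60 : (2047171 / 500000 : ℝ) ≤ Real.log 60 ∧ Real.log 60 ≤ (4094347 / 1000000 : ℝ) :=
  logM (1 / 31) 6 (by norm_num) (by norm_num) (by norm_num) (by norm_num) (by norm_num)

theorem l62 : (1031783 / 250000 : ℝ) ≤ Real.log 62 ∧ Real.log 62 ≤ (4127137 / 1000000 : ℝ) :=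
  logM (1 / 63) 6 (by norm_num) (by norm_num) (by norm_num) (by norm_num) (by norm_num)

theorem l68 : (843901 / 200000 : ℝ) ≤ Real.log 68 ∧ Real.log 68 ≤ (421951 / 100000 : ℝ) :=
  logP (1 / 33) 6 (by norm_num) (by norm_num) (by norm_num) (by norm_num) (by norm_num)

theorem l72 : (534583 / 125000 : ℝ) ≤ Real.log 72 ∧ Real.log 72 ≤ (4276669 / 1000000 : ℝ) :=
  logP (1 / 17) 6 (by norm_num) (by norm_num) (by norm_num) (by norm_num) (by norm_num)

theorem l74 : (4304063 / 1000000 : ℝ) ≤ Real.log 74 ∧ Real.log 74 ≤ (1076017 / 250000 : ℝ) :=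
  logP (5 / 69) 6 (by norm_num) (by norm_num) (by norm_num) (by norm_num) (by norm_num)

theorem l78 : (2178353 / 500000 : ℝ) ≤ Real.log 78 ∧ Real.log 78 ≤ (4356711 / 1000000 : ℝ) :=
  logP (7 / 71) 6 (by norm_num) (by norm_num) (by norm_num) (by norm_num) (by norm_num)

theorem l80 : (547753 / 125000 : ℝ) ≤ Real.log 80 ∧ Real.log 80 ≤ (4382029 / 1000000 : ℝ) :=
  logP (1 / 9) 6 (by norm_num) (by norm_num) (by norm_num) (by norm_num) (by norm_num)

theorem l86 : (890869 / 200000 : ℝ) ≤ Real.log 86 ∧ Real.log 86 ≤ (89087 / 20000 : ℝ) :=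
  logP (11 / 75) 6 (by norm_num) (by norm_num) (by norm_num) (by norm_num) (by norm_num)

theorem l98 : (916993 / 200000 : ℝ) ≤ Real.log 98 ∧ Real.log 98 ≤ (458497 / 100000 : ℝ) :=
  logM (15 / 113) 7 (by norm_num) (by norm_num) (by norm_num) (by norm_num) (by norm_num)

theorem l104 : (1161097 / 250000 : ℝ) ≤ Real.log 104 ∧ Real.log 104 ≤ (4644393 / 1000000 : ℝ) :=
  logM (3 / 29) 7 (by norm_num) (by norm_num) (by norm_num) (by norm_num) (by norm_num)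

theorem l116 : (1188397 / 250000 : ℝ) ≤ Real.log 116 ∧ Real.log 116 ≤ (4753593 / 1000000 : ℝ) :=
  logM (3 / 61) 7 (by norm_num) (by norm_num) (by norm_num) (by norm_num) (by norm_num)

theorem l134 : (4897837 / 1000000 : ℝ) ≤ Real.log 134 ∧ Real.log 134 ≤ (2448921 / 500000 : ℝ) :=
  logP (3 / 131) 7 (by norm_num) (by norm_num) (by norm_num) (by norm_num) (by norm_num)

theorem l140 : (123541 / 25000 : ℝ) ≤ Real.log 140 ∧ Real.log 140 ≤ (988329 / 200000 : ℝ) :=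
  logP (3 / 67) 7 (by norm_num) (by norm_num) (by norm_num) (by norm_num) (by norm_num)

theorem l146 : (1245901 / 250000 : ℝ) ≤ Real.log 146 ∧ Real.log 146 ≤ (4983609 / 1000000 : ℝ) :=
  logP (9 / 137) 7 (by norm_num) (by norm_num) (by norm_num) (by norm_num) (by norm_num)

theorem l158 : (5062593 / 1000000 : ℝ) ≤ Real.log 158 ∧ Real.log 158 ≤ (2531299 / 500000 : ℝ) :=
  logP (15 / 143) 7 (by norm_num) (by norm_num) (by norm_num) (by norm_num) (by norm_num)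

theorem l172 : (1286873 / 250000 : ℝ) ≤ Real.log 172 ∧ Real.log 172 ≤ (5147497 / 1000000 : ℝ) :=
  logP (11 / 75) 7 (by norm_num) (by norm_num) (by norm_num) (by norm_num) (by norm_num)

theorem l176 : (5170481 / 1000000 : ℝ) ≤ Real.log 176 ∧ Real.log 176 ≤ (2585243 / 500000 : ℝ) :=
  logP (3 / 19) 7 (by norm_num) (by norm_num) (by norm_num) (by norm_num) (by norm_num)

theorem l214 : (2682987 / 500000 : ℝ) ≤ Real.log 214 ∧ Real.log 214 ≤ (5365979 / 1000000 : ℝ) :=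
  logM (21 / 235) 8 (by norm_num) (by norm_num) (by norm_num) (by norm_num) (by norm_num)

theorem l218 : (5384493 / 1000000 : ℝ) ≤ Real.log 218 ∧ Real.log 218 ≤ (2692249 / 500000 : ℝ) :=
  logM (19 / 237) 8 (by norm_num) (by norm_num) (by norm_num) (by norm_num) (by norm_num)

theorem l232 : (1089347 / 200000 : ℝ) ≤ Real.log 232 ∧ Real.log 232 ≤ (272337 / 50000 : ℝ) :=
  logM (3 / 61) 8 (by norm_num) (by norm_num) (by norm_num) (by norm_num) (by norm_num)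

theorem l244 : (2748583 / 500000 : ℝ) ≤ Real.log 244 ∧ Real.log 244 ≤ (5497171 / 1000000 : ℝ) :=
  logM (3 / 125) 8 (by norm_num) (by norm_num) (by norm_num) (by norm_num) (by norm_num)

theorem l250 : (2760729 / 500000 : ℝ) ≤ Real.log 250 ∧ Real.log 250 ≤ (5521463 / 1000000 : ℝ) :=
  logM (3 / 253) 8 (by norm_num) (by norm_num) (by norm_num) (by norm_num) (by norm_num)

theorem l312 : (5743001 / 1000000 : ℝ) ≤ Real.log 312 ∧ Real.log 312 ≤ (2871503 / 500000 : ℝ) :=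
  logP (7 / 71) 8 (by norm_num) (by norm_num) (by norm_num) (by norm_num) (by norm_num)

theorem l318 : (5762049 / 1000000 : ℝ) ≤ Real.log 318 ∧ Real.log 318 ≤ (2881027 / 500000 : ℝ) :=
  logP (31 / 287) 8 (by norm_num) (by norm_num) (by norm_num) (by norm_num) (by norm_num)

theorem l330 : (579909 / 100000 : ℝ) ≤ Real.log 330 ∧ Real.log 330 ≤ (1159819 / 200000 : ℝ) :=
  logP (37 / 293) 8 (by norm_num) (by norm_num) (by norm_num) (by norm_num) (by norm_num)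

theorem l348 : (29261 / 5000 : ℝ) ≤ Real.log 348 ∧ Real.log 348 ≤ (1170441 / 200000 : ℝ) :=
  logP (23 / 151) 8 (by norm_num) (by norm_num) (by norm_num) (by norm_num) (by norm_num)

theorem l390 : (93221 / 15625 : ℝ) ≤ Real.log 390 ∧ Real.log 390 ≤ (5966149 / 1000000 : ℝ) :=
  logM (61 / 451) 9 (by norm_num) (by norm_num) (by norm_num) (by norm_num) (by norm_num)

theorem l562 : (6331499 / 1000000 : ℝ) ≤ Real.log 562 ∧ Real.log 562 ≤ (395719 / 62500 : ℝ) :=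
  logP (25 / 537) 9 (by norm_num) (by norm_num) (by norm_num) (by norm_num) (by norm_num)

end V5


open V5 in
theorem V5_eN : 964 ≤ eN := by
  obtain ⟨a4, b4⟩ := V5.l4
  obtain ⟨a6, b6⟩ := V5.l6
  obtain ⟨a12, b12⟩ := V5.l12
  obtain ⟨a18, b18⟩ := V5.l18
  obtain ⟨a30, b30⟩ := V5.l30
  obtain ⟨a36, b36⟩ := V5.l36
  obtain ⟨a42, b42⟩ := V5.l42
  obtain ⟨a60, b60⟩ := V5.l60
  obtain ⟨a62, b62⟩ := V5.l62
  obtain ⟨a68, b68⟩ := V5.l68
  obtain ⟨a72, b72⟩ := V5.l72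
  obtain ⟨a74, b74⟩ := V5.l74
  obtain ⟨a78, b78⟩ := V5.l78
  obtain ⟨a80, b80⟩ := V5.l80
  obtain ⟨a86, b86⟩ := V5.l86
  obtain ⟨a98, b98⟩ := V5.l98
  obtain ⟨a104, b104⟩ := V5.l104
  obtain ⟨a116, b116⟩ := V5.l116
  obtain ⟨a134, b134⟩ := V5.l134
  obtain ⟨a140, b140⟩ := V5.l140
  obtain ⟨a146, b146⟩ := V5.l146
  obtain ⟨a158, b158⟩ := V5.l158
  obtain ⟨a172, b172⟩ := V5.l172
  obtain ⟨a176, b176⟩ := V5.l176
  obtain ⟨a214, b214⟩ := V5.l214
  obtain ⟨a218, b218⟩ := V5.l218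
  obtain ⟨a232, b232⟩ := V5.l232
  obtain ⟨a244, b244⟩ := V5.l244
  obtain ⟨a250, b250⟩ := V5.l250
  obtain ⟨a312, b312⟩ := V5.l312
  obtain ⟨a318, b318⟩ := V5.l318
  obtain ⟨a330, b330⟩ := V5.l330
  obtain ⟨a348, b348⟩ := V5.l348
  obtain ⟨a390, b390⟩ := V5.l390
  obtain ⟨a562, b562⟩ := V5.l562
  unfold eN
  simp only [Fin.sum_univ_five, cl, en, IF, GG]
  norm_num only [Real.log_neg_eq_log, Real.log_zero]
  linarith

end

end Pool.Agent.H312R.ZA
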