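import Pool.Agent.H312R.ZA.Defs
import Pool.Agent.H312R.ZA.AN7
import Pool.Agent.H312R.ZA.AP12
import Pool.Agent.H312R.ZA.AP3
import Pool.Agent.H312R.ZA.AW3
import Pool.Agent.H312R.ZA.AU1
import Pool.Agent.H312R.ZA.AE2
import Pool.Agent.H312R.ZA.AE3
import Pool.Agent.H312R.ZA.AV1
import Pool.Agent.H312R.ZA.AV4
import Pool.Agent.H312R.ZA.V5
import Pool.Agent.H312R.ZA.AM1

/-! Assembly of the archimedean part of the irrationality of the zeta value at five:
the Lagrange-basis bound for the Hankel determinants (task AM). -/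

open Polynomial Pool.Agent.H337R2 Pool.Agent.H336R2.Z5 Filter Topology

namespace Pool.Agent.H312R.ZA

noncomputable section

namespace AM

/-- polynomial factors are `exp (c log n)` -/
lemma poly_le (C : ℝ) (K : ℕ) (c : ℝ) (hC : 0 < C) : ∃ c0 : ℝ, ∀ n : ℕ, 2 ≤ n →
    C * (n : ℝ) ^ K * Real.exp (c * Real.log n) ≤ Real.exp (c0 * Real.log n) := by
  refine ⟨|Real.log C| / Real.log 2 + K + c, fun n hn => ?_⟩
  have hn' : (2 : ℝ) ≤ n := by exact_mod_cast hn
  have hn0 : (0 : ℝ) < n := by linarith
  have hl2 : 0 < Real.log 2 := Real.log_pos (by norm_num)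
  have hl : Real.log 2 ≤ Real.log n := Real.log_le_log (by norm_num) hn'
  have h1 : C * (n : ℝ) ^ K * Real.exp (c * Real.log n) =
      Real.exp (Real.log C + K * Real.log n + c * Real.log n) := by
    rw [Real.exp_add, Real.exp_add, Real.exp_log hC, ← Real.log_pow, Real.exp_log (by positivity)]
  rw [h1]
  apply Real.exp_le_exp.mpr
  have h2 : Real.log C ≤ |Real.log C| / Real.log 2 * Real.log n := by
    calc Real.log C ≤ |Real.log C| := le_abs_self _
      _ = |Real.log C| / Real.log 2 * Real.log 2 := by field_simp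
      _ ≤ _ := by gcongr
  nlinarith [h2]

lemma logLL {n : ℕ} (hn : 2 ≤ n) {i : ℕ} (hi : i < mN n) :
    0 < LL n (mN n) i ∧ Real.log (LL n (mN n) i) =
      ∑ j ∈ (Finset.range (mN n)).filter (fun j => nd n j ≠ nd n i), Real.log |xu n (nd n i) - xu n (nd n j)| := by
  have hinj := (N1_mono (n := n) (by omega)).injective
  have hset : (Finset.range (mN n)).filter (fun j => nd n j ≠ nd n i) = (Finset.range (mN n)).erase i := by
    ext j
    simp only [Finset.mem_filter, Finset.mem_erase, Finset.mem_range]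
    constructor
    · rintro ⟨h1, h2⟩
      exact ⟨fun h => h2 (by rw [h]), h1⟩
    · rintro ⟨h1, h2⟩
      exact ⟨h2, fun h => h1 (hinj h)⟩
  have hne : ∀ j ∈ (Finset.range (mN n)).erase i, |xu n (nd n i) - xu n (nd n j)| ≠ 0 := by
    intro j hj
    rw [Finset.mem_erase] at hj
    have h1 : nd n i ≠ nd n j := fun h => hj.1 (hinj h).symm
    have h2 : ((nd n i : ℕ) : ℝ) ≠ nd n j := by exact_mod_cast h1
    have h3 : (0 : ℝ) ≤ nd n i := Nat.cast_nonneg _
    have h4 : (0 : ℝ) ≤ nd n j := Nat.cast_nonneg _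
    have h5 : (0 : ℝ) < nd n i + nd n j := by
      have := N2_lower (n := n) (by omega) i
      have : (0 : ℝ) < nd n i := by exact_mod_cast (by omega : 0 < nd n i)
      linarith
    rw [abs_ne_zero]
    unfold xu
    intro h
    have h6 : (((nd n i : ℕ) : ℝ) - nd n j) * (nd n i + nd n j) = 0 := by nlinarith
    rcases mul_eq_zero.mp h6 with h7 | h7
    · exact h2 (by linarith)
    · linarith
  constructor
  · unfold LL
    exact Finset.prod_pos fun j hj => lt_of_le_of_ne (abs_nonneg _) (Ne.symm (hne j hj))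
  · rw [hset]
    unfold LL
    rw [Real.log_prod hne]

lemma nd_lt_29 {n i : ℕ} (hi : i < 9 * n) : nd n i < 29 * n := by
  unfold nd
  split_ifs <;> omega

lemma nd_29_31 {n i : ℕ} (h1 : 9 * n ≤ i) (h2 : i < 11 * n) : 29 * n ≤ nd n i ∧ nd n i < 31 * n := by
  unfold nd
  split_ifs <;> omega

lemma nd_31 {n i : ℕ} (h1 : 11 * n ≤ i) : 31 * n ≤ nd n i := by
  unfold nd
  split_ifs <;> omega

end AM

/-- statement of the bound for the energy of the saturated nodes -/
def AM.SE1 : Prop := ∃ C : ℝ, 0 < C ∧ ∀ n : ℕ, 2 ≤ n →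
    ∑ i ∈ Finset.range (11 * n), (n * phi ((nd n i : ℝ) / n) +
      ∑ j ∈ (Finset.range (11 * n)).erase i, Real.log |xu n (nd n i) - xu n (nd n j)|) ≤
    eS * (n : ℝ) ^ 2 + 242 * (n : ℝ) ^ 2 * Real.log n + C * n * Real.log n

open AM in
/-- the archimedean bound -/
theorem A_main_of (W2_weight : AM1.SW2) (E1_sat : AM.SE1) : ∀ᶠ n : ℕ in atTop, ∀ u : ℚ,
    (∀ Q : ℚ[X], Q.natDegree ≤ 48 * n - 48 →
      HasSum (fun s => Wt n s * aeval (xr n (tau n s)) Q) ((NL n u Q : ℚ) : ℝ)) →
    DET n u (mN n) ≠ 0 →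
    Real.log |((DET n u (mN n) : ℚ) : ℝ)| ≤ 1058 * (n : ℝ) ^ 2 * Real.log n + 611 * (n : ℝ) ^ 2 := by
  have U1_nodes := U1_nodes_of P1_logsum
  have E2_non := E2_non_of P1_logsum P2_psisum
  obtain ⟨C1, K1, hC1, hM1⟩ := AM1.main W2_weight W3_far U1_nodes V1_upper
  obtain ⟨C2, K2, hC2, hW2⟩ := W2_weight
  obtain ⟨C3, hC3, hU1⟩ := U1_nodes
  obtain ⟨C4, hC4, hE1⟩ := E1_sat
  obtain ⟨C5, hC5, hE2⟩ := E2_non
  -- polynomial factors
  obtain ⟨c1, hc1⟩ := poly_le (2 * C1) K1 (2 * C3) (by positivity)
  obtain ⟨c2, hc2⟩ := poly_le (2 * C2) K2 (2 * C3) (by positivity)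
  set c0 : ℝ := |c1| + |c2| with hc0
  have key : ∀ n : ℕ, 2 ≤ n → ∀ u : ℚ,
      (∀ Q : ℚ[X], Q.natDegree ≤ 48 * n - 48 →
        HasSum (fun s => Wt n s * aeval (xr n (tau n s)) Q) ((NL n u Q : ℚ) : ℝ)) →
      DET n u (mN n) ≠ 0 →
      Real.log |((DET n u (mN n) : ℚ) : ℝ)| ≤ 1058 * (n : ℝ) ^ 2 * Real.log n + 609 * (n : ℝ) ^ 2 +
        (C4 + C5 + 23 * c0) * n * Real.log n + 23 * n * Real.log (23 * n) := by
    intro n hn u hB hD
    have hn' : (2 : ℝ) ≤ n := by exact_mod_cast hn
    have hn0 : (0 : ℝ) < n := by linarith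
    have hl2 : 0 < Real.log 2 := Real.log_pos (by norm_num)
    have hl : 0 < Real.log n := lt_of_lt_of_le hl2 (Real.log_le_log (by norm_num) hn')
    set MM : ℝ := C1 * (n : ℝ) ^ K1 * Real.exp (297 / 2 * n + 92 * n * Real.log n) with hMM
    have hMM0 : 0 < MM := by positivity
    have h7 := N7_det hn u hB MM hMM0.le (fun s hs => hM1 n hn s hs)
    set m := mN n with hm
    have hm11 : 11 * n ≤ m := by simp only [hm, mN]; omega
    set W : ℕ → ℝ := fun i => |Wt n (nd n i - 16 * n - 1)| with hW
    have hpos : ∀ i ∈ Finset.range m, 0 < LL n m i := fun i hi => (logLL hn (Finset.mem_range.mp hi)).1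
    have hfac : ∀ i ∈ Finset.range m, 0 < W i * LL n m i ^ 2 + MM := by
      intro i hi
      have : 0 ≤ W i * LL n m i ^ 2 := mul_nonneg (abs_nonneg _) (sq_nonneg _)
      linarith
    -- take logarithms
    have hlog : Real.log |((DET n u m : ℚ) : ℝ)| + ∑ i ∈ Finset.range m, Real.log (LL n m i) ≤
        Real.log (m.factorial : ℝ) + ∑ i ∈ Finset.range m, Real.log (W i * LL n m i ^ 2 + MM) := by
      have hDr : |((DET n u m : ℚ) : ℝ)| ≠ 0 := by
        rw [abs_ne_zero]
        exact_mod_cast hD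
      have hDpos : 0 < |((DET n u m : ℚ) : ℝ)| := lt_of_le_of_ne (abs_nonneg _) (Ne.symm hDr)
      rw [← Real.log_prod (fun i hi => (hpos i hi).ne'), ← Real.log_prod (fun i hi => (hfac i hi).ne'),
        ← Real.log_mul hDr (Finset.prod_pos hpos).ne',
        ← Real.log_mul (by positivity) (Finset.prod_pos hfac).ne']
      exact Real.log_le_log (mul_pos hDpos (Finset.prod_pos hpos)) h7
    -- the individual bounds
    have hnd700 : ∀ i, i < m → nd n i ≤ 700 * n := fun i hi => by
      have := N3_upper hn hi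
      omega
    have hus : ∀ i, us n (nd n i - 16 * n - 1) = nd n i := by
      intro i
      have := N2_lower (n := n) (by omega) i
      unfold us
      omega
    have hWi : ∀ i, i < m → W i ≤ C2 * (n : ℝ) ^ K2 * Real.exp (n * phi ((nd n i : ℝ) / n)) := by
      intro i hi
      have := hW2 n (by omega) (nd n i - 16 * n - 1) (by rw [hus i]; exact hnd700 i hi)
      rw [hus i] at this
      exact this
    have hLLi : ∀ i, i < m → |Real.log (LL n m i) - (n * UU ((nd n i : ℝ) / n) + 46 * n * Real.log n)| ≤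
        C3 * Real.log n := by
      intro i hi
      have := hU1 n hn (nd n i) (N2_lower (by omega) i) (hnd700 i hi)
      rw [← (logLL hn hi).2] at this
      exact this
    have hVV : ∀ v : ℝ, VV v = phi v + 2 * UU v := fun v => rfl
    -- saturated part
    have hSat : ∀ i, i < 11 * n → Real.log (W i * LL n m i ^ 2 + MM) ≤
        n * phi ((nd n i : ℝ) / n) + 2 * Real.log (LL n m i) + (if 9 * n ≤ i then 3 / 2 * (n : ℝ) else 0) +
          c0 * Real.log n := by
      intro i hi
      have him : i < m := by omega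
      have hLp := hpos i (Finset.mem_range.mpr him)
      set δ : ℝ := if 9 * n ≤ i then 3 / 2 * (n : ℝ) else 0 with hδ
      have hδ0 : 0 ≤ δ := by rw [hδ]; split_ifs <;> positivity
      have hv : 297 / 2 * (n : ℝ) ≤ n * VV ((nd n i : ℝ) / n) + δ := by
        by_cases h9 : 9 * n ≤ i
        · obtain ⟨ha, hb⟩ := nd_29_31 h9 hi
          have ha' : (29 : ℝ) ≤ (nd n i : ℝ) / n := by
            rw [le_div_iff₀ hn0]; exact_mod_cast ha
          have hb' : (nd n i : ℝ) / n ≤ 31 := by
            rw [div_le_iff₀ hn0]; exact_mod_cast hb.le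
          have := V3_lower _ ha' hb'
          rw [hδ, if_pos h9]
          nlinarith
        · have ha := N2_lower (n := n) (by omega) i
          have hb := nd_lt_29 (n := n) (i := i) (by omega)
          have ha' : (16 : ℝ) ≤ (nd n i : ℝ) / n := by
            rw [le_div_iff₀ hn0]; exact_mod_cast ha.le
          have hb' : (nd n i : ℝ) / n ≤ 29 := by
            rw [div_le_iff₀ hn0]; exact_mod_cast hb.le
          have := V2_lower _ ha' hb'
          rw [hδ, if_neg h9]
          nlinarith
      have hL := abs_le.mp (hLLi i him)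
      have hexp : Real.exp (n * phi ((nd n i : ℝ) / n) + 2 * Real.log (LL n m i)) =
          Real.exp (n * phi ((nd n i : ℝ) / n)) * LL n m i ^ 2 := by
        rw [Real.exp_add]
        congr 1
        rw [show 2 * Real.log (LL n m i) = Real.log (LL n m i ^ 2) by rw [Real.log_pow]; norm_num,
          Real.exp_log (by positivity)]
      set E := Real.exp (n * phi ((nd n i : ℝ) / n) + 2 * Real.log (LL n m i)) with hE
      have hE0 : 0 < E := Real.exp_pos _
      have b1 : W i * LL n m i ^ 2 ≤ C2 * (n : ℝ) ^ K2 * E := by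
        rw [hexp]
        calc W i * LL n m i ^ 2 ≤ C2 * (n : ℝ) ^ K2 * Real.exp (n * phi ((nd n i : ℝ) / n)) * LL n m i ^ 2 := by
              gcongr
              exact hWi i him
          _ = _ := by ring
      have b2 : MM ≤ C1 * (n : ℝ) ^ K1 * Real.exp (2 * C3 * Real.log n) * (E * Real.exp δ) := by
        rw [hMM, hE, mul_assoc (C1 * (n : ℝ) ^ K1), ← Real.exp_add, ← Real.exp_add]
        apply mul_le_mul_of_nonneg_left (Real.exp_le_exp.mpr ?_) (by positivity)
        rw [hVV, mul_add] at hv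
        have hL1 := hL.1
        linarith
      have b3 : C2 * (n : ℝ) ^ K2 * E ≤ 1 / 2 * Real.exp (c0 * Real.log n) * (E * Real.exp δ) := by
        have h1 : (1 : ℝ) ≤ Real.exp (2 * C3 * Real.log n) := Real.one_le_exp (by positivity)
        have h2 := hc2 n hn
        have h3 : Real.exp (c2 * Real.log n) ≤ Real.exp (c0 * Real.log n) := by
          apply Real.exp_le_exp.mpr
          have : c2 ≤ c0 := by rw [hc0]; linarith [le_abs_self c2, abs_nonneg c1]
          gcongr
        have h4 : C2 * (n : ℝ) ^ K2 ≤ 1 / 2 * Real.exp (c0 * Real.log n) := by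
          have : 2 * C2 * (n : ℝ) ^ K2 * 1 ≤ 2 * C2 * (n : ℝ) ^ K2 * Real.exp (2 * C3 * Real.log n) := by gcongr
          linarith
        have h5 : E ≤ E * Real.exp δ := le_mul_of_one_le_right hE0.le (Real.one_le_exp hδ0)
        calc C2 * (n : ℝ) ^ K2 * E ≤ 1 / 2 * Real.exp (c0 * Real.log n) * E := by gcongr
          _ ≤ _ := by gcongr
      have b4 : C1 * (n : ℝ) ^ K1 * Real.exp (2 * C3 * Real.log n) * (E * Real.exp δ) ≤
          1 / 2 * Real.exp (c0 * Real.log n) * (E * Real.exp δ) := by
        have h2 := hc1 n hn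
        have h3 : Real.exp (c1 * Real.log n) ≤ Real.exp (c0 * Real.log n) := by
          apply Real.exp_le_exp.mpr
          have : c1 ≤ c0 := by rw [hc0]; linarith [le_abs_self c1, abs_nonneg c2]
          gcongr
        have h4 : C1 * (n : ℝ) ^ K1 * Real.exp (2 * C3 * Real.log n) ≤ 1 / 2 * Real.exp (c0 * Real.log n) := by
          linarith
        gcongr
      have b5 : W i * LL n m i ^ 2 + MM ≤ Real.exp (c0 * Real.log n) * (E * Real.exp δ) := by linarith
      calc Real.log (W i * LL n m i ^ 2 + MM) ≤ Real.log (Real.exp (c0 * Real.log n) * (E * Real.exp δ)) :=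
            Real.log_le_log (hfac i (Finset.mem_range.mpr him)) b5
        _ = _ := by
            rw [hE, ← Real.exp_add, ← Real.exp_add, Real.log_exp]
            ring
    -- the other nodes
    have hNon : ∀ i, 11 * n ≤ i → i < m → Real.log (W i * LL n m i ^ 2 + MM) ≤
        297 / 2 * (n : ℝ) + 92 * n * Real.log n + c0 * Real.log n := by
      intro i hi him
      have hLp := hpos i (Finset.mem_range.mpr him)
      have hv : n * VV ((nd n i : ℝ) / n) ≤ 297 / 2 * (n : ℝ) := by
        have ha := nd_31 (n := n) (i := i) hi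
        have hb := hnd700 i him
        have ha' : (31 : ℝ) ≤ (nd n i : ℝ) / n := by
          rw [le_div_iff₀ hn0]; exact_mod_cast ha
        have hb' : (nd n i : ℝ) / n ≤ 700 := by
          rw [div_le_iff₀ hn0]; exact_mod_cast hb
        have := V1_upper _ ha' hb'
        nlinarith
      have hL := abs_le.mp (hLLi i him)
      have hexp : LL n m i ^ 2 = Real.exp (2 * Real.log (LL n m i)) := by
        rw [show 2 * Real.log (LL n m i) = Real.log (LL n m i ^ 2) by rw [Real.log_pow]; norm_num,
          Real.exp_log (by positivity)]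
      set F := Real.exp (297 / 2 * (n : ℝ) + 92 * n * Real.log n) with hF
      have hF0 : 0 < F := Real.exp_pos _
      have b1 : W i * LL n m i ^ 2 ≤ C2 * (n : ℝ) ^ K2 * Real.exp (2 * C3 * Real.log n) * F := by
        calc W i * LL n m i ^ 2 ≤ C2 * (n : ℝ) ^ K2 * Real.exp (n * phi ((nd n i : ℝ) / n)) * LL n m i ^ 2 := by
              gcongr
              exact hWi i him
          _ = C2 * (n : ℝ) ^ K2 * Real.exp (n * phi ((nd n i : ℝ) / n) + 2 * Real.log (LL n m i)) := by
              rw [hexp, Real.exp_add]; ring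
          _ ≤ C2 * (n : ℝ) ^ K2 * Real.exp (2 * C3 * Real.log n + (297 / 2 * (n : ℝ) + 92 * n * Real.log n)) := by
              apply mul_le_mul_of_nonneg_left (Real.exp_le_exp.mpr ?_) (by positivity)
              rw [hVV, mul_add] at hv
              have hL2 := hL.2
              linarith
          _ = _ := by rw [Real.exp_add, hF]; ring
      have b2 : MM ≤ C1 * (n : ℝ) ^ K1 * Real.exp (2 * C3 * Real.log n) * F := by
        rw [hMM]
        have h1 : (1 : ℝ) ≤ Real.exp (2 * C3 * Real.log n) := Real.one_le_exp (by positivity)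
        calc C1 * (n : ℝ) ^ K1 * F = C1 * (n : ℝ) ^ K1 * 1 * F := by ring
          _ ≤ _ := by gcongr
      have h3 : Real.exp (c2 * Real.log n) ≤ Real.exp (c0 * Real.log n) := by
        apply Real.exp_le_exp.mpr
        have : c2 ≤ c0 := by rw [hc0]; linarith [le_abs_self c2, abs_nonneg c1]
        gcongr
      have h4 : Real.exp (c1 * Real.log n) ≤ Real.exp (c0 * Real.log n) := by
        apply Real.exp_le_exp.mpr
        have : c1 ≤ c0 := by rw [hc0]; linarith [le_abs_self c1, abs_nonneg c2]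
        gcongr
      have b5 : W i * LL n m i ^ 2 + MM ≤ Real.exp (c0 * Real.log n) * F := by
        have h5 := hc1 n hn
        have h6 := hc2 n hn
        have h7 : C2 * (n : ℝ) ^ K2 * Real.exp (2 * C3 * Real.log n) ≤ 1 / 2 * Real.exp (c0 * Real.log n) := by linarith
        have h8 : C1 * (n : ℝ) ^ K1 * Real.exp (2 * C3 * Real.log n) ≤ 1 / 2 * Real.exp (c0 * Real.log n) := by linarith
        have h9 := mul_le_mul_of_nonneg_right h7 hF0.le
        have h10 := mul_le_mul_of_nonneg_right h8 hF0.le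
        linarith
      calc Real.log (W i * LL n m i ^ 2 + MM) ≤ Real.log (Real.exp (c0 * Real.log n) * F) :=
            Real.log_le_log (hfac i (Finset.mem_range.mpr him)) b5
        _ = _ := by
            rw [hF, ← Real.exp_add, Real.log_exp]
            ring
    -- split the sums
    have hsplit : ∀ f : ℕ → ℝ, ∑ i ∈ Finset.range m, f i =
        ∑ i ∈ Finset.range (11 * n), f i + ∑ i ∈ Finset.Ico (11 * n) m, f i :=
      fun f => (Finset.sum_range_add_sum_Ico f hm11).symm
    have hS1 : ∑ i ∈ Finset.range (11 * n), Real.log (W i * LL n m i ^ 2 + MM) ≤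
        ∑ i ∈ Finset.range (11 * n), (n * phi ((nd n i : ℝ) / n)) + 2 * ∑ i ∈ Finset.range (11 * n), Real.log (LL n m i) +
          3 * (n : ℝ) ^ 2 + 11 * n * (c0 * Real.log n) := by
      calc ∑ i ∈ Finset.range (11 * n), Real.log (W i * LL n m i ^ 2 + MM) ≤
          ∑ i ∈ Finset.range (11 * n), (n * phi ((nd n i : ℝ) / n) + 2 * Real.log (LL n m i) +
            (if 9 * n ≤ i then 3 / 2 * (n : ℝ) else 0) + c0 * Real.log n) :=
            Finset.sum_le_sum fun i hi => hSat i (Finset.mem_range.mp hi)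
        _ = _ := by
            rw [Finset.sum_add_distrib, Finset.sum_add_distrib, Finset.sum_add_distrib, ← Finset.mul_sum,
              Finset.sum_const, Finset.card_range, nsmul_eq_mul, ← Finset.sum_filter, Finset.sum_const,
              nsmul_eq_mul]
            have hcard : ((Finset.range (11 * n)).filter (fun i => 9 * n ≤ i)).card = 2 * n := by
              have : (Finset.range (11 * n)).filter (fun i => 9 * n ≤ i) = Finset.Ico (9 * n) (11 * n) := by
                ext i; simp only [Finset.mem_filter, Finset.mem_range, Finset.mem_Ico]; tauto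
              rw [this, Nat.card_Ico]; omega
            rw [hcard, ← Finset.mul_sum]
            push_cast
            ring
    have hS2 : ∑ i ∈ Finset.Ico (11 * n) m, Real.log (W i * LL n m i ^ 2 + MM) ≤
        12 * n * (297 / 2 * (n : ℝ) + 92 * n * Real.log n + c0 * Real.log n) := by
      have hc00 : 0 ≤ c0 := by rw [hc0]; positivity
      calc ∑ i ∈ Finset.Ico (11 * n) m, Real.log (W i * LL n m i ^ 2 + MM) ≤
          ∑ i ∈ Finset.Ico (11 * n) m, (297 / 2 * (n : ℝ) + 92 * n * Real.log n + c0 * Real.log n) :=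
            Finset.sum_le_sum fun i hi => hNon i (Finset.mem_Ico.mp hi).1 (Finset.mem_Ico.mp hi).2
        _ = ((m - 11 * n : ℕ) : ℝ) * (297 / 2 * (n : ℝ) + 92 * n * Real.log n + c0 * Real.log n) := by
            rw [Finset.sum_const, Nat.card_Ico, nsmul_eq_mul]
        _ ≤ _ := by
            have h1 : ((m - 11 * n : ℕ) : ℝ) ≤ 12 * n := by
              have : m - 11 * n ≤ 12 * n := by simp only [hm, mN]; omega
              exact_mod_cast this
            have h2 : 0 ≤ 297 / 2 * (n : ℝ) + 92 * n * Real.log n + c0 * Real.log n := by positivity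
            gcongr
    have hE3 := E3_cross hn
    have hE1n := hE1 n hn
    have hE2n := hE2 n hn
    rw [Finset.sum_add_distrib] at hE1n
    have hfacm : Real.log (m.factorial : ℝ) ≤ 23 * n * Real.log (23 * n) := by
      have h1 : m ≤ 23 * n := by simp only [hm, mN]; omega
      have hmpos : 1 ≤ m := by omega
      have h2 : (m.factorial : ℝ) ≤ (m : ℝ) ^ m := by exact_mod_cast Nat.factorial_le_pow m
      have hm' : (m : ℝ) ≤ 23 * n := by exact_mod_cast h1
      have hm1 : (1 : ℝ) ≤ m := by exact_mod_cast hmpos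
      calc Real.log (m.factorial : ℝ) ≤ Real.log ((m : ℝ) ^ m) := Real.log_le_log (by positivity) h2
        _ = m * Real.log m := by rw [Real.log_pow]
        _ ≤ 23 * n * Real.log (23 * n) := by
            apply mul_le_mul hm' (Real.log_le_log (by linarith) hm') (Real.log_nonneg hm1) (by positivity)
    rw [hsplit, hsplit (fun i => Real.log (W i * LL n m i ^ 2 + MM))] at hlog
    have heS := V4_eS
    have heN := V5_eN
    have q1 : eS * (n : ℝ) ^ 2 ≤ -212 * (n : ℝ) ^ 2 := by gcongr
    have q2 : 964 * (n : ℝ) ^ 2 ≤ eN * (n : ℝ) ^ 2 := by gcongr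
    have e1 : 12 * n * (297 / 2 * (n : ℝ) + 92 * n * Real.log n + c0 * Real.log n) =
        1782 * (n : ℝ) ^ 2 + 1104 * ((n : ℝ) ^ 2 * Real.log n) + 12 * (c0 * (n * Real.log n)) := by ring
    have e2 : 11 * (n : ℝ) * (c0 * Real.log n) = 11 * (c0 * (n * Real.log n)) := by ring
    have e3 : 242 * (n : ℝ) ^ 2 * Real.log n = 242 * ((n : ℝ) ^ 2 * Real.log n) := by ring
    have e4 : 288 * (n : ℝ) ^ 2 * Real.log n = 288 * ((n : ℝ) ^ 2 * Real.log n) := by ring
    have e5 : 1058 * (n : ℝ) ^ 2 * Real.log n = 1058 * ((n : ℝ) ^ 2 * Real.log n) := by ring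
    have e6 : (C4 + C5 + 23 * c0) * n * Real.log n = C4 * n * Real.log n + C5 * n * Real.log n +
        23 * (c0 * (n * Real.log n)) := by ring
    rw [e1] at hS2
    rw [e2] at hS1
    rw [e3] at hE1n
    rw [e4] at hE2n
    rw [e5, e6]
    linarith
  -- conclude
  have hlim : ∀ᶠ n : ℕ in atTop, (C4 + C5 + 23 * c0) * n * Real.log n + 23 * n * Real.log (23 * n) ≤
      2 * (n : ℝ) ^ 2 := by
    have h1 : Tendsto (fun n : ℕ => Real.log n / (n : ℝ)) atTop (𝓝 0) := by
      have := (Real.isLittleO_log_id_atTop.tendsto_div_nhds_zero).comp tendsto_natCast_atTop_atTop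
      simpa [Function.comp_def] using this
    have h2 : Tendsto (fun n : ℕ => (C4 + C5 + 23 * c0 + 23) * (Real.log n / (n : ℝ)) + 23 * Real.log 23 * ((n : ℝ))⁻¹)
        atTop (𝓝 ((C4 + C5 + 23 * c0 + 23) * 0 + 23 * Real.log 23 * 0)) :=
      (h1.const_mul _).add (tendsto_inv_atTop_nhds_zero_nat.const_mul _)
    rw [mul_zero, mul_zero, add_zero] at h2
    filter_upwards [h2.eventually (gt_mem_nhds (show (0 : ℝ) < 2 by norm_num)), eventually_ge_atTop 1] with n h3 h4
    have hn0 : (0 : ℝ) < n := by exact_mod_cast h4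
    rw [Real.log_mul (by norm_num) hn0.ne']
    have h5 : (C4 + C5 + 23 * c0) * n * Real.log n + 23 * n * (Real.log 23 + Real.log n) =
        (n : ℝ) ^ 2 * ((C4 + C5 + 23 * c0 + 23) * (Real.log n / (n : ℝ)) + 23 * Real.log 23 * ((n : ℝ))⁻¹) := by
      field_simp
      ring
    rw [h5, mul_comm (2 : ℝ)]
    gcongr
  filter_upwards [hlim, eventually_ge_atTop 2] with n h1 h2 u hB hD
  have := key n h2 u hB hD
  linarith

end

end Pool.Agent.H312R.ZA
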