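import Pool.Agent.H312R.ZA.Defs
import Pool.Agent.H336R2.HD.A3

/-! STUBS of the archimedean part of `ζ(5) ∉ ℚ` (route A). Never import this file in a finished module. -/

open Polynomial Pool.Agent.H337R2 Pool.Agent.H336R2.Z5 Filter Topology

namespace Pool.Agent.H312R.ZA

noncomputable section

/-! ### L. Linear algebra: the Lagrange basis -/

theorem L1_lagrange (N : ℚ[X] →ₗ[ℚ] ℚ) (m : ℕ) (x : ℕ → ℚ) (hx : Set.InjOn x (Finset.range m)) :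
    |(Matrix.of fun i j : Fin m => N (lag m x i * lag m x j)).det| =
      |(Matrix.of fun i j : Fin m => N (X ^ (i.1 + j.1))).det| *
        ∏ i ∈ Finset.range m, ∏ j ∈ (Finset.range m).erase i, |x i - x j| := by
  sorry

theorem L2_det_le (N : ℚ[X] →ₗ[ℚ] ℚ) (m : ℕ) (w y : ℕ → ℝ)
    (hN : ∀ Q : ℚ[X], Q.natDegree ≤ 2 * m - 2 → HasSum (fun s => w s * aeval (y s) Q) ((N Q : ℚ) : ℝ))
    (x : ℕ → ℚ) (hx : Set.InjOn x (Finset.range m)) (B : ℕ → ℝ)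
    (hB : ∀ i < m, ∀ T : Finset ℕ, ∑ s ∈ T, |w s| * (aeval (y s) (lag m x i)) ^ 2 ≤ B i) :
    |(((Matrix.of fun i j : Fin m => N (X ^ (i.1 + j.1))).det : ℚ) : ℝ)| *
        ∏ i ∈ Finset.range m, ∏ j ∈ (Finset.range m).erase i, |((x i - x j : ℚ) : ℝ)| ≤
      (m.factorial : ℝ) * ∏ i ∈ Finset.range m, B i := by
  sorry

/-! ### N. The nodes -/

theorem N1_mono {n : ℕ} (hn : 1 ≤ n) : StrictMono (nd n) := by
  sorry

theorem N2_lower {n : ℕ} (hn : 1 ≤ n) (i : ℕ) : 16 * n < nd n i := by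
  sorry

theorem N3_upper {n : ℕ} (hn : 2 ≤ n) {i : ℕ} (hi : i < mN n) : nd n i < 281 * n := by
  sorry

theorem N4_cover {n : ℕ} (hn : 2 ≤ n) (s : ℕ) (hs : us n s < 31 * n) (hw : Wt n s ≠ 0) :
    ∃ i < 11 * n, nd n i = us n s := by
  sorry

theorem N5_xr (n s : ℕ) : xr n (tau n s) = xu n (us n s) := by
  sorry

/-- row sums -/
theorem N6_rowsum {n : ℕ} (hn : 2 ≤ n) (MM : ℝ) (hM0 : 0 ≤ MM)
    (hM : ∀ s, (∀ i < mN n, nd n i ≠ us n s) → |Wt n s| * PiM n (mN n) (us n s) ^ 2 ≤ MM)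
    {i : ℕ} (hi : i < mN n) (T : Finset ℕ) :
    ∑ s ∈ T, |Wt n s| * (aeval (xr n (tau n s)) (lag (mN n) (fun j => xq n (nd n j)) i)) ^ 2 ≤
      |Wt n (nd n i - 16 * n - 1)| * LL n (mN n) i ^ 2 + MM := by
  sorry

theorem N7_det {n : ℕ} (hn : 2 ≤ n) (u : ℚ)
    (hB1 : ∀ Q : ℚ[X], Q.natDegree ≤ 48 * n - 48 →
      HasSum (fun s => Wt n s * aeval (xr n (tau n s)) Q) ((NL n u Q : ℚ) : ℝ))
    (MM : ℝ) (hM0 : 0 ≤ MM)
    (hM : ∀ s, (∀ i < mN n, nd n i ≠ us n s) → |Wt n s| * PiM n (mN n) (us n s) ^ 2 ≤ MM) :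
    |((DET n u (mN n) : ℚ) : ℝ)| * ∏ i ∈ Finset.range (mN n), LL n (mN n) i ≤
      ((mN n).factorial : ℝ) * ∏ i ∈ Finset.range (mN n),
        (|Wt n (nd n i - 16 * n - 1)| * LL n (mN n) i ^ 2 + MM) := by
  sorry

/-! ### P. Sums over arithmetic progressions and integrals -/

theorem P1_logsum : ∃ C : ℝ, 0 < C ∧ ∀ k N A u : ℕ, 1 ≤ k → k ≤ 86 → 1 ≤ u →
    |∑ j ∈ (Finset.range N).filter (fun j => A + k * j ≠ u), Real.log |(u : ℝ) ^ 2 - ((A : ℝ) + k * j) ^ 2|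
        - (ff u ((A : ℝ) + k * N) - ff u A) / k| ≤ C * Real.log ((u : ℝ) + A + k * N + 2) := by
  sorry

theorem P2_psisum : ∃ C : ℝ, 0 < C ∧ ∀ (k N : ℕ) (a : ℝ), 1 ≤ k → k ≤ 86 →
    |∑ j ∈ Finset.range N, Psi (a + k * j) - (GG (a + k * N) - GG a) / k| ≤
      C * ((N : ℝ) + 1) * Real.log (|a| + k * N + 2) := by
  sorry

theorem P3_ff_scale {r : ℝ} (hr : 0 < r) (v b : ℝ) :
    ff (r * v) (r * b) = r * ff v b + 2 * b * r * Real.log r := by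
  sorry

theorem P4_GG_scale {r : ℝ} (hr : 0 < r) (z : ℝ) :
    GG (r * z) = r ^ 2 * GG z + r ^ 2 * z ^ 2 / 2 * Real.log r := by
  sorry

/-! ### W. The weight -/

theorem W1_formula {n : ℕ} (hn : 1 ≤ n) (s : ℕ) :
    Rr n (tau n s) = ((18 * n).factorial : ℝ) ^ 2 * ((16 * n).factorial : ℝ) ^ 2 * ((14 * n).factorial : ℝ) ^ 2 *
      (us n s : ℝ) /
      ((∏ j ∈ Finset.range (18 * n + 1), ((us n s : ℝ) / 2 - 9 * n + j)) ^ 2 *
       (∏ j ∈ Finset.range (16 * n + 1), ((us n s : ℝ) / 2 - 8 * n + j)) ^ 2 *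
       (∏ j ∈ Finset.range (14 * n + 1), ((us n s : ℝ) / 2 - 7 * n + j)) ^ 2) := by
  sorry

theorem W2_weight : ∃ (C : ℝ) (K : ℕ), 0 < C ∧ ∀ n : ℕ, 1 ≤ n → ∀ s : ℕ, us n s ≤ 700 * n →
    |Wt n s| ≤ C * (n : ℝ) ^ K * Real.exp (n * phi ((us n s : ℝ) / n)) := by
  sorry

/-- far away: crude bound -/
theorem W3_far : ∃ (C : ℝ) (K : ℕ), 0 < C ∧ ∀ n : ℕ, 2 ≤ n → ∀ s : ℕ, 700 * n < us n s →
    |Wt n s| * PiM n (mN n) (us n s) ^ 2 ≤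
      C * (n : ℝ) ^ K * Real.exp (297 / 2 * n + 92 * n * Real.log n) := by
  sorry

/-! ### U. The potential of the nodes -/

theorem U1_nodes : ∃ C : ℝ, 0 < C ∧ ∀ n : ℕ, 2 ≤ n → ∀ u : ℕ, 16 * n < u → u ≤ 700 * n →
    |∑ j ∈ (Finset.range (mN n)).filter (fun j => nd n j ≠ u), Real.log |xu n u - xu n (nd n j)|
        - (n * UU ((u : ℝ) / n) + 46 * n * Real.log n)| ≤ C * Real.log n := by
  sorry

/-! ### E. Energies -/

theorem E1_sat : ∃ C : ℝ, 0 < C ∧ ∀ n : ℕ, 2 ≤ n →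
    ∑ i ∈ Finset.range (11 * n), (n * phi ((nd n i : ℝ) / n) +
      ∑ j ∈ (Finset.range (11 * n)).erase i, Real.log |xu n (nd n i) - xu n (nd n j)|) ≤
    eS * (n : ℝ) ^ 2 + 242 * (n : ℝ) ^ 2 * Real.log n + C * n * Real.log n := by
  sorry

theorem E2_non : ∃ C : ℝ, 0 < C ∧ ∀ n : ℕ, 2 ≤ n →
    eN * (n : ℝ) ^ 2 + 288 * (n : ℝ) ^ 2 * Real.log n - C * n * Real.log n ≤
    ∑ i ∈ Finset.Ico (11 * n) (mN n), ∑ j ∈ (Finset.Ico (11 * n) (mN n)).erase i,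
      Real.log |xu n (nd n i) - xu n (nd n j)| := by
  sorry

/-- the cross energies cancel -/
theorem E3_cross {n : ℕ} (hn : 2 ≤ n) :
    ∑ i ∈ Finset.range (11 * n), Real.log (LL n (mN n) i) -
      ∑ i ∈ Finset.Ico (11 * n) (mN n), Real.log (LL n (mN n) i) =
    ∑ i ∈ Finset.range (11 * n), ∑ j ∈ (Finset.range (11 * n)).erase i, Real.log |xu n (nd n i) - xu n (nd n j)| -
      ∑ i ∈ Finset.Ico (11 * n) (mN n), ∑ j ∈ (Finset.Ico (11 * n) (mN n)).erase i,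
        Real.log |xu n (nd n i) - xu n (nd n j)| := by
  sorry

/-! ### V. Certificates -/

theorem V1_upper (v : ℝ) (h1 : 31 ≤ v) (h2 : v ≤ 700) : VV v ≤ 297 / 2 := by
  sorry

theorem V2_lower (v : ℝ) (h1 : 16 ≤ v) (h2 : v ≤ 29) : 297 / 2 ≤ VV v := by
  sorry

theorem V3_lower (v : ℝ) (h1 : 29 ≤ v) (h2 : v ≤ 31) : 147 ≤ VV v := by
  sorry

theorem V4_eS : eS ≤ -212 := by
  sorry

theorem V5_eN : 964 ≤ eN := by
  sorry

/-! ### M. Assembly -/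

/-- bound for the points which are not nodes -/
theorem M1_out : ∃ (C : ℝ) (K : ℕ), 0 < C ∧ ∀ n : ℕ, 2 ≤ n → ∀ s : ℕ, (∀ i < mN n, nd n i ≠ us n s) →
    |Wt n s| * PiM n (mN n) (us n s) ^ 2 ≤ C * (n : ℝ) ^ K * Real.exp (297 / 2 * n + 92 * n * Real.log n) := by
  sorry

/-- the archimedean bound -/
theorem A_main : ∀ᶠ n : ℕ in atTop, ∀ u : ℚ,
    (∀ Q : ℚ[X], Q.natDegree ≤ 48 * n - 48 →
      HasSum (fun s => Wt n s * aeval (xr n (tau n s)) Q) ((NL n u Q : ℚ) : ℝ)) →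
    DET n u (mN n) ≠ 0 →
    Real.log |((DET n u (mN n) : ℚ) : ℝ)| ≤ 1058 * (n : ℝ) ^ 2 * Real.log n + 611 * (n : ℝ) ^ 2 := by
  sorry

end

end Pool.Agent.H312R.ZA
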